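import Mathlib
import Pool.Agent.H4R3.RCf

/-!
# Ten points: a pencil of sextics with nine double points (Halphen pencil of index two)

`p 0, …, p 7` are points of the plane, `G` is a cubic with a double point at `p 0` which passes
through `p 1, …, p 6`, `H` is a cubic with a double point at `p 7` which passes through
`p 1, …, p 6`, `x` is a common point of `G` and `H` and `C` is a cubic through `p 0, …, p 7, x`.
The inverse function theorem at an explicit configuration.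
-/

open MvPolynomial Filter Topology
open H4RC

namespace Pool.Agent.Y135.BQ

/-- the coefficients of a cubic -/
abbrev T3 : Type := ℂ × ℂ × (Fin 8 → ℂ)

noncomputable def evT (a : T3) (z : Fin 2 → ℂ) : ℂ := ev a.1 a.2.1 a.2.2 z
noncomputable def dxT (a : T3) (z : Fin 2 → ℂ) : ℂ := dx a.1 a.2.1 a.2.2 z
noncomputable def dyT (a : T3) (z : Fin 2 → ℂ) : ℂ := dy a.1 a.2.1 a.2.2 z
/-- the cubic form -/
noncomputable def cuT (a : T3) : MvPolynomial (Fin 3) ℂ := cub a.1 a.2.1 a.2.2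

theorem evT_add (a b : T3) (s : ℂ) (z : Fin 2 → ℂ) : evT (a + s • b) z = evT a z + s * evT b z := by
  simp only [evT, ev, Prod.fst_add, Prod.snd_add, Prod.smul_fst, Prod.smul_snd, Pi.add_apply,
    Pi.smul_apply, smul_eq_mul, add_mul, Finset.sum_add_distrib, Finset.mul_sum, mul_add, mul_assoc]
  ring

theorem dxT_add (a b : T3) (s : ℂ) (z : Fin 2 → ℂ) : dxT (a + s • b) z = dxT a z + s * dxT b z := by
  simp only [dxT, dx, Prod.fst_add, Prod.snd_add, Prod.smul_fst, Prod.smul_snd, Pi.add_apply,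
    Pi.smul_apply, smul_eq_mul, Fin.sum_univ_eight]
  ring

theorem dyT_add (a b : T3) (s : ℂ) (z : Fin 2 → ℂ) : dyT (a + s • b) z = dyT a z + s * dyT b z := by
  simp only [dyT, dy, Prod.fst_add, Prod.snd_add, Prod.smul_fst, Prod.smul_snd, Pi.add_apply,
    Pi.smul_apply, smul_eq_mul, Fin.sum_univ_eight]
  ring

/-- the equations of `G` -/
noncomputable def lnG (a : T3) (p : Fin 8 → Fin 2 → ℂ) : T3 :=
  (dxT a (p 0), dyT a (p 0), ![evT a (p 0), evT a (p 1), evT a (p 2), evT a (p 3), evT a (p 4),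
    evT a (p 5), evT a (p 6), a.2.2 7])

/-- the equations of `H` -/
noncomputable def lnH (a : T3) (p : Fin 8 → Fin 2 → ℂ) : T3 :=
  (dxT a (p 7), dyT a (p 7), ![evT a (p 7), evT a (p 1), evT a (p 2), evT a (p 3), evT a (p 4),
    evT a (p 5), evT a (p 6), a.2.2 7])

/-- the equations of `C` -/
noncomputable def lnC (a : T3) (p : Fin 8 → Fin 2 → ℂ) (x : Fin 2 → ℂ) : T3 :=
  (evT a x, a.2.1, ![evT a (p 0), evT a (p 1), evT a (p 2), evT a (p 3), evT a (p 4),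
    evT a (p 5), evT a (p 6), evT a (p 7)])

theorem lnG_add (a b : T3) (s : ℂ) (p : Fin 8 → Fin 2 → ℂ) :
    lnG (a + s • b) p = lnG a p + s • lnG b p := by
  refine Prod.ext (dxT_add _ _ _ _) (Prod.ext (dyT_add _ _ _ _) ?_)
  funext k
  fin_cases k <;> simp [lnG, evT_add]

theorem lnH_add (a b : T3) (s : ℂ) (p : Fin 8 → Fin 2 → ℂ) :
    lnH (a + s • b) p = lnH a p + s • lnH b p := by
  refine Prod.ext (dxT_add _ _ _ _) (Prod.ext (dyT_add _ _ _ _) ?_)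
  funext k
  fin_cases k <;> simp [lnH, evT_add]

theorem lnC_add (a b : T3) (s : ℂ) (p : Fin 8 → Fin 2 → ℂ) (x : Fin 2 → ℂ) :
    lnC (a + s • b) p x = lnC a p x + s • lnC b p x := by
  refine Prod.ext (evT_add _ _ _ _) (Prod.ext rfl ?_)
  funext k
  fin_cases k <;> simp [lnC, evT_add]

/-- the explicit configuration -/
def P0 : Fin 8 → Fin 2 → ℂ :=
  ![![1, 0], ![1, 1], ![-1, -1], ![1, 2], ![-1, 0], ![2, 0], ![-2, -4], ![-1, -2]]
def x0 : Fin 2 → ℂ := ![0, 2]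
def G0 : T3 := (0, 0, ![0, 0, 2, 0, 1, -1, -3, 1])
def H0 : T3 := (-2, 0, ![0, 4, -2, 2, -3, 1, -1, 1])
def C0 : T3 := (-2, 1, ![-4, 2, -2, 4, 0, 0, 4, -3])

/-- the equations of `G` determine it -/
theorem injG (a : T3) (h : lnG a P0 = 0) : a = 0 := by
  have hdx := congrArg (fun w : T3 => w.1) h
  have hdy := congrArg (fun w : T3 => w.2.1) h
  have e0 := congrArg (fun w : T3 => w.2.2 0) h
  have e1 := congrArg (fun w : T3 => w.2.2 1) h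
  have e2 := congrArg (fun w : T3 => w.2.2 2) h
  have e3 := congrArg (fun w : T3 => w.2.2 3) h
  have e4 := congrArg (fun w : T3 => w.2.2 4) h
  have e5 := congrArg (fun w : T3 => w.2.2 5) h
  have e6 := congrArg (fun w : T3 => w.2.2 6) h
  have e7 := congrArg (fun w : T3 => w.2.2 7) h
  simp [lnG, lnH, lnC, evT, dxT, dyT, ev, dx, dy, mv, Fin.sum_univ_eight, ea, eb, P0, x0] at hdx hdy e0 e1 e2 e3 e4 e5 e6 e7
  have k0 : a.1 = 0 := by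
    linear_combination (-1/2 : ℂ) * hdx + (-1/4 : ℂ) * e0 + (-1/12 : ℂ) * e4 + (1/3 : ℂ) * e5
  have k1 : a.2.1 = 0 := by
    linear_combination (1/2 : ℂ) * hdy + (3/4 : ℂ) * e0 + (-1/1 : ℂ) * e1 + (1/4 : ℂ) * e3
  have k2 : a.2.2 = 0 := by
    funext k
    fin_cases k
    · show a.2.2 0 = 0
      linear_combination (-1/1 : ℂ) * hdx + (1/2 : ℂ) * e0 + (1/6 : ℂ) * e4 + (1/3 : ℂ) * e5
    · show a.2.2 1 = 0
      linear_combination (1/2 : ℂ) * hdx + (3/4 : ℂ) * e0 + (-5/12 : ℂ) * e4 + (-1/3 : ℂ) * e5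
    · show a.2.2 2 = 0
      linear_combination (-1/2 : ℂ) * hdx + (3/1 : ℂ) * hdy + (15/4 : ℂ) * e0 + (-5/1 : ℂ) * e1 + (-1/1 : ℂ) * e2 + (7/6 : ℂ) * e3 + (3/4 : ℂ) * e4 + (1/4 : ℂ) * e5 + (1/12 : ℂ) * e6 + (2/1 : ℂ) * e7
    · show a.2.2 3 = 0
      linear_combination (1/1 : ℂ) * hdx + (1/3 : ℂ) * e4 + (-1/3 : ℂ) * e5
    · show a.2.2 4 = 0
      linear_combination (3/2 : ℂ) * hdy + (5/4 : ℂ) * e0 + (-3/2 : ℂ) * e1 + (1/2 : ℂ) * e2 + (1/4 : ℂ) * e3 + (-1/2 : ℂ) * e4 + (1/1 : ℂ) * e7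
    · show a.2.2 5 = 0
      linear_combination (-3/2 : ℂ) * hdy + (-7/4 : ℂ) * e0 + (2/1 : ℂ) * e1 + (-1/4 : ℂ) * e3 + (-1/1 : ℂ) * e7
    · show a.2.2 6 = 0
      linear_combination (1/2 : ℂ) * hdx + (-7/2 : ℂ) * hdy + (-5/1 : ℂ) * e0 + (13/2 : ℂ) * e1 + (1/2 : ℂ) * e2 + (-17/12 : ℂ) * e3 + (-1/4 : ℂ) * e4 + (-1/4 : ℂ) * e5 + (-1/12 : ℂ) * e6 + (-3/1 : ℂ) * e7
    · show a.2.2 7 = 0
      linear_combination (1/1 : ℂ) * e7
  exact Prod.ext k0 (Prod.ext k1 k2)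

/-- the equations of `H` determine it -/
theorem injH (a : T3) (h : lnH a P0 = 0) : a = 0 := by
  have hdx := congrArg (fun w : T3 => w.1) h
  have hdy := congrArg (fun w : T3 => w.2.1) h
  have e0 := congrArg (fun w : T3 => w.2.2 0) h
  have e1 := congrArg (fun w : T3 => w.2.2 1) h
  have e2 := congrArg (fun w : T3 => w.2.2 2) h
  have e3 := congrArg (fun w : T3 => w.2.2 3) h
  have e4 := congrArg (fun w : T3 => w.2.2 4) h
  have e5 := congrArg (fun w : T3 => w.2.2 5) h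
  have e6 := congrArg (fun w : T3 => w.2.2 6) h
  have e7 := congrArg (fun w : T3 => w.2.2 7) h
  simp [lnG, lnH, lnC, evT, dxT, dyT, ev, dx, dy, mv, Fin.sum_univ_eight, ea, eb, P0, x0] at hdx hdy e0 e1 e2 e3 e4 e5 e6 e7
  have k0 : a.1 = 0 := by
    linear_combination (1/2 : ℂ) * hdx + (-2/1 : ℂ) * hdy + (-19/4 : ℂ) * e0 + (-1/1 : ℂ) * e1 + (7/1 : ℂ) * e2 + (7/12 : ℂ) * e3 + (-13/6 : ℂ) * e4 + (1/6 : ℂ) * e5 + (1/6 : ℂ) * e6 + (-2/1 : ℂ) * e7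
  have k1 : a.2.1 = 0 := by
    linear_combination (1/2 : ℂ) * hdy + (3/4 : ℂ) * e0 + (-1/1 : ℂ) * e2 + (1/4 : ℂ) * e4
  have k2 : a.2.2 = 0 := by
    funext k
    fin_cases k
    · show a.2.2 0 = 0
      linear_combination (1/1 : ℂ) * hdx + (2/1 : ℂ) * hdy + (1/2 : ℂ) * e0 + (1/6 : ℂ) * e3 + (1/3 : ℂ) * e6
    · show a.2.2 1 = 0
      linear_combination (-1/2 : ℂ) * hdx + (5/1 : ℂ) * hdy + (39/4 : ℂ) * e0 + (2/1 : ℂ) * e1 + (-14/1 : ℂ) * e2 + (-13/12 : ℂ) * e3 + (11/3 : ℂ) * e4 + (-1/6 : ℂ) * e5 + (-1/6 : ℂ) * e6 + (4/1 : ℂ) * e7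
    · show a.2.2 2 = 0
      linear_combination (1/2 : ℂ) * hdx + (-2/1 : ℂ) * hdy + (-21/4 : ℂ) * e0 + (-1/1 : ℂ) * e1 + (7/1 : ℂ) * e2 + (3/4 : ℂ) * e3 + (-11/6 : ℂ) * e4 + (1/12 : ℂ) * e5 + (1/4 : ℂ) * e6 + (-2/1 : ℂ) * e7
    · show a.2.2 3 = 0
      linear_combination (-1/1 : ℂ) * hdx + (1/1 : ℂ) * hdy + (9/2 : ℂ) * e0 + (1/1 : ℂ) * e1 + (-7/1 : ℂ) * e2 + (-2/3 : ℂ) * e3 + (5/2 : ℂ) * e4 + (-1/3 : ℂ) * e6 + (2/1 : ℂ) * e7
    · show a.2.2 4 = 0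
      linear_combination (-9/2 : ℂ) * hdy + (-31/4 : ℂ) * e0 + (-1/2 : ℂ) * e1 + (23/2 : ℂ) * e2 + (1/2 : ℂ) * e3 + (-15/4 : ℂ) * e4 + (-3/1 : ℂ) * e7
    · show a.2.2 5 = 0
      linear_combination (3/2 : ℂ) * hdy + (11/4 : ℂ) * e0 + (-4/1 : ℂ) * e2 + (5/4 : ℂ) * e4 + (1/1 : ℂ) * e7
    · show a.2.2 6 = 0
      linear_combination (-1/2 : ℂ) * hdx + (-3/2 : ℂ) * hdy + (-1/2 : ℂ) * e0 + (1/2 : ℂ) * e1 + (1/2 : ℂ) * e2 + (-1/4 : ℂ) * e3 + (1/12 : ℂ) * e4 + (-1/12 : ℂ) * e5 + (-1/4 : ℂ) * e6 + (-1/1 : ℂ) * e7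
    · show a.2.2 7 = 0
      linear_combination (1/1 : ℂ) * e7
  exact Prod.ext k0 (Prod.ext k1 k2)

/-- the equations of `C` determine it -/
theorem injC (a : T3) (h : lnC a P0 x0 = 0) : a = 0 := by
  have hdx := congrArg (fun w : T3 => w.1) h
  have hdy := congrArg (fun w : T3 => w.2.1) h
  have e0 := congrArg (fun w : T3 => w.2.2 0) h
  have e1 := congrArg (fun w : T3 => w.2.2 1) h
  have e2 := congrArg (fun w : T3 => w.2.2 2) h
  have e3 := congrArg (fun w : T3 => w.2.2 3) h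
  have e4 := congrArg (fun w : T3 => w.2.2 4) h
  have e5 := congrArg (fun w : T3 => w.2.2 5) h
  have e6 := congrArg (fun w : T3 => w.2.2 6) h
  have e7 := congrArg (fun w : T3 => w.2.2 7) h
  simp [lnG, lnH, lnC, evT, dxT, dyT, ev, dx, dy, mv, Fin.sum_univ_eight, ea, eb, P0, x0] at hdx hdy e0 e1 e2 e3 e4 e5 e6 e7
  have k0 : a.1 = 0 := by
    linear_combination (1/4 : ℂ) * hdx + (-2/1 : ℂ) * hdy + (-1/2 : ℂ) * e0 + (1/2 : ℂ) * e1 + (1/2 : ℂ) * e2 + (-1/3 : ℂ) * e3 + (-1/2 : ℂ) * e4 + (1/8 : ℂ) * e5 + (-1/24 : ℂ) * e6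
  have k1 : a.2.1 = 0 := by
    linear_combination (1/1 : ℂ) * hdy
  have k2 : a.2.2 = 0 := by
    funext k
    fin_cases k
    · show a.2.2 0 = 0
      linear_combination (1/2 : ℂ) * hdx + (-4/1 : ℂ) * hdy + (1/1 : ℂ) * e1 + (1/1 : ℂ) * e2 + (-2/3 : ℂ) * e3 + (-2/3 : ℂ) * e4 + (-1/12 : ℂ) * e5 + (-1/12 : ℂ) * e6
    · show a.2.2 1 = 0
      linear_combination (-1/4 : ℂ) * hdx + (2/1 : ℂ) * hdy + (1/1 : ℂ) * e0 + (-1/2 : ℂ) * e1 + (-1/2 : ℂ) * e2 + (1/3 : ℂ) * e3 + (-1/8 : ℂ) * e5 + (1/24 : ℂ) * e6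
    · show a.2.2 2 = 0
      linear_combination (1/4 : ℂ) * hdx + (-2/1 : ℂ) * hdy + (-1/2 : ℂ) * e0 + (1/2 : ℂ) * e1 + (1/2 : ℂ) * e2 + (-1/6 : ℂ) * e3 + (-1/6 : ℂ) * e4 + (1/24 : ℂ) * e5 + (1/24 : ℂ) * e6 + (-1/2 : ℂ) * e7
    · show a.2.2 3 = 0
      linear_combination (-1/2 : ℂ) * hdx + (4/1 : ℂ) * hdy + (1/2 : ℂ) * e0 + (-1/1 : ℂ) * e1 + (-1/1 : ℂ) * e2 + (2/3 : ℂ) * e3 + (7/6 : ℂ) * e4 + (1/12 : ℂ) * e5 + (1/12 : ℂ) * e6
    · show a.2.2 4 = 0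
      linear_combination (-3/4 : ℂ) * e0 + (1/1 : ℂ) * e1 + (1/1 : ℂ) * e2 + (-1/4 : ℂ) * e3 + (-3/4 : ℂ) * e4 + (-1/4 : ℂ) * e7
    · show a.2.2 5 = 0
      linear_combination (1/4 : ℂ) * e0 + (-1/2 : ℂ) * e1 + (-1/2 : ℂ) * e2 + (1/4 : ℂ) * e3 + (1/4 : ℂ) * e4 + (1/4 : ℂ) * e7
    · show a.2.2 6 = 0
      linear_combination (-1/4 : ℂ) * hdx + (4/1 : ℂ) * hdy + (-1/4 : ℂ) * e0 + (1/2 : ℂ) * e1 + (-3/2 : ℂ) * e2 + (-1/12 : ℂ) * e3 + (11/12 : ℂ) * e4 + (-1/24 : ℂ) * e5 + (-1/24 : ℂ) * e6 + (3/4 : ℂ) * e7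
    · show a.2.2 7 = 0
      linear_combination (-3/1 : ℂ) * hdy + (1/4 : ℂ) * e0 + (-1/2 : ℂ) * e1 + (1/2 : ℂ) * e2 + (1/4 : ℂ) * e3 + (-1/4 : ℂ) * e4 + (-1/4 : ℂ) * e7
  exact Prod.ext k0 (Prod.ext k1 k2)

theorem inj8 (δ : Fin 8 → ℂ) (h : ∀ i, ∑ k, δ k * mv (P0 i) k = 0) : δ = 0 := by
  have e0 := h 0
  have e1 := h 1
  have e2 := h 2
  have e3 := h 3
  have e4 := h 4
  have e5 := h 5
  have e6 := h 6
  have e7 := h 7
  simp [Fin.sum_univ_eight, mv, P0, ea, eb] at e0 e1 e2 e3 e4 e5 e6 e7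
  funext k
  fin_cases k
  · show δ 0 = 0
    linear_combination (1/1 : ℂ) * e0 + (1/3 : ℂ) * e4 + (-1/3 : ℂ) * e5
  · show δ 1 = 0
    linear_combination (1/2 : ℂ) * e0 + (-1/2 : ℂ) * e4
  · show δ 2 = 0
    linear_combination (1/6 : ℂ) * e3 + (1/3 : ℂ) * e4 + (-1/12 : ℂ) * e5 + (1/12 : ℂ) * e6 + (-1/2 : ℂ) * e7
  · show δ 3 = 0
    linear_combination (-1/2 : ℂ) * e0 + (1/6 : ℂ) * e4 + (1/3 : ℂ) * e5
  · show δ 4 = 0
    linear_combination (-3/4 : ℂ) * e0 + (1/1 : ℂ) * e1 + (1/1 : ℂ) * e2 + (-1/4 : ℂ) * e3 + (-3/4 : ℂ) * e4 + (-1/4 : ℂ) * e7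
  · show δ 5 = 0
    linear_combination (1/4 : ℂ) * e0 + (-1/2 : ℂ) * e1 + (-1/2 : ℂ) * e2 + (1/4 : ℂ) * e3 + (1/4 : ℂ) * e4 + (1/4 : ℂ) * e7
  · show δ 6 = 0
    linear_combination (-3/4 : ℂ) * e0 + (1/1 : ℂ) * e1 + (-1/1 : ℂ) * e2 + (-5/12 : ℂ) * e3 + (5/12 : ℂ) * e4 + (1/12 : ℂ) * e5 + (-1/12 : ℂ) * e6 + (3/4 : ℂ) * e7
  · show δ 7 = 0
    linear_combination (1/4 : ℂ) * e0 + (-1/2 : ℂ) * e1 + (1/2 : ℂ) * e2 + (1/4 : ℂ) * e3 + (-1/4 : ℂ) * e4 + (-1/4 : ℂ) * e7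

/-! ### the inverse function theorem -/

abbrev EE : Type := (Fin 8 → Fin 2 → ℂ) × (Fin 2 → ℂ) × T3 × T3 × T3

/-- The system of equations. -/
noncomputable def Psi (b : EE) : EE :=
  (b.1, ![evT b.2.2.1 b.2.1, evT b.2.2.2.1 b.2.1], lnG b.2.2.1 b.1, lnH b.2.2.2.1 b.1,
    lnC b.2.2.2.2 b.1 b.2.1)

def b0 : EE := (P0, x0, G0, H0, C0)

theorem Psi_contDiff : ContDiff ℂ 1 Psi := by
  unfold Psi lnG lnH lnC evT dxT dyT ev dx dy mv
  refine ContDiff.prodMk (by fun_prop) (ContDiff.prodMk ?_ (ContDiff.prodMk ?_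
    (ContDiff.prodMk ?_ ?_)))
  · rw [contDiff_pi]
    intro i
    fin_cases i
    · simp
      fun_prop
    · simp
      fun_prop
  · refine ContDiff.prodMk (by fun_prop) (ContDiff.prodMk (by fun_prop) ?_)
    rw [contDiff_pi]
    intro i
    fin_cases i <;> simp <;> fun_prop
  · refine ContDiff.prodMk (by fun_prop) (ContDiff.prodMk (by fun_prop) ?_)
    rw [contDiff_pi]
    intro i
    fin_cases i <;> simp <;> fun_prop
  · refine ContDiff.prodMk (by fun_prop) (ContDiff.prodMk (by fun_prop) ?_)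
    rw [contDiff_pi]
    intro i
    fin_cases i <;> simp <;> fun_prop

theorem deriv_line {F : Type*} [NormedAddCommGroup F] [NormedSpace ℂ F] {f : ℂ → F} {w0 w1 : F}
    (h : HasDerivAt f 0 0) (hf : ∀ s, f s = w0 + s • w1) : w1 = 0 := by
  have h2 : HasDerivAt (fun s : ℂ => w0 + s • w1) w1 0 := by
    have := ((hasDerivAt_id (0 : ℂ)).smul_const w1).const_add w0
    simpa using this
  have h3 : f = fun s : ℂ => w0 + s • w1 := funext hf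
  rw [h3] at h
  exact h2.unique h

theorem deriv_cubic {f : ℂ → ℂ} {c1 c2 c3 : ℂ} (h : HasDerivAt f 0 0)
    (hf : ∀ s, f s = s * c1 + s ^ 2 * c2 + s ^ 3 * c3) : c1 = 0 := by
  have h2 : HasDerivAt (fun s : ℂ => s * c1 + s ^ 2 * c2 + s ^ 3 * c3) c1 0 := by
    have h4 := (((hasDerivAt_id (0 : ℂ)).mul_const c1).add
      (((hasDerivAt_id (0 : ℂ)).pow 2).mul_const c2)).add
      (((hasDerivAt_id (0 : ℂ)).pow 3).mul_const c3)
    exact h4.congr_deriv (by simp)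
  have h3 : f = fun s : ℂ => s * c1 + s ^ 2 * c2 + s ^ 3 * c3 := funext hf
  rw [h3] at h
  exact h2.unique h

theorem fderiv_inj (v : EE) (hv : fderiv ℂ Psi b0 v = 0) : v = 0 := by
  have hd : HasFDerivAt Psi (fderiv ℂ Psi b0) b0 :=
    (Psi_contDiff.differentiable (by norm_num) b0).hasFDerivAt
  have hl : HasDerivAt (fun s : ℂ => Psi (b0 + s • v)) 0 0 := by
    have := hd.hasLineDerivAt v
    rw [hv] at this
    exact this
  obtain ⟨vp, vx, vG, vH, vC⟩ := v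
  have hp : vp = 0 := deriv_line (w0 := P0) (w1 := vp) hl.fst (fun s => rfl)
  subst hp
  have hP : ∀ s : ℂ, P0 + s • (0 : Fin 8 → Fin 2 → ℂ) = P0 := fun s => by
    rw [smul_zero, add_zero]
  have hG : vG = 0 := by
    apply injG
    refine deriv_line (w0 := lnG G0 P0) (w1 := lnG vG P0) hl.snd.snd.fst (fun s => ?_)
    change lnG (G0 + s • vG) (P0 + s • (0 : Fin 8 → Fin 2 → ℂ)) = _
    rw [hP, lnG_add]
  have hH : vH = 0 := by
    apply injH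
    refine deriv_line (w0 := lnH H0 P0) (w1 := lnH vH P0) hl.snd.snd.snd.fst (fun s => ?_)
    change lnH (H0 + s • vH) (P0 + s • (0 : Fin 8 → Fin 2 → ℂ)) = _
    rw [hP, lnH_add]
  subst hG
  subst hH
  have hx1 : 6 * vx 0 - 2 * vx 1 = 0 := by
    refine deriv_cubic (c2 := -6 * vx 0 ^ 2 + 5 * vx 0 * vx 1 - vx 1 ^ 2)
      (c3 := -3 * vx 0 ^ 2 * vx 1 + vx 0 * vx 1 ^ 2) (hasDerivAt_pi.1 hl.snd.fst 0) (fun s => ?_)
    change evT (G0 + s • (0 : T3)) (x0 + s • vx) = _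
    rw [smul_zero, add_zero]
    simp [evT, ev, mv, Fin.sum_univ_eight, G0, x0, ea, eb]
    ring
  have hx2 : 2 * vx 0 + 2 * vx 1 = 0 := by
    refine deriv_cubic (c2 := vx 0 * vx 1 + vx 1 ^ 2)
      (c3 := -2 * vx 0 ^ 3 - vx 0 ^ 2 * vx 1 + vx 0 * vx 1 ^ 2) (hasDerivAt_pi.1 hl.snd.fst 1)
      (fun s => ?_)
    change evT (H0 + s • (0 : T3)) (x0 + s • vx) = _
    rw [smul_zero, add_zero]
    simp [evT, ev, mv, Fin.sum_univ_eight, H0, x0, ea, eb]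
    ring
  have hx : vx = 0 := by
    funext j
    fin_cases j
    · show vx 0 = 0
      linear_combination (1 / 8 : ℂ) * hx1 + (1 / 8 : ℂ) * hx2
    · show vx 1 = 0
      linear_combination (-1 / 8 : ℂ) * hx1 + (3 / 8 : ℂ) * hx2
  subst hx
  have hC : vC = 0 := by
    apply injC
    refine deriv_line (w0 := lnC C0 P0 x0) (w1 := lnC vC P0 x0) hl.snd.snd.snd.snd (fun s => ?_)
    change lnC (C0 + s • vC) (P0 + s • (0 : Fin 8 → Fin 2 → ℂ)) (x0 + s • (0 : Fin 2 → ℂ)) = _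
    rw [hP, smul_zero, add_zero, lnC_add]
  rw [hC]
  rfl

theorem map_nhds_Psi : Filter.map Psi (𝓝 b0) = 𝓝 (Psi b0) := by
  have hs : HasStrictFDerivAt Psi (fderiv ℂ Psi b0) b0 :=
    (Psi_contDiff.contDiffAt (x := b0)).hasStrictFDerivAt (by norm_num)
  apply hs.map_nhds_eq_of_surj
  rw [LinearMap.range_eq_top]
  apply LinearMap.surjective_of_injective
  rw [← LinearMap.ker_eq_bot, LinearMap.ker_eq_bot']
  intro v hv
  exact fderiv_inj v hv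

/-- the right hand sides -/
def rG : T3 := (0, 0, ![0, 0, 0, 0, 0, 0, 0, 1])
def rC : T3 := (0, 1, 0)

theorem Psi_b0 : Psi b0 = (P0, 0, rG, rG, rC) := by
  refine Prod.ext rfl (Prod.ext ?_ (Prod.ext ?_ (Prod.ext ?_ ?_)))
  · funext j
    fin_cases j
    · simp [Psi, b0, evT, ev, mv, Fin.sum_univ_eight, G0, x0, ea, eb]
      norm_num
    · simp [Psi, b0, evT, ev, mv, Fin.sum_univ_eight, H0, x0, ea, eb]
      norm_num
  · change lnG G0 P0 = rG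
    refine Prod.ext ?_ (Prod.ext ?_ ?_)
    · simp [lnG, rG, dxT, dx, Fin.sum_univ_eight, G0, P0, ea, eb]
    · simp [lnG, rG, dyT, dy, Fin.sum_univ_eight, G0, P0, ea, eb]
      norm_num
    · funext i
      fin_cases i <;> simp [lnG, rG, evT, ev, mv, Fin.sum_univ_eight, G0, P0, ea, eb] <;> norm_num
  · change lnH H0 P0 = rG
    refine Prod.ext ?_ (Prod.ext ?_ ?_)
    · simp [lnH, rG, dxT, dx, Fin.sum_univ_eight, H0, P0, ea, eb]
      norm_num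
    · simp [lnH, rG, dyT, dy, Fin.sum_univ_eight, H0, P0, ea, eb]
      norm_num
    · funext i
      fin_cases i <;> simp [lnH, rG, evT, ev, mv, Fin.sum_univ_eight, H0, P0, ea, eb] <;> norm_num
  · change lnC C0 P0 x0 = rC
    refine Prod.ext ?_ (Prod.ext ?_ ?_)
    · simp [lnC, rC, evT, ev, mv, Fin.sum_univ_eight, C0, x0, ea, eb]
      norm_num
    · simp [lnC, rC, C0]
    · funext i
      fin_cases i <;> simp [lnC, rC, evT, ev, mv, Fin.sum_univ_eight, C0, P0, ea, eb] <;> norm_num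

end Pool.Agent.Y135.BQ
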