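import Mathlib
import Pool.Agent.Y135.BQa

/-!
# Ten points: definitions and statements of the building blocks
-/

open MvPolynomial Filter Topology
open H4RC

namespace Pool.Agent.Y135.BQ

/-- the second mixed derivative of a cubic -/
noncomputable def dxyT (a : T3) (z : Fin 2 → ℂ) : ℂ :=
  ∑ k, a.2.2 k * ((ea k : ℂ) * (eb k : ℂ) * z 0 ^ (ea k - 1) * z 1 ^ (eb k - 1))

/-- the values of the six monomials of degree at most two -/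
def m6 (z : Fin 2 → ℂ) : Fin 6 → ℂ := ![1, z 0, z 1, z 0 ^ 2, z 0 * z 1, z 1 ^ 2]

/-- six points which do not lie on a conic -/
def NC (s : Fin 6 → Fin 2 → ℂ) : Prop :=
  (Matrix.of (fun i k => m6 (s i) k) : Matrix (Fin 6) (Fin 6) ℂ).det ≠ 0

/-- the good configurations -/
structure Gd (p : Fin 8 → Fin 2 → ℂ) (x : Fin 2 → ℂ) (G H C : T3) : Prop where
  nc1 : NC ![p 1, p 2, p 3, p 4, p 5, p 7]
  nc2 : NC ![p 0, p 1, p 2, p 3, p 4, p 5]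
  inj : ∀ i j, i ≠ j → p i ≠ p j
  ne : ∀ i, x ≠ p i
  G0 : evT G (p 0) = 0
  G0x : dxT G (p 0) = 0
  G0y : dyT G (p 0) = 0
  G0xy : dxyT G (p 0) ≠ 0
  Gp : ∀ i, i ≠ 0 → i ≠ 7 → evT G (p i) = 0
  G7 : evT G (p 7) ≠ 0
  Gx : evT G x = 0
  Gxx : dxT G x ≠ 0
  H7 : evT H (p 7) = 0
  H7x : dxT H (p 7) = 0
  H7y : dyT H (p 7) = 0
  Hp : ∀ i, i ≠ 0 → i ≠ 7 → evT H (p i) = 0
  H0 : evT H (p 0) ≠ 0
  Hx : evT H x = 0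
  Cp : ∀ i, evT C (p i) = 0
  Cx : evT C x = 0
  Cpx : ∀ i, dxT C (p i) ≠ 0
  Cxx : dxT C x ≠ 0
  JG : ∀ i, i ≠ 0 → i ≠ 7 → dxT C (p i) * dyT G (p i) - dyT C (p i) * dxT G (p i) ≠ 0
  JH : ∀ i, i ≠ 0 → i ≠ 7 → dxT C (p i) * dyT H (p i) - dyT C (p i) * dxT H (p i) ≠ 0

/-- Job OPEN. -/
def S_OPEN : Prop := ∀ᶠ p : Fin 8 → Fin 2 → ℂ in 𝓝 P0, ∃ x G H C, Gd p x G H C

/-- Job MULT (a). -/
def S_MULTA : Prop := ∀ (P R : MvPolynomial (Fin 3) ℂ) (w : Fin 3 → ℂ) (k : ℕ),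
  mult P w = k → (k : ℕ∞) ≤ mult R w → {c : ℂ | mult (P + C c * R) w ≠ k}.Finite

/-- Job MULT (b). -/
def S_MULTB : Prop := ∀ (a : T3) (z : Fin 2 → ℂ), evT a z = 0 → dxT a z = 0 → dyT a z = 0 →
  2 ≤ mult (cuT a) (pt z) ∧ (dxyT a z ≠ 0 → mult (cuT a) (pt z) = 2)

/-- Job BERT. -/
def S_BERT : Prop := ∀ (e : ℕ) (P R : MvPolynomial (Fin 3) ℂ), 0 < e → P.IsHomogeneous e →
  R.IsHomogeneous e → P ≠ 0 → R ≠ 0 → IsRelPrime P R →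
  (∃ i, P * pderiv i R - R * pderiv i P ≠ 0) ∧ {c : ℂ | ¬ Squarefree (P + C c * R)}.Finite

/-- Job SIX (a). -/
def S_LOW : Prop := ∀ s : Fin 6 → Fin 2 → ℂ, NC s → ∀ Q : MvPolynomial (Fin 3) ℂ,
  Q.totalDegree ≤ 2 → (∀ i, eval (pt (s i)) Q = 0) → ∀ z, eval (pt z) Q = 0

/-- Job SIX (b). -/
def S_RP : Prop := ∀ s : Fin 6 → Fin 2 → ℂ, NC s → ∀ Q R : MvPolynomial (Fin 3) ℂ,
  Q.totalDegree ≤ 3 → (¬ ∀ z, eval (pt z) Q = 0) → (∀ i, eval (pt (s i)) Q = 0) →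
  (∀ i, eval (pt (s i)) R ≠ 0 ∨ eval (pt (s i)) (pderiv 0 Q) * eval (pt (s i)) (pderiv 1 R)
      - eval (pt (s i)) (pderiv 1 Q) * eval (pt (s i)) (pderiv 0 R) ≠ 0) → IsRelPrime Q R

/-- Job SIX (c). -/
def S_SF : Prop := ∀ s : Fin 6 → Fin 2 → ℂ, NC s → ∀ Q : MvPolynomial (Fin 3) ℂ,
  Q.totalDegree ≤ 3 → (¬ ∀ z, eval (pt z) Q = 0) →
  (∀ i, eval (pt (s i)) Q = 0 ∧ eval (pt (s i)) (pderiv 0 Q) ≠ 0) → Squarefree Q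

/-- Job SIX (d). -/
def S_SG : Prop := ∀ s : Fin 6 → Fin 2 → ℂ, NC s → ∀ Q : MvPolynomial (Fin 3) ℂ,
  Q.totalDegree ≤ 3 → (∀ i : Fin 6, i ≠ 5 → eval (pt (s i)) Q = 0 ∧
    ¬ (eval (pt (s i)) (pderiv 0 Q) = 0 ∧ eval (pt (s i)) (pderiv 1 Q) = 0)) →
  eval (pt (s 5)) Q ≠ 0 → Squarefree Q

end Pool.Agent.Y135.BQ
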