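import Mathlib
import Pool.Agent.Y135.BQs

/-!
# Ten points: a general lemma on pencils of curves, and the avoidance of thin sets
-/

open MvPolynomial Filter Topology
open H4RC

namespace Pool.Agent.Y135.BQ

/-- the value of a form at the `k`-th point, as a polynomial in the coordinates of the points -/
noncomputable def atk {s : ℕ} (k : Fin s) (Φ : MvPolynomial (Fin 3) ℂ) :
    MvPolynomial (Fin s × Fin 2) ℂ :=
  aeval (![X (k, 0), X (k, 1), 1] : Fin 3 → MvPolynomial (Fin s × Fin 2) ℂ) Φ

theorem eval_atk {s : ℕ} (k : Fin s) (Φ : MvPolynomial (Fin 3) ℂ) (q : Fin s → Fin 2 → ℂ) :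
    eval (fun ij : Fin s × Fin 2 => q ij.1 ij.2) (atk k Φ) = eval (pt (q k)) Φ := by
  have h : ((eval (fun ij : Fin s × Fin 2 => q ij.1 ij.2)).comp
      (aeval (![X (k, 0), X (k, 1), 1] : Fin 3 → MvPolynomial (Fin s × Fin 2) ℂ)).toRingHom)
      = eval (pt (q k)) := by
    apply MvPolynomial.ringHom_ext
    · intro r
      simp
    · intro i
      fin_cases i <;> simp [pt]
  exact congrArg (fun φ => φ Φ) h

theorem eval_smul {e : ℕ} {Φ : MvPolynomial (Fin 3) ℂ} (h : Φ.IsHomogeneous e) (t : ℂ)
    (y : Fin 3 → ℂ) : eval (t • y) Φ = t ^ e * eval y Φ := by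
  rw [MvPolynomial.eval_eq', MvPolynomial.eval_eq', Finset.mul_sum]
  apply Finset.sum_congr rfl
  intro m hm
  have h1 : m.degree = e := by
    have h2 := h (MvPolynomial.mem_support_iff.1 hm)
    rw [← h2]
    exact congrFun (congrArg DFunLike.coe (Finsupp.degree_eq_weight_one (σ := Fin 3) (R := ℕ))) m
  rw [Finsupp.degree_eq_sum] at h1
  rw [← h1, Fin.sum_univ_three, Fin.prod_univ_three, Fin.prod_univ_three]
  simp only [Pi.smul_apply, smul_eq_mul]
  ring

/-- a form which vanishes at all points of the affine plane is zero -/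
theorem form_zero {e : ℕ} {Φ : MvPolynomial (Fin 3) ℂ} (h : Φ.IsHomogeneous e)
    (h0 : ∀ z, eval (pt z) Φ = 0) : Φ = 0 := by
  apply MvPolynomial.funext_set (fun i : Fin 3 => {x : ℂ | x ≠ 0})
  · intro i
    have : ({x : ℂ | x ≠ 0}) = ({0} : Set ℂ)ᶜ := by
      ext x
      simp
    rw [this]
    exact (Set.finite_singleton (0 : ℂ)).infinite_compl
  · intro x hx
    have h2 : x 2 ≠ 0 := hx 2 (Set.mem_univ _)
    have h3 : x = x 2 • pt ![x 0 / x 2, x 1 / x 2] := by
      funext i
      fin_cases i
      · simp [pt, mul_div_cancel₀ _ h2]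
      · simp [pt, mul_div_cancel₀ _ h2]
      · simp [pt]
    rw [h3, eval_smul h, h0]
    simp

theorem atk_ne_zero {s : ℕ} (k : Fin s) {e : ℕ} {Φ : MvPolynomial (Fin 3) ℂ}
    (h : Φ.IsHomogeneous e) (h0 : Φ ≠ 0) : atk k Φ ≠ 0 := by
  intro h1
  apply h0
  apply form_zero h
  intro z
  have := eval_atk k Φ (fun _ => z)
  rw [h1, map_zero] at this
  exact this.symm

/-- the data of a pencil -/
structure Pencil {ι : Type} (w : ι → Fin 2 → ℂ) (μ τ : ι → ℕ) (e g : ℕ)
    (P R T : MvPolynomial (Fin 3) ℂ) : Prop where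
  epos : 0 < e
  hP : P.IsHomogeneous e
  hR : R.IsHomogeneous e
  hT : T.IsHomogeneous g
  P0 : P ≠ 0
  R0 : R ≠ 0
  T0 : T ≠ 0
  rel : IsRelPrime P R
  sqT : Squarefree T
  relT : {c : ℂ | ¬ IsRelPrime (P + C c * R) T}.Finite
  μpos : ∀ i, 0 < μ i
  mP : ∀ i, mult P (pt (w i)) = μ i
  mR : ∀ i, (μ i : ℕ∞) ≤ mult R (pt (w i))
  mT : ∀ i, mult T (pt (w i)) = τ i

theorem relPrime_members {P R : MvPolynomial (Fin 3) ℂ} (h : IsRelPrime P R) {c c' : ℂ}
    (hc : c ≠ c') : IsRelPrime (P + C c * R) (P + C c' * R) := by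
  intro D h1 h2
  have h3 : D ∣ C (c - c') * R := by
    have := dvd_sub h1 h2
    have e1 : P + C c * R - (P + C c' * R) = C (c - c') * R := by
      rw [C_sub]
      ring
    rwa [e1] at this
  have h4 : D ∣ R := by
    have e2 : R = C ((c - c')⁻¹) * (C (c - c') * R) := by
      rw [← mul_assoc, ← C_mul, inv_mul_cancel₀ (sub_ne_zero.2 hc), C_1, one_mul]
    rw [e2]
    exact Dvd.dvd.mul_left h3 _
  have h5 : D ∣ P := by
    have := dvd_sub h1 (Dvd.dvd.mul_left h4 (C c))
    rwa [add_sub_cancel_right] at this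
  exact h h5 h4

theorem zero_of_mult {F : MvPolynomial (Fin 3) ℂ} {w : Fin 3 → ℂ} (h : mult F w ≠ 0) :
    eval w F = 0 := by
  by_contra h1
  exact h (mult_zero_of_ne h1)

/-- The general lemma: outside of a countable union of proper closed subsets. -/
theorem pencil_main (hA : S_MULTA) (hB : S_BERT) {ι : Type} [Fintype ι] {w : ι → Fin 2 → ℂ}
    {μ τ : ι → ℕ} {e g : ℕ} {P R T : MvPolynomial (Fin 3) ℂ} (hp : Pencil w μ τ e g P R T)
    (s s₁ n : ℕ) (hn : s₁ ≤ n) :
    ∃ S : Set (MvPolynomial (Fin s × Fin 2) ℂ), S.Countable ∧ 0 ∉ S ∧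
      ∀ q : Fin s → Fin 2 → ℂ,
        (∀ h ∈ S, eval (fun ij : Fin s × Fin 2 => q ij.1 ij.2) h ≠ 0) →
        Function.Injective q ∧ (∀ k i, q k ≠ w i) ∧
        ∃ F : MvPolynomial (Fin 3) ℂ, F.IsHomogeneous (e * n + g) ∧ Squarefree F ∧
          (∀ i, mult F (pt (w i)) = (n * μ i + τ i : ℕ)) ∧
          (∀ k : Fin s, mult F (pt (q k)) = (if k.val < s₁ then 1 else 0 : ℕ)) := by
  classical
  obtain ⟨⟨i₀, hJ⟩, hbad⟩ := hB e P R hp.epos hp.hP hp.hR hp.P0 hp.R0 hp.rel
  have hmul : ∀ i, {c : ℂ | mult (P + C c * R) (pt (w i)) ≠ μ i}.Finite := fun i =>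
    hA P R (pt (w i)) (μ i) (hp.mP i) (hp.mR i)
  -- the finite bad set
  set B : Set ℂ := {c : ℂ | ¬ Squarefree (P + C c * R)} ∪ {c : ℂ | ¬ IsRelPrime (P + C c * R) T}
    ∪ ⋃ i, {c : ℂ | mult (P + C c * R) (pt (w i)) ≠ μ i} with hBdef
  have hBfin : B.Finite := (hbad.union hp.relT).union (Set.finite_iUnion hmul)
  have hPc : ∀ c : ℂ, (P + C c * R).IsHomogeneous e := fun c => hp.hP.add (hp.hR.C_mul c)
  have hPc0 : ∀ c : ℂ, P + C c * R ≠ 0 := by
    intro c h
    have h1 : R ∣ P := by
      rw [eq_neg_of_add_eq_zero_left h]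
      exact (Dvd.dvd.mul_left dvd_rfl _).neg_right
    have h2 : IsUnit R := hp.rel h1 dvd_rfl
    obtain ⟨r, hr, hr2⟩ := MvPolynomial.isUnit_iff_eq_C_of_isReduced.1 h2
    have h3 : R.totalDegree = 0 := by
      rw [hr2]
      exact MvPolynomial.totalDegree_C _
    rw [hp.hR.totalDegree hp.R0] at h3
    exact absurd hp.epos (by omega)
  -- Jacobian
  set J := P * pderiv i₀ R - R * pderiv i₀ P with hJdef
  have hJh : J.IsHomogeneous (e + (e - 1)) :=
    (hp.hP.mul hp.hR.pderiv).sub (hp.hR.mul hp.hP.pderiv)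
  set S : Set (MvPolynomial (Fin s × Fin 2) ℂ) :=
    (Set.range fun k => atk k R) ∪ (Set.range fun k => atk k T) ∪ (Set.range fun k => atk k J) ∪
    ((fun x : (Fin s × Fin s) => atk x.1 P * atk x.2 R - atk x.2 P * atk x.1 R) ''
      {x | x.1 ≠ x.2}) ∪
    ((fun x : Fin s × ℂ => atk x.1 (P + C x.2 * R)) '' (Set.univ ×ˢ B)) with hS
  refine ⟨S, ?_, ?_, ?_⟩
  · refine Set.Countable.union (Set.Countable.union (Set.Countable.union (Set.Countable.union
      (Set.countable_range _) (Set.countable_range _)) (Set.countable_range _)) ?_) ?_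
    · exact (Set.to_countable _).image _
    · exact ((Set.to_countable _).prod hBfin.countable).image _
  · rintro ((((⟨k, hk⟩ | ⟨k, hk⟩) | ⟨k, hk⟩) | ⟨⟨k, l⟩, hkl, hk⟩) | ⟨⟨k, c⟩, hkc, hk⟩)
    · exact atk_ne_zero k hp.hR hp.R0 hk
    · exact atk_ne_zero k hp.hT hp.T0 hk
    · exact atk_ne_zero k hJh hJ hk
    · -- P and R are not proportional
      simp only at hk
      simp only [Set.mem_setOf_eq] at hkl
      obtain ⟨z, hz⟩ : ∃ z, eval (pt z) R ≠ 0 := by
        by_contra hcon
        push Not at hcon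
        exact hp.R0 (form_zero hp.hR hcon)
      have h1 : ∀ z', eval (pt z') P * eval (pt z) R - eval (pt z) P * eval (pt z') R = 0 := by
        intro z'
        have h2 := congrArg (eval (fun ij : Fin s × Fin 2 =>
          (if ij.1 = k then z' else z) ij.2)) hk
        rw [map_sub, map_mul, map_mul, map_zero,
          eval_atk k P (fun i => if i = k then z' else z),
          eval_atk l R (fun i => if i = k then z' else z),
          eval_atk l P (fun i => if i = k then z' else z),
          eval_atk k R (fun i => if i = k then z' else z), if_pos rfl, if_neg (Ne.symm hkl)] at h2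
        exact h2
      apply hPc0 (-(eval (pt z) P / eval (pt z) R))
      apply form_zero (hPc _)
      intro z'
      rw [map_add, map_mul, eval_C]
      have := h1 z'
      field_simp
      linear_combination this
    · exact atk_ne_zero k (hPc c) (hPc0 c) hk
  · intro q hq
    have qR : ∀ k, eval (pt (q k)) R ≠ 0 := by
      intro k
      rw [← eval_atk]
      exact hq _ (Or.inl (Or.inl (Or.inl (Or.inl ⟨k, rfl⟩))))
    have qT : ∀ k, eval (pt (q k)) T ≠ 0 := by
      intro k
      rw [← eval_atk]
      exact hq _ (Or.inl (Or.inl (Or.inl (Or.inr ⟨k, rfl⟩))))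
    have qJ : ∀ k, eval (pt (q k)) J ≠ 0 := by
      intro k
      rw [← eval_atk]
      exact hq _ (Or.inl (Or.inl (Or.inr ⟨k, rfl⟩)))
    have qsep : ∀ k l, k ≠ l → eval (pt (q k)) P * eval (pt (q l)) R
        - eval (pt (q l)) P * eval (pt (q k)) R ≠ 0 := by
      intro k l hkl
      have := hq _ (Or.inl (Or.inr ⟨(k, l), hkl, rfl⟩))
      simp only [map_sub, map_mul] at this
      rwa [eval_atk k P, eval_atk l R, eval_atk l P, eval_atk k R] at this
    have qB : ∀ k, ∀ c ∈ B, eval (pt (q k)) (P + C c * R) ≠ 0 := by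
      intro k c hc
      rw [← eval_atk]
      exact hq _ (Or.inr ⟨(k, c), ⟨Set.mem_univ _, hc⟩, rfl⟩)
    -- the parameters
    set γ : Fin s → ℂ := fun k => -(eval (pt (q k)) P / eval (pt (q k)) R) with hγ
    have hγ0 : ∀ k, eval (pt (q k)) (P + C (γ k) * R) = 0 := by
      intro k
      have := qR k
      rw [map_add, map_mul, eval_C, hγ]
      field_simp
      ring
    have hγc : ∀ k c, eval (pt (q k)) (P + C c * R) = (c - γ k) * eval (pt (q k)) R := by
      intro k c
      have := hγ0 k
      rw [map_add, map_mul, eval_C] at this ⊢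
      linear_combination this
    have hγinj : Function.Injective γ := by
      intro k l h
      by_contra hkl
      apply qsep k l hkl
      have h1 := qR k
      have h2 := qR l
      rw [hγ] at h
      simp only [neg_inj] at h
      rw [div_eq_div_iff h1 h2] at h
      linear_combination h
    have hγB : ∀ k, γ k ∉ B := fun k hk => qB k _ hk (hγ0 k)
    have hw : ∀ k i, q k ≠ w i := by
      intro k i h
      apply qR k
      rw [h]
      apply zero_of_mult
      intro h1
      have h2 := hp.mR i
      rw [h1] at h2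
      have h3 : μ i = 0 := by
        have := le_antisymm h2 (zero_le)
        exact_mod_cast this
      exact absurd (hp.μpos i) (by omega)
    have hqinj : Function.Injective q := by
      intro k l h
      apply hγinj
      rw [hγ]
      simp only [h]
    refine ⟨hqinj, hw, ?_⟩
    -- the further parameters
    have hfin2 : (B ∪ Set.range γ).Finite := hBfin.union (Set.finite_range γ)
    obtain ⟨K', hK'1, hK'2⟩ := hfin2.infinite_compl.exists_subset_card_eq
      (n - (Finset.univ.filter (fun k : Fin s => k.val < s₁)).card)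
    set K₁ : Finset ℂ := (Finset.univ.filter (fun k : Fin s => k.val < s₁)).image γ with hK₁
    have hcard1 : K₁.card = (Finset.univ.filter (fun k : Fin s => k.val < s₁)).card :=
      Finset.card_image_of_injective _ hγinj
    have hle : (Finset.univ.filter (fun k : Fin s => k.val < s₁)).card ≤ s₁ := by
      have h1 : (Finset.univ.filter (fun k : Fin s => k.val < s₁)).card
          ≤ (Finset.range s₁).card := by
        apply Finset.card_le_card_of_injOn (fun k => k.val)
        · intro k hk
          simpa using hk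
        · intro a _ b _ h
          exact Fin.ext h
      simpa using h1
    have hdisj : Disjoint K₁ K' := by
      rw [Finset.disjoint_left]
      intro c h1 h2
      rw [hK₁, Finset.mem_image] at h1
      obtain ⟨k, -, rfl⟩ := h1
      exact hK'1 h2 (Or.inr ⟨k, rfl⟩)
    set K := K₁ ∪ K' with hK
    have hcard : K.card = n := by
      rw [hK, Finset.card_union_of_disjoint hdisj, hcard1, hK'2]
      omega
    have hKB : ∀ c ∈ K, c ∉ B := by
      intro c hc
      rcases Finset.mem_union.1 hc with h | h
      · rw [hK₁, Finset.mem_image] at h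
        obtain ⟨k, -, rfl⟩ := h
        exact hγB k
      · exact fun hb => hK'1 h (Or.inl hb)
    have hγK : ∀ k : Fin s, γ k ∈ K ↔ k.val < s₁ := by
      intro k
      constructor
      · intro h
        rcases Finset.mem_union.1 h with h | h
        · rw [hK₁, Finset.mem_image] at h
          obtain ⟨l, hl, hl2⟩ := h
          rw [← hγinj hl2]
          simpa using hl
        · exact absurd (Or.inr ⟨k, rfl⟩) (hK'1 h)
      · intro h
        apply Finset.mem_union_left
        rw [hK₁]
        exact Finset.mem_image_of_mem _ (by simpa using h)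
    have hBsf : ∀ c, c ∉ B → Squarefree (P + C c * R) := by
      intro c hc
      by_contra h
      exact hc (Or.inl (Or.inl h))
    have hBrel : ∀ c, c ∉ B → IsRelPrime (P + C c * R) T := by
      intro c hc
      by_contra h
      exact hc (Or.inl (Or.inr h))
    have hBmul : ∀ c, c ∉ B → ∀ i, mult (P + C c * R) (pt (w i)) = μ i := by
      intro c hc i
      by_contra h
      exact hc (Or.inr (Set.mem_iUnion.2 ⟨i, h⟩))
    have hmultmul : ∀ (F₁ F₂ : MvPolynomial (Fin 3) ℂ) (v : Fin 3 → ℂ),
        mult (F₁ * F₂) v = mult F₁ v + mult F₂ v := by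
      intro F₁ F₂ v
      have := mult_prod (Finset.univ : Finset (Fin 2)) ![F₁, F₂] v
      simpa [Fin.prod_univ_two, Fin.sum_univ_two] using this
    refine ⟨(∏ c ∈ K, (P + C c * R)) * T, ?_, ?_, ?_, ?_⟩
    · have h1 := IsHomogeneous.prod K (fun c => P + C c * R) (fun _ => e) (fun c _ => hPc c)
      simp only [Finset.sum_const, hcard, smul_eq_mul] at h1
      rw [mul_comm] at h1
      exact h1.mul hp.hT
    · rw [squarefree_mul_iff]
      refine ⟨?_, ?_, hp.sqT⟩
      · apply IsRelPrime.prod_left
        intro c hc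
        exact hBrel c (hKB c hc)
      · apply squarefree_prod
        · intro c hc
          exact hBsf c (hKB c hc)
        · intro c _ c' _ hcc
          exact relPrime_members hp.rel hcc
    · intro i
      rw [hmultmul, mult_prod, Finset.sum_congr rfl (fun c hc => hBmul c (hKB c hc) i), hp.mT i]
      simp [hcard]
    · intro k
      rw [hmultmul, mult_prod, mult_zero_of_ne (qT k), add_zero]
      have hz : ∀ c ∈ K, c ≠ γ k → mult (P + C c * R) (pt (q k)) = 0 := by
        intro c _ hc
        apply mult_zero_of_ne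
        rw [hγc]
        exact mul_ne_zero (sub_ne_zero.2 hc) (qR k)
      by_cases hk : k.val < s₁
      · rw [if_pos hk, Finset.sum_eq_single_of_mem (γ k) ((hγK k).2 hk) hz]
        have : mult (P + C (γ k) * R) (pt (q k)) = 1 := by
          apply mult_one_of (hγ0 k) i₀
          rw [map_add, pderiv_C_mul, map_add, map_mul, eval_C]
          intro h
          apply qJ k
          rw [hJdef, map_sub, map_mul, map_mul]
          have h5 := hγ0 k
          rw [map_add, map_mul, eval_C] at h5
          linear_combination (eval (pt (q k)) (pderiv i₀ R)) * h5 - (eval (pt (q k)) R) * h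
        rw [this]
        simp
      · rw [if_neg hk, Finset.sum_eq_zero]
        · simp
        · intro c hc
          apply hz c hc
          intro h
          apply hk
          rw [← hγK, ← h]
          exact hc

end Pool.Agent.Y135.BQ
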