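import Mathlib
import Pool.Agent.Y135.BQp
import Pool.Agent.Y419.TEN.Mult
import Pool.Agent.Y419.TEN.Six
import Pool.Agent.Y153.TEN.BERT

/-!
# Ten points: the two pencils and the assembly
-/

open MvPolynomial Filter Topology
open H4RC

namespace Pool.Agent.Y135.BQ

theorem eval_cuT (a : T3) (z : Fin 2 → ℂ) : eval (pt z) (cuT a) = evT a z := eval_cub _ _ _ _
theorem eval_cuT_x (a : T3) (z : Fin 2 → ℂ) : eval (pt z) (pderiv 0 (cuT a)) = dxT a z :=
  pderiv_cub_zero _ _ _ _
theorem eval_cuT_y (a : T3) (z : Fin 2 → ℂ) : eval (pt z) (pderiv 1 (cuT a)) = dyT a z :=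
  pderiv_cub_one _ _ _ _

theorem mult_mul (F₁ F₂ : MvPolynomial (Fin 3) ℂ) (v : Fin 3 → ℂ) :
    mult (F₁ * F₂) v = mult F₁ v + mult F₂ v := by
  have := mult_prod (Finset.univ : Finset (Fin 2)) ![F₁, F₂] v
  simpa [Fin.prod_univ_two, Fin.sum_univ_two] using this

theorem mult_pow (F : MvPolynomial (Fin 3) ℂ) (v : Fin 3 → ℂ) (n : ℕ) :
    mult (F ^ n) v = n * mult F v := by
  have := mult_prod (Finset.range n) (fun _ => F) v
  simpa using this

theorem one_le_mult {F : MvPolynomial (Fin 3) ℂ} {v : Fin 3 → ℂ} (h : eval v F = 0) :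
    1 ≤ mult F v := by
  unfold mult
  rw [MvPowerSeries.one_le_order_iff_constCoeff_eq_zero]
  have h1 := coeff_zero_shift F v
  rw [h] at h1
  exact h1

theorem relPrime_add_left {P R G : MvPolynomial (Fin 3) ℂ} (h : IsRelPrime P G) (c : ℂ)
    (hG : G ∣ R) : IsRelPrime (P + C c * R) G := by
  intro D h1 h2
  have h3 : D ∣ C c * R := Dvd.dvd.mul_left (h2.trans hG) _
  have h4 : D ∣ P := (dvd_add_left h3).1 h1
  exact h h4 h2

theorem relPrime_add_right {P R G : MvPolynomial (Fin 3) ℂ} (h : IsRelPrime R G) {c : ℂ}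
    (hc : c ≠ 0) (hG : G ∣ P) : IsRelPrime (P + C c * R) G := by
  intro D h1 h2
  have h3 : D ∣ C c * R := (dvd_add_right (h2.trans hG)).1 h1
  have h4 : D ∣ R := by
    have e2 : R = C c⁻¹ * (C c * R) := by
      rw [← mul_assoc, ← C_mul, inv_mul_cancel₀ hc, C_1, one_mul]
    rw [e2]
    exact Dvd.dvd.mul_left h3 _
  exact h h4 h2

/-- the base points -/
def bp (p : Fin 8 → Fin 2 → ℂ) (x : Fin 2 → ℂ) (o : Option (Fin 8)) : Fin 2 → ℂ := o.elim x p

/-- the multiplicities of the fixed part of the sextic pencil -/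
def τ6 (ε : ℕ) (o : Option (Fin 8)) : ℕ :=
  o.elim (1 + ε) (![2 + ε, 1 + ε, 1 + ε, 1 + ε, 1 + ε, 1 + ε, 1 + ε, ε])

/-- The pencil of sextics generated by `C²` and `G H`. -/
theorem sextic {p : Fin 8 → Fin 2 → ℂ} {x : Fin 2 → ℂ} {G H C' : T3} (hg : Gd p x G H C')
    {ε : ℕ} (hε : ε ≤ 1) :
    Pencil (bp p x) (fun _ => 2) (τ6 ε) 6 (3 + 3 * ε) (cuT C' ^ 2) (cuT G * cuT H)
      (cuT G * cuT C' ^ ε) := by
  -- values
  have vG : ∀ z, eval (pt z) (cuT G) = evT G z := eval_cuT G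
  have vH : ∀ z, eval (pt z) (cuT H) = evT H z := eval_cuT H
  have vC : ∀ z, eval (pt z) (cuT C') = evT C' z := eval_cuT C'
  -- multiplicities of C'
  have mC : ∀ i, mult (cuT C') (pt (p i)) = 1 := fun i =>
    mult_one_of (by rw [vC]; exact hg.Cp i) 0 (by rw [eval_cuT_x]; exact hg.Cpx i)
  have mCx : mult (cuT C') (pt x) = 1 :=
    mult_one_of (by rw [vC]; exact hg.Cx) 0 (by rw [eval_cuT_x]; exact hg.Cxx)
  have mG0 : mult (cuT G) (pt (p 0)) = 2 :=
    (Pool.Agent.Y419.TEN.main_MULTB G (p 0) hg.G0 hg.G0x hg.G0y).2 hg.G0xy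
  have gG : ∀ i, i ≠ 0 → i ≠ 7 → ¬ (dxT G (p i) = 0 ∧ dyT G (p i) = 0) := by
    rintro i h0 h7 ⟨h1, h2⟩
    apply hg.JG i h0 h7
    rw [h1, h2]
    ring
  have gH : ∀ i, i ≠ 0 → i ≠ 7 → ¬ (dxT H (p i) = 0 ∧ dyT H (p i) = 0) := by
    rintro i h0 h7 ⟨h1, h2⟩
    apply hg.JH i h0 h7
    rw [h1, h2]
    ring
  have mG : ∀ i, i ≠ 0 → i ≠ 7 → mult (cuT G) (pt (p i)) = 1 := by
    intro i h0 h7
    apply mult_one_grad
    · rw [vG]
      exact hg.Gp i h0 h7
    · rw [eval_cuT_x, eval_cuT_y]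
      exact gG i h0 h7
  have mG7 : mult (cuT G) (pt (p 7)) = 0 := mult_zero_of_ne (by rw [vG]; exact hg.G7)
  have mGx : mult (cuT G) (pt x) = 1 :=
    mult_one_of (by rw [vG]; exact hg.Gx) 0 (by rw [eval_cuT_x]; exact hg.Gxx)
  have mH7 : 2 ≤ mult (cuT H) (pt (p 7)) :=
    (Pool.Agent.Y419.TEN.main_MULTB H (p 7) hg.H7 hg.H7x hg.H7y).1
  have mH : ∀ i, i ≠ 0 → i ≠ 7 → mult (cuT H) (pt (p i)) = 1 := by
    intro i h0 h7
    apply mult_one_grad
    · rw [vH]
      exact hg.Hp i h0 h7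
    · rw [eval_cuT_x, eval_cuT_y]
      exact gH i h0 h7
  have mHx : 1 ≤ mult (cuT H) (pt x) := one_le_mult (by rw [vH]; exact hg.Hx)
  -- nonzero
  have nz : ∀ {Φ : MvPolynomial (Fin 3) ℂ} {z : Fin 2 → ℂ}, eval (pt z) Φ ≠ 0 → Φ ≠ 0 := by
    intro Φ z h h0
    apply h
    rw [h0, map_zero]
  have nG : cuT G ≠ 0 := nz (z := p 7) (by rw [vG]; exact hg.G7)
  have nH : cuT H ≠ 0 := nz (z := p 0) (by rw [vH]; exact hg.H0)
  have nC : cuT C' ≠ 0 := by
    intro h
    have := hg.Cpx 0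
    rw [← eval_cuT_x, h, map_zero, map_zero] at this
    exact this rfl
  have nCv : ¬ ∀ z, eval (pt z) (cuT C') = 0 := fun h => nC (form_zero (cub_homogeneous _ _ _) h)
  have dC : (cuT C').totalDegree ≤ 3 := (cub_homogeneous _ _ _).totalDegree_le
  have dG : (cuT G).totalDegree ≤ 3 := (cub_homogeneous _ _ _).totalDegree_le
  -- relative primality
  have rCG : IsRelPrime (cuT C') (cuT G) := by
    apply Pool.Agent.Y419.TEN.main_RP _ hg.nc1 _ _ dC nCv
    · intro i
      rw [vC]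
      fin_cases i <;> exact hg.Cp _
    · intro i
      simp only [eval_cuT_x, eval_cuT_y, vG]
      fin_cases i
      · exact Or.inr (hg.JG 1 (by decide) (by decide))
      · exact Or.inr (hg.JG 2 (by decide) (by decide))
      · exact Or.inr (hg.JG 3 (by decide) (by decide))
      · exact Or.inr (hg.JG 4 (by decide) (by decide))
      · exact Or.inr (hg.JG 5 (by decide) (by decide))
      · exact Or.inl hg.G7
  have rCH : IsRelPrime (cuT C') (cuT H) := by
    apply Pool.Agent.Y419.TEN.main_RP _ hg.nc2 _ _ dC nCv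
    · intro i
      rw [vC]
      fin_cases i <;> exact hg.Cp _
    · intro i
      simp only [eval_cuT_x, eval_cuT_y, vH]
      fin_cases i
      · exact Or.inl hg.H0
      · exact Or.inr (hg.JH 1 (by decide) (by decide))
      · exact Or.inr (hg.JH 2 (by decide) (by decide))
      · exact Or.inr (hg.JH 3 (by decide) (by decide))
      · exact Or.inr (hg.JH 4 (by decide) (by decide))
      · exact Or.inr (hg.JH 5 (by decide) (by decide))
  have sC : Squarefree (cuT C') := by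
    apply Pool.Agent.Y419.TEN.main_SF _ hg.nc2 _ dC nCv
    intro i
    rw [vC, eval_cuT_x]
    fin_cases i <;> exact ⟨hg.Cp _, hg.Cpx _⟩
  have sG : Squarefree (cuT G) := by
    apply Pool.Agent.Y419.TEN.main_SG _ hg.nc1 _ dG
    · intro i hi
      rw [vG, eval_cuT_x, eval_cuT_y]
      fin_cases i
      · exact ⟨hg.Gp 1 (by decide) (by decide), gG 1 (by decide) (by decide)⟩
      · exact ⟨hg.Gp 2 (by decide) (by decide), gG 2 (by decide) (by decide)⟩
      · exact ⟨hg.Gp 3 (by decide) (by decide), gG 3 (by decide) (by decide)⟩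
      · exact ⟨hg.Gp 4 (by decide) (by decide), gG 4 (by decide) (by decide)⟩
      · exact ⟨hg.Gp 5 (by decide) (by decide), gG 5 (by decide) (by decide)⟩
      · exact absurd rfl hi
    · rw [vG]
      exact hg.G7
  have rPG : IsRelPrime (cuT C' ^ 2) (cuT G) := IsRelPrime.pow_left rCG
  have rRC : IsRelPrime (cuT G * cuT H) (cuT C') := (IsRelPrime.mul_right rCG rCH).symm
  refine ⟨by norm_num, ?_, ?_, ?_, pow_ne_zero 2 nC, mul_ne_zero nG nH,
    mul_ne_zero nG (pow_ne_zero _ nC), ?_, ?_, ?_, fun _ => by norm_num, ?_, ?_, ?_⟩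
  · exact (cub_homogeneous C'.1 C'.2.1 C'.2.2).pow 2
  · exact (cub_homogeneous G.1 G.2.1 G.2.2).mul (cub_homogeneous H.1 H.2.1 H.2.2)
  · exact (cub_homogeneous G.1 G.2.1 G.2.2).mul ((cub_homogeneous C'.1 C'.2.1 C'.2.2).pow ε)
  · exact IsRelPrime.pow_left (IsRelPrime.mul_right rCG rCH)
  · interval_cases ε
    · simpa using sG
    · rw [pow_one, squarefree_mul_iff]
      exact ⟨rCG.symm, sG, sC⟩
  · apply (Set.finite_singleton (0 : ℂ)).subset
    intro c hc
    by_contra hc0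
    apply hc
    apply IsRelPrime.mul_right
    · exact relPrime_add_left rPG c (dvd_mul_right _ _)
    · exact IsRelPrime.pow_right (relPrime_add_right rRC hc0 (dvd_pow_self _ (by norm_num)))
  · intro o
    cases o with
    | none =>
      change mult (cuT C' ^ 2) (pt x) = _
      rw [mult_pow, mCx]
      norm_num
    | some i =>
      change mult (cuT C' ^ 2) (pt (p i)) = _
      rw [mult_pow, mC]
      norm_num
  · intro o
    cases o with
    | none =>
      change ((2 : ℕ) : ℕ∞) ≤ mult (cuT G * cuT H) (pt x)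
      rw [mult_mul, mGx]
      calc ((2 : ℕ) : ℕ∞) = 1 + 1 := by norm_num
        _ ≤ _ := add_le_add le_rfl mHx
    | some i =>
      change ((2 : ℕ) : ℕ∞) ≤ mult (cuT G * cuT H) (pt (p i))
      rw [mult_mul]
      by_cases h0 : i = 0
      · subst h0
        rw [mG0]
        exact le_self_add
      by_cases h7 : i = 7
      · subst h7
        exact le_trans mH7 le_add_self
      · rw [mG i h0 h7, mH i h0 h7]
        norm_num
  · intro o
    cases o with
    | none =>
      change mult (cuT G * cuT C' ^ ε) (pt x) = ((1 + ε : ℕ) : ℕ∞)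
      rw [mult_mul, mult_pow, mGx, mCx]
      push_cast
      ring
    | some i =>
      change mult (cuT G * cuT C' ^ ε) (pt (p i)) =
        (((![2 + ε, 1 + ε, 1 + ε, 1 + ε, 1 + ε, 1 + ε, 1 + ε, ε] : Fin 8 → ℕ) i : ℕ) : ℕ∞)
      rw [mult_mul, mult_pow, mC]
      fin_cases i
      · change mult (cuT G) (pt (p 0)) + _ = ((2 + ε : ℕ) : ℕ∞)
        rw [mG0]
        push_cast
        ring
      · change mult (cuT G) (pt (p 1)) + _ = ((1 + ε : ℕ) : ℕ∞)
        rw [mG 1 (by decide) (by decide)]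
        push_cast
        ring
      · change mult (cuT G) (pt (p 2)) + _ = ((1 + ε : ℕ) : ℕ∞)
        rw [mG 2 (by decide) (by decide)]
        push_cast
        ring
      · change mult (cuT G) (pt (p 3)) + _ = ((1 + ε : ℕ) : ℕ∞)
        rw [mG 3 (by decide) (by decide)]
        push_cast
        ring
      · change mult (cuT G) (pt (p 4)) + _ = ((1 + ε : ℕ) : ℕ∞)
        rw [mG 4 (by decide) (by decide)]
        push_cast
        ring
      · change mult (cuT G) (pt (p 5)) + _ = ((1 + ε : ℕ) : ℕ∞)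
        rw [mG 5 (by decide) (by decide)]
        push_cast
        ring
      · change mult (cuT G) (pt (p 6)) + _ = ((1 + ε : ℕ) : ℕ∞)
        rw [mG 6 (by decide) (by decide)]
        push_cast
        ring
      · change mult (cuT G) (pt (p 7)) + _ = ((ε : ℕ) : ℕ∞)
        rw [mG7]
        simp

/-- The pencil of cubics through eight points. -/
theorem cubic {p : Fin 8 → Fin 2 → ℂ} {O : Fin 2 → ℂ} {c e : Fin 8 → ℂ} {a : Fin 0 → Fin 2 → ℂ}
    (hG : Good p O c e a) (hE : Eqs p O c e) :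
    Pencil (bp p O) (fun _ => 1) (fun _ => 0) 3 0 (cub 1 0 c) (cub 0 1 e) 1 := by
  have hne1 : ¬ ∀ z, eval (pt z) (cub 1 0 c) = 0 := by
    intro h
    exact ev_ne (u := 1) (v := 0) (c := c) (Or.inl one_ne_zero) (fun z => by
      rw [← eval_cub]; exact h z)
  have hne2 : ¬ ∀ z, eval (pt z) (cub 0 1 e) = 0 := by
    intro h
    exact ev_ne (u := 0) (v := 1) (c := e) (Or.inr one_ne_zero) (fun z => by
      rw [← eval_cub]; exact h z)
  refine ⟨by norm_num, cub_homogeneous _ _ _, cub_homogeneous _ _ _, isHomogeneous_one _ _, ?_, ?_,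
    one_ne_zero, ?_, squarefree_one, ?_, fun _ => by norm_num, ?_, ?_, ?_⟩
  · intro h
    exact hne1 (fun z => by rw [h, map_zero])
  · intro h
    exact hne2 (fun z => by rw [h, map_zero])
  · apply relPrime_of hG.inj (cub_homogeneous _ _ _).totalDegree_le hne1
    · intro i
      rw [eval_cub]
      exact hE.fp i
    · intro i
      rw [pderiv_cub_zero, pderiv_cub_one, pderiv_cub_zero, pderiv_cub_one]
      exact hG.Jp i
  · have : {c_1 : ℂ | ¬ IsRelPrime (cub 1 0 c + C c_1 * cub 0 1 e) 1} = ∅ := by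
      rw [Set.eq_empty_iff_forall_notMem]
      intro y hy
      exact hy isRelPrime_one_right
    rw [this]
    exact Set.finite_empty
  · intro o
    cases o with
    | none =>
      change mult (cub 1 0 c) (pt O) = _
      rw [mult_one_grad (by rw [eval_cub]; exact hE.fO)]
      · norm_num
      · rw [pderiv_cub_zero, pderiv_cub_one]
        rintro ⟨h1, h2⟩
        apply hG.JO
        rw [h1, h2]
        ring
    | some i =>
      change mult (cub 1 0 c) (pt (p i)) = _
      rw [mult_one_grad (by rw [eval_cub]; exact hE.fp i)]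
      · norm_num
      · rw [pderiv_cub_zero, pderiv_cub_one]
        rintro ⟨h1, h2⟩
        apply hG.Jp i
        rw [h1, h2]
        ring
  · intro o
    cases o with
    | none =>
      change ((1 : ℕ) : ℕ∞) ≤ mult (cub 0 1 e) (pt O)
      rw [Nat.cast_one]
      exact one_le_mult (by rw [eval_cub]; exact hE.gO)
    | some i =>
      change ((1 : ℕ) : ℕ∞) ≤ mult (cub 0 1 e) (pt (p i))
      rw [Nat.cast_one]
      exact one_le_mult (by rw [eval_cub]; exact hE.gp i)
  · intro o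
    rw [mult_zero_of_ne]
    · simp
    · simp

/-- the good configurations for the pencil of cubics -/
theorem cubic_open : ∀ᶠ p : Fin 8 → Fin 2 → ℂ in 𝓝 H4RC.p0, ∃ (O : Fin 2 → ℂ) (c e : Fin 8 → ℂ)
    (a : Fin 0 → Fin 2 → ℂ), Good p O c e a ∧ Eqs p O c e := by
  obtain ⟨V, hV, A, hA, hVA⟩ := mem_nhds_prod_iff.1 (good_eventually 0)
  have h1 : H4RC.Psi '' V ∈ 𝓝 (H4RC.Psi H4RC.b0) := by
    rw [← H4RC.map_nhds_Psi]
    exact Filter.image_mem_map hV
  rw [H4RC.Psi_b0] at h1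
  have hι : Continuous (fun p : Fin 8 → Fin 2 → ℂ => ((p, 0, 0, 0) : E8)) := by fun_prop
  have h2 := hι.continuousAt.preimage_mem_nhds h1
  filter_upwards [h2] with p hp
  obtain ⟨b, hb, hbe⟩ := hp
  have hgood : Good b.1 b.2.1 b.2.2.1 b.2.2.2 (a0 0) :=
    hVA (Set.mk_mem_prod hb (mem_of_mem_nhds hA))
  have e1 : b.1 = p := congrArg Prod.fst hbe
  have e2 := congrArg (fun x : E8 => x.2.1) hbe
  have e3 := congrArg (fun x : E8 => x.2.2.1) hbe
  have e4 := congrArg (fun x : E8 => x.2.2.2) hbe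
  have hE : Eqs b.1 b.2.1 b.2.2.1 b.2.2.2 := by
    refine ⟨fun i => congrFun e3 i, fun i => congrFun e4 i, ?_, ?_⟩
    · exact congrFun e2 0
    · exact congrFun e2 1
  rw [e1] at hgood hE
  exact ⟨_, _, _, _, hgood, hE⟩

/-- Avoidance in two steps. -/
theorem avoid2 {s : ℕ} {P0 : Fin 8 → Fin 2 → ℂ}
    {Go : (Fin 8 → Fin 2 → ℂ) → (Fin s → Fin 2 → ℂ) → Prop}
    (h : ∀ᶠ p in 𝓝 P0, ∃ S' : Set (MvPolynomial (Fin s × Fin 2) ℂ), S'.Countable ∧ 0 ∉ S' ∧
      ∀ q : Fin s → Fin 2 → ℂ,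
        (∀ h ∈ S', eval (fun ij : Fin s × Fin 2 => q ij.1 ij.2) h ≠ 0) → Go p q)
    (S : Set (MvPolynomial (Fin (8 + s) × Fin 2) ℂ)) (hS : S.Countable) (h0 : 0 ∉ S) :
    ∃ P : Fin (8 + s) → Fin 2 → ℂ,
      (∀ g ∈ S, eval (fun ij : Fin (8 + s) × Fin 2 => P ij.1 ij.2) g ≠ 0) ∧
      Go (fun i => P (Fin.castAdd s i)) (fun k => P (Fin.natAdd 8 k)) := by
  classical
  have c1 : Continuous (fun P : Fin (8 + s) → Fin 2 → ℂ => fun i : Fin 8 => P (Fin.castAdd s i)) := by
    fun_prop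
  obtain ⟨P00, hP00⟩ : ∃ P00 : Fin (8 + s) → Fin 2 → ℂ,
    P00 = Fin.addCases P0 (fun _ => 0) := ⟨_, rfl⟩
  have k1 : (fun i : Fin 8 => P00 (Fin.castAdd s i)) = P0 := by
    funext i
    rw [hP00]
    simp
  have n1 := c1.tendsto P00
  change Tendsto _ _ (𝓝 (fun i : Fin 8 => P00 (Fin.castAdd s i))) at n1
  rw [k1] at n1
  obtain ⟨Pa, hPa1, S', hS'c, hS'0, hS'⟩ := avoid (n1.eventually h) S hS h0
  set p : Fin 8 → Fin 2 → ℂ := fun i => Pa (Fin.castAdd s i) with hp
  -- specialise the polynomials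
  let σ : MvPolynomial (Fin (8 + s) × Fin 2) ℂ → MvPolynomial (Fin s × Fin 2) ℂ := fun g =>
    aeval (fun ij : Fin (8 + s) × Fin 2 =>
      (Fin.addCases (fun i => (C (p i ij.2) : MvPolynomial (Fin s × Fin 2) ℂ))
        (fun k => X (k, ij.2)) ij.1)) g
  have hσ : ∀ (g : MvPolynomial (Fin (8 + s) × Fin 2) ℂ) (q : Fin s → Fin 2 → ℂ),
      eval (fun ij : Fin s × Fin 2 => q ij.1 ij.2) (σ g)
        = eval (fun ij : Fin (8 + s) × Fin 2 => (Fin.addCases p q ij.1 : Fin 2 → ℂ) ij.2) g := by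
    intro g q
    have hcomp : ((eval (fun ij : Fin s × Fin 2 => q ij.1 ij.2)).comp
      (aeval (fun ij : Fin (8 + s) × Fin 2 =>
      (Fin.addCases (fun i => (C (p i ij.2) : MvPolynomial (Fin s × Fin 2) ℂ))
        (fun k => X (k, ij.2)) ij.1))).toRingHom)
      = eval (fun ij : Fin (8 + s) × Fin 2 => (Fin.addCases p q ij.1 : Fin 2 → ℂ) ij.2) := by
      apply MvPolynomial.ringHom_ext
      · intro r
        simp
      · rintro ⟨i, j⟩
        refine Fin.addCases (fun i => ?_) (fun k => ?_) i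
        · simp
        · simp
    exact congrArg (fun φ => φ g) hcomp
  have hPa : (fun ij : Fin (8 + s) × Fin 2 =>
      (Fin.addCases p (fun k => Pa (Fin.natAdd 8 k)) ij.1 : Fin 2 → ℂ) ij.2)
      = fun ij => Pa ij.1 ij.2 := by
    funext ⟨i, j⟩
    refine Fin.addCases (fun i => ?_) (fun k => ?_) i
    · simp [hp]
    · simp
  obtain ⟨q, hq, -⟩ := avoid (r := s) (P0 := 0) (Q := fun _ => True)
    (Filter.Eventually.of_forall fun _ => trivial) (σ '' S ∪ S') ((hS.image _).union hS'c) (by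
      rintro (⟨g, hg, hg0⟩ | h1)
      · apply hPa1 g hg
        have := hσ g (fun k => Pa (Fin.natAdd 8 k))
        rw [hg0, map_zero] at this
        rw [hPa] at this
        exact this.symm
      · exact hS'0 h1)
  refine ⟨Fin.addCases p q, ?_, ?_⟩
  · intro g hg
    rw [← hσ]
    exact hq _ (Or.inl ⟨g, hg, rfl⟩)
  · have := hS' q (fun g hg => hq g (Or.inr hg))
    simpa using this

end Pool.Agent.Y135.BQ
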