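import Mathlib
import Pool.Agent.Y135.BQf
import Pool.Agent.Y914.TEN.Open

/-!
# Ten points: the two families of classes
-/

open MvPolynomial Filter Topology
open H4RC

namespace Pool.Agent.Y135.BQ

theorem sum_ones (s s₁ : ℕ) (h : s₁ ≤ s) :
    ∑ k : Fin s, ((((if k.val < s₁ then 1 else 0) + 1).choose 2 : ℕ) : ℤ) = s₁ := by
  obtain ⟨u, rfl⟩ := Nat.exists_eq_add_of_le h
  rw [Fin.sum_univ_add]
  have h1 : ∀ i : Fin s₁,
      ((((if (Fin.castAdd u i).val < s₁ then 1 else 0) + 1).choose 2 : ℕ) : ℤ) = 1 := by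
    intro i
    simp
  have h2 : ∀ i : Fin u,
      ((((if (Fin.natAdd s₁ i).val < s₁ then 1 else 0) + 1).choose 2 : ℕ) : ℤ) = 0 := by
    intro i
    simp
  rw [Finset.sum_congr rfl (fun i _ => h1 i), Finset.sum_congr rfl (fun i _ => h2 i)]
  simp

/-- Assembly: a family of pencils over a neighbourhood gives the conclusion. -/
theorem assemble {P0 : Fin 8 → Fin 2 → ℂ} {μ τ : Option (Fin 8) → ℕ} {e g : ℕ} (s s₁ n t d : ℕ)
    (m : Fin 8 → ℕ) (hn : s₁ ≤ n) (hd : d = e * n + g) (hm : ∀ i, m i = n * μ (some i) + τ (some i))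
    (ht : t = n * μ none + τ none)
    (h : ∀ᶠ p in 𝓝 P0, Function.Injective p ∧ ∃ (x : Fin 2 → ℂ) (P R T : MvPolynomial (Fin 3) ℂ),
      (∀ i, x ≠ p i) ∧ Pencil (bp p x) μ τ e g P R T)
    (S : Set (MvPolynomial (Fin (8 + s) × Fin 2) ℂ)) (hS : S.Countable) (h0 : 0 ∉ S) :
    ∃ p : Fin (8 + s) → Fin 2 → ℂ,
      (∀ g ∈ S, eval (fun ij : Fin (8 + s) × Fin 2 => p ij.1 ij.2) g ≠ 0) ∧
      Function.Injective p ∧
      HasReducedCurve (8 + s) d t (Fin.addCases m (fun k => if k.val < s₁ then 1 else 0)) p := by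
  obtain ⟨P, hP, hinj, hq, x, hx, hqx, hqi, F, hF1, hF2, hF3, hF4⟩ :=
    avoid2 (s := s) (P0 := P0)
    (Go := fun p q => Function.Injective p ∧ Function.Injective q ∧ ∃ x : Fin 2 → ℂ,
      (∀ i, x ≠ p i) ∧ (∀ k, q k ≠ x) ∧ (∀ k i, q k ≠ p i) ∧
      ∃ F : MvPolynomial (Fin 3) ℂ, F.IsHomogeneous (e * n + g) ∧ Squarefree F ∧
          (∀ i, mult F (pt (bp p x i)) = (n * μ i + τ i : ℕ)) ∧
          (∀ k : Fin s, mult F (pt (q k)) = (if k.val < s₁ then 1 else 0 : ℕ)))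
    (by
      filter_upwards [h] with p hp
      obtain ⟨hinj, x, Pp, R, T, hx, hpen⟩ := hp
      obtain ⟨S', h1, h2, h3⟩ := pencil_main Pool.Agent.Y419.TEN.main_MULTA
        Pool.Agent.Y153.TEN.main_BERT hpen s s₁ n hn
      refine ⟨S', h1, h2, fun q hq => ?_⟩
      obtain ⟨h4, h5, F, h6⟩ := h3 q hq
      exact ⟨hinj, h4, x, hx, fun k => h5 k none, fun k i => h5 k (some i), F, h6⟩) S hS h0
  refine ⟨P, hP, ?_, F, ?_, hF2, ?_, x, ?_, ?_⟩
  · intro a b
    refine Fin.addCases (fun i => ?_) (fun j => ?_) a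
    · refine Fin.addCases (fun i' => ?_) (fun j' => ?_) b
      · intro h
        rw [hinj h]
      · intro h
        exact absurd h.symm (hqi j' i)
    · refine Fin.addCases (fun i' => ?_) (fun j' => ?_) b
      · intro h
        exact absurd h (hqi j i')
      · intro h
        rw [hq h]
  · rw [hd]
    exact hF1
  · intro a
    refine Fin.addCases (fun i => ?_) (fun j => ?_) a
    · have := hF3 (some i)
      beta_reduce
      rw [Fin.addCases_left, hm]
      exact this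
    · beta_reduce
      rw [Fin.addCases_right]
      exact hF4 j
  · intro a
    refine Fin.addCases (fun i => ?_) (fun j => ?_) a
    · exact hx i
    · exact fun h => hqx j h.symm
  · rw [ht]
    exact hF3 none

/-- The class `3t; (t+1, t^6, t-1, 1, 1, 0, …)`. -/
theorem ten (t s : ℕ) (ht : 5 ≤ t) (S : Set (MvPolynomial (Fin (8 + s) × Fin 2) ℂ))
    (hS : S.Countable) (h0 : 0 ∉ S) :
    ∃ p : Fin (8 + s) → Fin 2 → ℂ,
      (∀ g ∈ S, eval (fun ij : Fin (8 + s) × Fin 2 => p ij.1 ij.2) g ≠ 0) ∧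
      Function.Injective p ∧
      HasReducedCurve (8 + s) (3 * t) t
        (Fin.addCases (![t + 1, t, t, t, t, t, t, t - 1] : Fin 8 → ℕ)
          (fun k => if k.val < 2 then 1 else 0)) p := by
  apply assemble (P0 := P0) (μ := fun _ => 2) (τ := τ6 ((t - 1) % 2)) (e := 6)
    (g := 3 + 3 * ((t - 1) % 2)) s 2 ((t - 1) / 2) t (3 * t) _ (by omega) (by omega) ?_ ?_ ?_
    S hS h0
  · intro i
    fin_cases i <;> simp [τ6] <;> omega
  · simp only [τ6, Option.elim_none]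
    omega
  · filter_upwards [Pool.Agent.Y914.TEN.main_OPEN] with p hp
    obtain ⟨x, G, H, C', hg⟩ := hp
    refine ⟨?_, x, _, _, _, hg.ne, sextic hg (by omega)⟩
    intro i j h
    by_contra hij
    exact hg.inj i j hij h

/-- The class `3t; (t^8, 1, 1, 1, 0, …)`. -/
theorem eleven (t s : ℕ) (ht : 3 ≤ t) (S : Set (MvPolynomial (Fin (8 + s) × Fin 2) ℂ))
    (hS : S.Countable) (h0 : 0 ∉ S) :
    ∃ p : Fin (8 + s) → Fin 2 → ℂ,
      (∀ g ∈ S, eval (fun ij : Fin (8 + s) × Fin 2 => p ij.1 ij.2) g ≠ 0) ∧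
      Function.Injective p ∧
      HasReducedCurve (8 + s) (3 * t) t
        (Fin.addCases (fun _ => t : Fin 8 → ℕ) (fun k => if k.val < 3 then 1 else 0)) p := by
  apply assemble (P0 := H4RC.p0) (μ := fun _ => 1) (τ := fun _ => 0) (e := 3)
    (g := 0) s 3 t t (3 * t) _ ht (by omega) (by simp) (by simp) ?_ S hS h0
  filter_upwards [cubic_open] with p hp
  obtain ⟨O, c, e, a, hg, hE⟩ := hp
  refine ⟨?_, O, _, _, _, hg.ne, cubic hg hE⟩
  intro i i' h
  by_contra hne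
  apply hg.det
  apply Matrix.det_zero_of_row_eq hne
  funext k
  simp only [Matrix.of_apply, h]

end Pool.Agent.Y135.BQ
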