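import Mathlib
import Pool.Agent.Results.MP_e44225_nt.LogTermDependsOnS

/-!
# Vojta's inequality on the projective line with an arbitrary divisor: comparison under Moebius maps
-/

namespace Pool.Agent.Y135.EV

open NumberField Real Pool.Agent.Results.MP_e44225_nt.LogTermDependsOnS

section forms
variable {K : Type*} [Field K]

/-- leading coefficient of the linear form vanishing at `a` -/
def l1 : Option K → K
  | none => 0
  | some _ => 1

/-- constant coefficient of the linear form vanishing at `a` -/
def l0 : Option K → K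
  | none => 1
  | some a => -a

/-- the linear form vanishing at `a` (`1` for the point at infinity) -/
def lf (a : Option K) (x : K) : K := l1 a * x + l0 a

def dt (a b : Option K) : K := l1 a * l0 b - l0 a * l1 b

theorem dt_ne {a b : Option K} (h : a ≠ b) : dt a b ≠ 0 := by
  rcases a with _ | a <;> rcases b with _ | b
  · exact absurd rfl h
  · simp [dt, l1, l0]
  · simp [dt, l1, l0]
  · simp only [dt, l1, l0, one_mul, mul_one]
    intro h1
    apply h
    congr 1
    linear_combination h1

theorem lf_ne_zero_iff {a : Option K} {x : K} : lf a x ≠ 0 ↔ some x ≠ a := by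
  rcases a with _ | a
  · simp [lf, l1, l0]
  · simp only [lf, l1, l0, one_mul, ne_eq, Option.some.injEq]
    constructor
    · intro h h1
      apply h
      rw [h1]
      ring
    · intro h h1
      apply h
      linear_combination h1

theorem weil_eq (w : AbsoluteValue K ℝ) (a : Option K) (x : K) :
    weil w a x = log (max (w x) 1) - log (w (lf a x)) := by
  rcases a with _ | a
  · simp [weil, lf, l1, l0]
  · simp [weil, lf, l1, l0, sub_eq_add_neg]

/-- the size of the form -/
theorem abs_lf_le (w : AbsoluteValue K ℝ) (a : Option K) (x : K) :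
    w (lf a x) ≤ (w (l1 a) + w (l0 a)) * max (w x) 1 := by
  have h1 : w x ≤ max (w x) 1 := le_max_left _ _
  have h2 : 1 ≤ max (w x) 1 := le_max_right _ _
  have h3 : 0 ≤ w (l1 a) := w.nonneg _
  have h4 : 0 ≤ w (l0 a) := w.nonneg _
  calc w (lf a x) ≤ w (l1 a * x) + w (l0 a) := w.add_le _ _
    _ = w (l1 a) * w x + w (l0 a) * 1 := by rw [w.map_mul, mul_one]
    _ ≤ w (l1 a) * max (w x) 1 + w (l0 a) * max (w x) 1 := by gcongr
    _ = _ := by ring

theorem size_pos (w : AbsoluteValue K ℝ) (a : Option K) : 0 < w (l1 a) + w (l0 a) := by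
  rcases a with _ | a
  · simp [l1, l0]
  · simp only [l1, l0, map_one]
    have := w.nonneg (-a)
    linarith

/-- Weil functions are bounded from below -/
theorem weil_lower (w : AbsoluteValue K ℝ) (a : Option K) (x : K) (hx : some x ≠ a) :
    - log (w (l1 a) + w (l0 a)) ≤ weil w a x := by
  rw [weil_eq]
  have h1 : 0 < w (lf a x) := w.pos (lf_ne_zero_iff.2 hx)
  have h2 := log_le_log h1 (abs_lf_le w a x)
  have h3 : (0 : ℝ) < max (w x) 1 := lt_of_lt_of_le one_pos (le_max_right _ _)
  rw [log_mul (size_pos w a).ne' h3.ne'] at h2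
  linarith

end forms

section moebius
variable {K : Type*} [Field K]

/-- the constant `α` -/
noncomputable def al (a b c : Option K) : K := - dt b c / dt a b
/-- the constant `β` -/
noncomputable def be (a b c : Option K) : K := dt c a / dt a b

theorem rel {a b c : Option K} (hab : a ≠ b) (x : K) :
    al a b c * lf a x - lf c x = be a b c * lf b x := by
  have h := dt_ne hab
  unfold al be
  field_simp
  simp only [dt, lf]
  ring

/-- denominator of the inverse Moebius map -/
noncomputable def dn (a b c : Option K) (q : K) : K := al a b c * l1 a - q * l1 c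

/-- the Moebius map which sends `0, 1, ∞` to `a, b, c` -/
noncomputable def mo (a b c : Option K) (q : K) : K := (q * l0 c - al a b c * l0 a) / dn a b c q

theorem al_ne {a b c : Option K} (hab : a ≠ b) (hbc : b ≠ c) : al a b c ≠ 0 := by
  unfold al
  exact div_ne_zero (neg_ne_zero.2 (dt_ne hbc)) (dt_ne hab)

theorem be_ne {a b c : Option K} (hab : a ≠ b) (hac : a ≠ c) : be a b c ≠ 0 := by
  unfold be
  exact div_ne_zero (dt_ne hac.symm) (dt_ne hab)

theorem lf_a {a b c : Option K} {q : K} (hd : dn a b c q ≠ 0) :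
    lf a (mo a b c q) = q * dt a c / dn a b c q := by
  unfold lf mo dt
  field_simp
  unfold dn
  ring

theorem lf_c {a b c : Option K} {q : K} (hd : dn a b c q ≠ 0) :
    lf c (mo a b c q) = al a b c * dt a c / dn a b c q := by
  unfold lf mo dt
  field_simp
  unfold dn
  ring

theorem key {a b c : Option K} (hab : a ≠ b) (hbc : b ≠ c) (hac : a ≠ c) {q : K}
    (hd : dn a b c q ≠ 0) :
    lf c (mo a b c q) ≠ 0 ∧
    q = al a b c * lf a (mo a b c q) / lf c (mo a b c q) ∧
    q - 1 = be a b c * lf b (mo a b c q) / lf c (mo a b c q) := by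
  have h1 := al_ne hab hbc
  have h2 := dt_ne hac
  have h3 : lf c (mo a b c q) ≠ 0 := by
    rw [lf_c hd]
    exact div_ne_zero (mul_ne_zero h1 h2) hd
  have h4 : q = al a b c * lf a (mo a b c q) / lf c (mo a b c q) := by
    rw [lf_c hd, lf_a hd]
    field_simp
  refine ⟨h3, h4, ?_⟩
  rw [← rel hab, sub_div, ← h4, div_self h3]

theorem mo_injOn {a b c : Option K} (hab : a ≠ b) (hbc : b ≠ c) (hac : a ≠ c) {q q' : K}
    (hd : dn a b c q ≠ 0) (hd' : dn a b c q' ≠ 0) (h : mo a b c q = mo a b c q') : q = q' := by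
  rw [(key hab hbc hac hd).2.1, (key hab hbc hac hd').2.1, h]

/-- the local comparison -/
theorem weil_compare (w : AbsoluteValue K ℝ) {a b c : Option K} (hab : a ≠ b) (hbc : b ≠ c)
    (hac : a ≠ c) : ∃ R : ℝ, ∀ q : K, q ≠ 0 → q ≠ 1 → dn a b c q ≠ 0 →
      weil w (some 0) q + weil w (some 1) q + weil w none q ≤
        weil w a (mo a b c q) + weil w b (mo a b c q) + weil w c (mo a b c q) + R := by
  have hal := al_ne hab hbc
  have hbe := be_ne hab hac
  have hal' : 0 < w (al a b c) := w.pos hal
  have hbe' : 0 < w (be a b c) := w.pos hbe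
  set M : ℝ := w (al a b c) * (w (l1 a) + w (l0 a)) + (w (l1 c) + w (l0 c)) with hM
  have hM0 : 0 < M := by
    have h1 := size_pos w a
    have h2 := size_pos w c
    positivity
  refine ⟨3 * log M - log (w (al a b c)) - log (w (be a b c)), ?_⟩
  intro q hq0 hq1 hd
  obtain ⟨h3, h4, h5⟩ := key hab hbc hac hd
  set x := mo a b c q with hx
  have ha : lf a x ≠ 0 := by
    intro h
    apply hq0
    rw [h4, h]
    simp
  have hb : lf b x ≠ 0 := by
    intro h
    apply hq1
    rw [← sub_eq_zero, h5, h]
    simp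
  have wa : 0 < w (lf a x) := w.pos ha
  have wb : 0 < w (lf b x) := w.pos hb
  have wc : 0 < w (lf c x) := w.pos h3
  have hmx : (0 : ℝ) < max (w x) 1 := lt_of_lt_of_le one_pos (le_max_right _ _)
  -- the maximum
  have hmax : max (w q) 1 = max (w (al a b c) * w (lf a x)) (w (lf c x)) / w (lf c x) := by
    have hwq : w q = w (al a b c) * w (lf a x) / w (lf c x) := by
      conv_lhs => rw [h4]
      rw [map_div₀, map_mul]
    rw [hwq, ← max_div_div_right wc.le, div_self wc.ne']
  have hmpos : 0 < max (w (al a b c) * w (lf a x)) (w (lf c x)) := lt_max_of_lt_right wc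
  have hmle : max (w (al a b c) * w (lf a x)) (w (lf c x)) ≤ M * max (w x) 1 := by
    apply max_le
    · have h1 := abs_lf_le w a x
      have h2 := size_pos w c
      calc w (al a b c) * w (lf a x) ≤ w (al a b c) * ((w (l1 a) + w (l0 a)) * max (w x) 1) := by
            gcongr
        _ = w (al a b c) * (w (l1 a) + w (l0 a)) * max (w x) 1 := by ring
        _ ≤ M * max (w x) 1 := by
            gcongr
            rw [hM]
            linarith
    · have h1 := abs_lf_le w c x
      have h2 := size_pos w a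
      refine h1.trans ?_
      gcongr
      rw [hM]
      have := mul_pos hal' h2
      linarith
  have hlm : log (max (w q) 1) ≤ log M + log (max (w x) 1) - log (w (lf c x)) := by
    rw [hmax, log_div hmpos.ne' wc.ne']
    have := log_le_log hmpos hmle
    rw [log_mul hM0.ne' hmx.ne'] at this
    linarith
  have e0 : log (w q) = log (w (al a b c)) + log (w (lf a x)) - log (w (lf c x)) := by
    conv_lhs => rw [h4]
    rw [map_div₀, map_mul, log_div (mul_pos hal' wa).ne' wc.ne', log_mul hal'.ne' wa.ne']
  have e1 : log (w (q - 1)) = log (w (be a b c)) + log (w (lf b x)) - log (w (lf c x)) := by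
    rw [h5, map_div₀, map_mul, log_div (mul_pos hbe' wb).ne' wc.ne', log_mul hbe'.ne' wb.ne']
  rw [weil_eq w a, weil_eq w b, weil_eq w c]
  simp only [weil, sub_zero]
  rw [e0, e1]
  linarith

end moebius

section global
variable {K : Type*} [Field K] [NumberField K]

/-- the height of the image of a Moebius map -/
theorem height_mo (a b c : Option K) : ∃ R : ℝ, ∀ q : K,
    Height.logHeight₁ (mo a b c q) ≤ Height.logHeight₁ q + R := by
  refine ⟨Height.totalWeight K * log (Nat.card (Fin 2)) + Height.logHeight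
    (fun ji : Fin 2 × Fin 2 => ![![l0 c, - (al a b c * l0 a)], ![- l1 c, al a b c * l1 a]] ji.1 ji.2),
    ?_⟩
  intro q
  have h := Height.logHeight_linearMap_apply_le
    (fun ji : Fin 2 × Fin 2 => ![![l0 c, - (al a b c * l0 a)], ![- l1 c, al a b c * l1 a]] ji.1 ji.2)
    ![q, 1]
  rw [← Height.logHeight₁_eq_logHeight] at h
  have e : (fun j : Fin 2 => ∑ i : Fin 2, ![![l0 c, - (al a b c * l0 a)],
      ![- l1 c, al a b c * l1 a]] j i * ![q, 1] i) =
      ![q * l0 c - al a b c * l0 a, dn a b c q] := by
    funext j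
    fin_cases j
    · simp [Fin.sum_univ_two]
      ring
    · simp [Fin.sum_univ_two, dn]
      ring
  simp only [e] at h
  rw [mo, Height.logHeight₁_div_eq_logHeight]
  linarith

theorem prox_eq (S : Finset (FinitePlace K)) (D : Finset (Option K)) (x : K) :
    proximity S D x = (∑ v : InfinitePlace K, (v.mult : ℝ) * ∑ a ∈ D, weil v a x) +
      ∑ v ∈ S, ∑ a ∈ D, weil v a x := by
  unfold proximity
  rw [Finset.sum_add_distrib, Finset.sum_comm]
  congr 1
  · exact Finset.sum_congr rfl fun v _ => by rw [Finset.mul_sum]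
  · rw [Finset.sum_comm]

/-- the local comparison with a divisor with at least three points -/
theorem local_compare (w : AbsoluteValue K ℝ) {a b c : Option K} (hab : a ≠ b) (hbc : b ≠ c)
    (hac : a ≠ c) (D : Finset (Option K)) (ha : a ∈ D) (hb : b ∈ D) (hc : c ∈ D) :
    ∃ R : ℝ, ∀ q : K, q ≠ 0 → q ≠ 1 → dn a b c q ≠ 0 → some (mo a b c q) ∉ D →
      ∑ y ∈ threePoints K, weil w y q ≤ (∑ y ∈ D, weil w y (mo a b c q)) + R := by
  classical
  obtain ⟨R, hR⟩ := weil_compare w hab hbc hac
  refine ⟨R + ∑ y ∈ D, |log (w (l1 y) + w (l0 y))|, ?_⟩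
  intro q hq0 hq1 hd hD
  have h1 := hR q hq0 hq1 hd
  have h2 : ∑ y ∈ threePoints K, weil w y q =
      weil w (some 0) q + weil w (some 1) q + weil w none q := by
    unfold threePoints
    rw [Finset.sum_insert (by simp), Finset.sum_insert (by simp), Finset.sum_singleton]
    ring
  set x := mo a b c q with hx
  have hsub : ({a, b, c} : Finset (Option K)) ⊆ D := by
    intro y hy
    simp only [Finset.mem_insert, Finset.mem_singleton] at hy
    rcases hy with rfl | rfl | rfl
    · exact ha
    · exact hb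
    · exact hc
  have h3 : ∑ y ∈ ({a, b, c} : Finset (Option K)), weil w y x = weil w a x + weil w b x + weil w c x := by
    rw [Finset.sum_insert (by simp [hab, hac]), Finset.sum_insert (by simp [hbc]),
      Finset.sum_singleton]
    ring
  have h4 := Finset.sum_sdiff (f := fun y => weil w y x) hsub
  have h5 : - ∑ y ∈ D, |log (w (l1 y) + w (l0 y))| ≤ ∑ y ∈ D \ {a, b, c}, weil w y x := by
    have h6 : ∑ y ∈ D \ {a, b, c}, |log (w (l1 y) + w (l0 y))| ≤
        ∑ y ∈ D, |log (w (l1 y) + w (l0 y))| :=
      Finset.sum_le_sum_of_subset_of_nonneg Finset.sdiff_subset (fun _ _ _ => abs_nonneg _)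
    have h7 : - ∑ y ∈ D \ {a, b, c}, |log (w (l1 y) + w (l0 y))| ≤
        ∑ y ∈ D \ {a, b, c}, weil w y x := by
      rw [← Finset.sum_neg_distrib]
      apply Finset.sum_le_sum
      intro y hy
      have hyD := (Finset.mem_sdiff.1 hy).1
      have h8 := weil_lower w y x (fun h => hD (h ▸ hyD))
      have h9 := le_abs_self (log (w (l1 y) + w (l0 y)))
      linarith
    linarith
  rw [h2]
  linarith

/-- the global comparison of the proximity functions -/
theorem prox_compare (S : Finset (FinitePlace K)) {a b c : Option K} (hab : a ≠ b) (hbc : b ≠ c)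
    (hac : a ≠ c) (D : Finset (Option K)) (ha : a ∈ D) (hb : b ∈ D) (hc : c ∈ D) :
    ∃ R : ℝ, ∀ q : K, q ≠ 0 → q ≠ 1 → dn a b c q ≠ 0 → some (mo a b c q) ∉ D →
      proximity S (threePoints K) q ≤ proximity S D (mo a b c q) + R := by
  have h1 : ∀ v : InfinitePlace K, ∃ R : ℝ, ∀ q : K, q ≠ 0 → q ≠ 1 → dn a b c q ≠ 0 →
      some (mo a b c q) ∉ D →
      ∑ y ∈ threePoints K, weil v y q ≤ (∑ y ∈ D, weil v y (mo a b c q)) + R :=
    fun v => local_compare v.val hab hbc hac D ha hb hc
  have h2 : ∀ v : FinitePlace K, ∃ R : ℝ, ∀ q : K, q ≠ 0 → q ≠ 1 → dn a b c q ≠ 0 →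
      some (mo a b c q) ∉ D →
      ∑ y ∈ threePoints K, weil v y q ≤ (∑ y ∈ D, weil v y (mo a b c q)) + R :=
    fun v => local_compare v.val hab hbc hac D ha hb hc
  choose R1 hR1 using h1
  choose R2 hR2 using h2
  refine ⟨(∑ v : InfinitePlace K, (v.mult : ℝ) * R1 v) + ∑ v ∈ S, R2 v, ?_⟩
  intro q hq0 hq1 hd hD
  rw [prox_eq, prox_eq]
  have e1 : (∑ v : InfinitePlace K, (v.mult : ℝ) * ∑ y ∈ threePoints K, weil v y q) ≤
      (∑ v : InfinitePlace K, (v.mult : ℝ) * ∑ y ∈ D, weil v y (mo a b c q)) +
      ∑ v : InfinitePlace K, (v.mult : ℝ) * R1 v := by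
    rw [← Finset.sum_add_distrib]
    apply Finset.sum_le_sum
    intro v _
    rw [← mul_add]
    exact mul_le_mul_of_nonneg_left (hR1 v q hq0 hq1 hd hD) (by positivity)
  have e2 : (∑ v ∈ S, ∑ y ∈ threePoints K, weil v y q) ≤
      (∑ v ∈ S, ∑ y ∈ D, weil v y (mo a b c q)) + ∑ v ∈ S, R2 v := by
    rw [← Finset.sum_add_distrib]
    exact Finset.sum_le_sum fun v _ => hR2 v q hq0 hq1 hd hD
  linarith

theorem log_plus_add {u c : ℝ} (hu : 0 ≤ u) (hc : 0 ≤ c) : log⁺ (u + c) ≤ log⁺ u + log⁺ c + log 2 := by
  have h1 : u + c ≤ 2 * (max u 1 * max c 1) := by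
    have a1 : u ≤ max u 1 := le_max_left _ _
    have a2 : 1 ≤ max u 1 := le_max_right _ _
    have a3 : c ≤ max c 1 := le_max_left _ _
    have a4 : 1 ≤ max c 1 := le_max_right _ _
    nlinarith
  have hp : (1 : ℝ) ≤ max u 1 * max c 1 := by
    have a2 : 1 ≤ max u 1 := le_max_right _ _
    have a4 : 1 ≤ max c 1 := le_max_right _ _
    nlinarith
  calc log⁺ (u + c) ≤ log⁺ (2 * (max u 1 * max c 1)) :=
        posLog_le_posLog (by linarith) h1
    _ = log (2 * (max u 1 * max c 1)) := by
        apply posLog_eq_log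
        rw [abs_of_pos (by linarith)]
        linarith
    _ = log 2 + (log (max u 1) + log (max c 1)) := by
        rw [log_mul (by norm_num) (by positivity), log_mul (by positivity) (by positivity)]
    _ = log⁺ u + log⁺ c + log 2 := by
        rw [posLog_eq_log_max_one hu, posLog_eq_log_max_one hc, max_comm u, max_comm c]
        ring

/-- the comparison over the field of definition -/
theorem infinite_three (D : Finset (Option K)) (hD : 3 ≤ D.card) (T : Finset ℕ)
    (hT : ∀ p ∈ T, p.Prime) (C B : ℝ) (hC0 : 0 < C)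
    (hC : C < (Module.finrank ℚ K : ℝ) * ((T.card : ℝ) - 1)) :
    {x : K | some x ∉ D ∧ C * log⁺ (Height.logHeight₁ x) + B ≤
        -2 * Height.logHeight₁ x + proximity (placesOver K T) D x}.Infinite := by
  classical
  obtain ⟨a, ha, b, hb, c, hc, hab, hac, hbc⟩ := Finset.two_lt_card.1 (by omega : 2 < D.card)
  obtain ⟨R1, hR1⟩ := prox_compare (placesOver K T) hab hbc hac D ha hb hc
  obtain ⟨R2, hR2⟩ := height_mo a b c
  have hR2' : ∀ q : K, Height.logHeight₁ (mo a b c q) ≤ Height.logHeight₁ q + |R2| := fun q =>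
    (hR2 q).trans (by linarith [le_abs_self R2])
  -- the constant
  have hres := result K T hT C (C * (log⁺ |R2| + log 2) + 2 * |R2| + R1 + B - log |(discr K : ℝ)|)
    hC0 hC
  set Z := {x : K | x ≠ 0 ∧ x ≠ 1 ∧
      C * log⁺ (Height.logHeight₁ x) + log |(discr K : ℝ)| +
        (C * (log⁺ |R2| + log 2) + 2 * |R2| + R1 + B - log |(discr K : ℝ)|) ≤
        -2 * Height.logHeight₁ x + proximity (placesOver K T) (threePoints K) x} with hZ
  -- remove the bad points
  have hbad1 : {q : K | dn a b c q = 0}.Finite := by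
    apply Set.Subsingleton.finite
    intro q hq q' hq'
    simp only [Set.mem_ofPred_eq, dn] at hq hq'
    by_cases h1 : l1 c = 0
    · exfalso
      rw [h1] at hq
      have h2 : l1 a = 0 := by
        have h3 : al a b c * l1 a = 0 := by linear_combination hq
        exact (mul_eq_zero.1 h3).resolve_left (al_ne hab hbc)
      apply dt_ne hac
      unfold dt
      rw [h1, h2]
      ring
    · have h2 : (q - q') * l1 c = 0 := by linear_combination hq' - hq
      exact sub_eq_zero.1 ((mul_eq_zero.1 h2).resolve_right h1)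
  have hZ1 : (Z \ {q : K | dn a b c q = 0}).Infinite := hres.sdiff hbad1
  have hinj : Set.InjOn (mo a b c) (Z \ {q : K | dn a b c q = 0}) := by
    intro q hq q' hq' h
    exact mo_injOn hab hbc hac hq.2 hq'.2 h
  have hZ2 := hZ1.image hinj
  have hDfin : {x : K | some x ∈ D}.Finite := by
    have := D.finite_toSet.preimage (f := (some : K → Option K)) (Option.some_injective K).injOn
    exact this
  refine (hZ2.sdiff hDfin).mono ?_
  rintro x ⟨⟨q, ⟨⟨hq0, hq1, hq⟩, hd⟩, rfl⟩, hx⟩
  refine ⟨hx, ?_⟩
  have h1 := hR1 q hq0 hq1 hd hx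
  have h2 := hR2' q
  have h3 : log⁺ (Height.logHeight₁ (mo a b c q)) ≤
      log⁺ (Height.logHeight₁ q) + log⁺ |R2| + log 2 :=
    (posLog_le_posLog (Height.zero_le_logHeight₁ _) h2).trans
      (log_plus_add (Height.zero_le_logHeight₁ _) (abs_nonneg _))
  have h4 := mul_le_mul_of_nonneg_left h3 hC0.le
  linarith

/-! ### at most two points -/

/-- the part of the height at the places of `S` and at infinity -/
theorem part_le_height (S : Finset (FinitePlace K)) (x : K) :
    (∑ v : InfinitePlace K, (v.mult : ℝ) * log⁺ (v x)) + ∑ v ∈ S, log⁺ (v x) ≤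
      Height.logHeight₁ x := by
  rw [logHeight₁_eq]
  have h1 : ∑ v ∈ S, log⁺ (v x) ≤ ∑ᶠ v : FinitePlace K, log⁺ (v x) := by
    by_cases hx : x = 0
    · subst hx
      simp
    have hf : (Function.support fun v : FinitePlace K => log⁺ (v x)).Finite := by
      refine (FinitePlace.hasFiniteMulSupport hx).subset ?_
      intro v hv h
      apply hv
      simp only [h]
      simp
    classical
    rw [finsum_eq_sum_of_support_subset (s := hf.toFinset ∪ S)]
    · exact Finset.sum_le_sum_of_subset_of_nonneg Finset.subset_union_right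
        (fun _ _ _ => posLog_nonneg)
    · intro v hv
      simp only [Finset.coe_union, Set.Finite.coe_toFinset]
      exact Or.inl hv
  linarith

omit [NumberField K] in
/-- local bound: the Weil function of one point is at most the local height of the inverse form -/
theorem weil_upper (w : AbsoluteValue K ℝ) (a : K) : ∃ R : ℝ, ∀ x : K, x ≠ a →
    weil w (some a) x ≤ log⁺ (w ((x - a)⁻¹)) + R := by
  refine ⟨log (1 + w a), ?_⟩
  intro x hx
  have hxa : x - a ≠ 0 := sub_ne_zero.2 hx
  have h0 : 0 < w (x - a) := w.pos hxa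
  have ha : 0 ≤ w a := w.nonneg a
  have h1 : max (w x) 1 ≤ (1 + w a) * max (w (x - a)) 1 := by
    have a1 : w (x - a) ≤ max (w (x - a)) 1 := le_max_left _ _
    have a2 : 1 ≤ max (w (x - a)) 1 := le_max_right _ _
    apply max_le
    · calc w x = w ((x - a) + a) := by ring_nf
        _ ≤ w (x - a) + w a := w.add_le _ _
        _ ≤ (1 + w a) * max (w (x - a)) 1 := by nlinarith
    · nlinarith
  have h2 : (0 : ℝ) < max (w x) 1 := lt_of_lt_of_le one_pos (le_max_right _ _)
  have h3 : (0 : ℝ) < max (w (x - a)) 1 := lt_of_lt_of_le one_pos (le_max_right _ _)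
  have h4 : (0 : ℝ) < 1 + w a := by linarith
  have h5 := log_le_log h2 h1
  rw [log_mul h4.ne' h3.ne'] at h5
  have h6 : log⁺ (w ((x - a)⁻¹)) = log (max (w (x - a)) 1) - log (w (x - a)) := by
    rw [map_inv₀, posLog_eq_log_max_one (inv_nonneg.2 h0.le), ← log_div h3.ne' h0.ne']
    congr 1
    rw [← max_div_div_right h0.le, div_self h0.ne', one_div]
  simp only [weil]
  rw [h6]
  linarith

theorem prox_single (S : Finset (FinitePlace K)) (a : Option K) : ∃ R : ℝ, ∀ x : K, some x ≠ a →
    (∑ v : InfinitePlace K, (v.mult : ℝ) * weil v a x) + ∑ v ∈ S, weil v a x ≤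
      Height.logHeight₁ x + R := by
  rcases a with _ | a
  · refine ⟨0, fun x _ => ?_⟩
    rw [add_zero]
    have := part_le_height S x
    have e1 : (∑ v : InfinitePlace K, (v.mult : ℝ) * weil v none x) =
        (∑ v : InfinitePlace K, (v.mult : ℝ) * log⁺ (v x)) :=
      Finset.sum_congr rfl fun v _ => by
        simp only [weil]
        rw [log_max_eq _ (apply_nonneg v x)]
    have e2 : (∑ v ∈ S, weil v none x) = ∑ v ∈ S, log⁺ (v x) :=
      Finset.sum_congr rfl fun v _ => by
        simp only [weil]
        rw [log_max_eq _ (apply_nonneg v x)]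
    rw [e1, e2]
    exact this
  · have h1 : ∀ v : InfinitePlace K, ∃ R : ℝ, ∀ x : K, x ≠ a →
        weil v (some a) x ≤ log⁺ (v ((x - a)⁻¹)) + R := fun v => weil_upper v.val a
    have h2 : ∀ v : FinitePlace K, ∃ R : ℝ, ∀ x : K, x ≠ a →
        weil v (some a) x ≤ log⁺ (v ((x - a)⁻¹)) + R := fun v => weil_upper v.val a
    choose R1 hR1 using h1
    choose R2 hR2 using h2
    refine ⟨(Height.totalWeight K * log 2 + Height.logHeight₁ a) +
      ((∑ v : InfinitePlace K, (v.mult : ℝ) * R1 v) + ∑ v ∈ S, R2 v), ?_⟩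
    intro x hx
    have hx' : x ≠ a := fun h => hx (by rw [h])
    have e1 : (∑ v : InfinitePlace K, (v.mult : ℝ) * weil v (some a) x) ≤
        (∑ v : InfinitePlace K, (v.mult : ℝ) * log⁺ (v ((x - a)⁻¹))) +
        ∑ v : InfinitePlace K, (v.mult : ℝ) * R1 v := by
      rw [← Finset.sum_add_distrib]
      apply Finset.sum_le_sum
      intro v _
      rw [← mul_add]
      exact mul_le_mul_of_nonneg_left (hR1 v x hx') (by positivity)
    have e2 : (∑ v ∈ S, weil v (some a) x) ≤
        (∑ v ∈ S, log⁺ (v ((x - a)⁻¹))) + ∑ v ∈ S, R2 v := by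
      rw [← Finset.sum_add_distrib]
      exact Finset.sum_le_sum fun v _ => hR2 v x hx'
    have h3 := part_le_height S ((x - a)⁻¹)
    rw [Height.logHeight₁_inv] at h3
    have h4 := Height.logHeight₁_sub_le x a
    linarith

/-- on the line with at most two points removed -/
theorem bounded_two (S : Finset (FinitePlace K)) (D : Finset (Option K)) (hD : D.card ≤ 2) :
    ∃ R : ℝ, ∀ x : K, some x ∉ D → -2 * Height.logHeight₁ x + proximity S D x ≤ R := by
  choose R hR using prox_single (K := K) S
  refine ⟨∑ a ∈ D, R a, ?_⟩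
  intro x hx
  have h1 : proximity S D x ≤ ∑ a ∈ D, (Height.logHeight₁ x + R a) := by
    unfold proximity
    exact Finset.sum_le_sum fun a ha => hR a x (fun h => hx (h ▸ ha))
  rw [Finset.sum_add_distrib, Finset.sum_const, nsmul_eq_mul] at h1
  have h2 : (D.card : ℝ) ≤ 2 := by exact_mod_cast hD
  have h3 := mul_le_mul_of_nonneg_right h2 (Height.zero_le_logHeight₁ x)
  linarith

end global

end Pool.Agent.Y135.EV
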