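import Mathlib

set_option autoImplicit false
set_option maxHeartbeats 400000
namespace Pool.Agent.Y135

open TensorProduct

/-- Two homomorphisms of an unramified algebra into a domain which agree modulo a proper ideal. -/
theorem unram_eq {R B C : Type*} [CommRing R] [CommRing B] [CommRing C] [IsDomain C] [Algebra R B]
    [Algebra R C] [Algebra.FormallyUnramified R B] [Algebra.EssFiniteType R B]
    (u v : B →ₐ[R] C) (Q : Ideal C) (hQ : Q ≠ ⊤) (h : ∀ b, u b - v b ∈ Q) : u = v := by
  let t := Algebra.FormallyUnramified.elem R B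
  let w : B ⊗[R] B →ₐ[R] C := Algebra.TensorProduct.productMap u v
  have h1 : ∀ b, (v b - u b) * w t = 0 := by
    intro b
    have := congrArg w (Algebra.FormallyUnramified.one_tmul_sub_tmul_one_mul_elem (R := R) b)
    rw [map_mul, map_sub, map_zero] at this
    simpa [w] using this
  have h2 : ((Ideal.Quotient.mkₐ R Q).comp w) =
      ((Ideal.Quotient.mkₐ R Q).comp u).comp (Algebra.TensorProduct.lmul' R (S := B)) := by
    apply Algebra.TensorProduct.ext
    · ext b
      simp [w]
    · ext b
      have := h b
      simp only [w, AlgHom.comp_apply, AlgHom.coe_comp, Function.comp_apply,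
        Algebra.TensorProduct.includeRight_apply, Algebra.TensorProduct.productMap_apply_tmul,
        map_one, one_mul, AlgHom.coe_restrictScalars', Algebra.TensorProduct.lmul'_apply_tmul]
      exact ((Ideal.Quotient.eq.mpr this)).symm
  have h3 : Ideal.Quotient.mk Q (w t) = 1 := by
    have := AlgHom.congr_fun h2 t
    simp only [AlgHom.comp_apply] at this
    have h4 : Algebra.TensorProduct.lmul' R (S := B) t = 1 :=
      Algebra.FormallyUnramified.lmul_elem
    rw [h4, map_one, map_one] at this
    exact this
  have h5 : w t ≠ 0 := by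
    intro h0
    rw [h0, map_zero] at h3
    apply hQ
    rw [Ideal.eq_top_iff_one, ← Ideal.Quotient.eq_zero_iff_mem, map_one]
    exact h3.symm
  ext b
  have := (mul_eq_zero.mp (h1 b)).resolve_right h5
  exact (sub_eq_zero.mp this).symm

/-- Unramified homomorphisms and square-zero ideals, in terms of ring homomorphisms. -/
theorem unram_ringHom {A B C : Type*} [CommRing A] [CommRing B] [CommRing C] (φ : A →+* B)
    (hφ : φ.FormallyUnramified) (f g : B →+* C) (I : Ideal C) (hI : I ^ 2 = ⊥)
    (h : ∀ b, f b - g b ∈ I) (h' : f.comp φ = g.comp φ) : f = g := by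
  let := φ.toAlgebra
  let := (f.comp φ).toAlgebra
  have hφ' : Algebra.FormallyUnramified A B := hφ
  let f' : B →ₐ[A] C := { f with commutes' := fun a => rfl }
  let g' : B →ₐ[A] C := { g with commutes' := fun a => (RingHom.congr_fun h' a).symm }
  have : f' = g' := by
    apply Algebra.FormallyUnramified.comp_injective I hI
    ext b
    exact Ideal.Quotient.eq.mpr (h b)
  ext b
  exact AlgHom.congr_fun this b

/-- Modifying the coordinates by `q`-th powers. -/
theorem unram_shift (p : ℕ) [Fact p.Prime] {n : ℕ} {B : Type} [CommRing B] [Algebra (ZMod p) B]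
    (x z : Fin n → B) (e : ℕ) (he : 0 < e)
    (hx : (MvPolynomial.aeval x : MvPolynomial (Fin n) (ZMod p) →ₐ[ZMod p] B).toRingHom.FormallyUnramified) :
    (MvPolynomial.aeval (fun i => x i + z i ^ p ^ e) :
      MvPolynomial (Fin n) (ZMod p) →ₐ[ZMod p] B).toRingHom.FormallyUnramified := by
  let := (MvPolynomial.aeval (fun i => x i + z i ^ p ^ e) :
      MvPolynomial (Fin n) (ZMod p) →ₐ[ZMod p] B).toRingHom.toAlgebra
  change Algebra.FormallyUnramified _ _
  rw [Algebra.FormallyUnramified.iff_comp_injective]
  intro C _ _ I hI f g hfg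
  have hfg' : ∀ b, f b - g b ∈ I := fun b => Ideal.Quotient.eq.mp (AlgHom.congr_fun hfg b)
  rcases subsingleton_or_nontrivial C with hC | hC
  · ext b
    exact Subsingleton.elim _ _
  have hal : ∀ i, f (x i + z i ^ p ^ e) = g (x i + z i ^ p ^ e) := by
    intro i
    have e1 : x i + z i ^ p ^ e = algebraMap (MvPolynomial (Fin n) (ZMod p)) B
        (MvPolynomial.X i) := by
      rw [RingHom.algebraMap_toAlgebra]
      simp
    rw [e1, AlgHom.commutes, AlgHom.commutes]
  have : CharP C p :=
    charP_of_injective_ringHom ((f : B →+* C).comp (algebraMap (ZMod p) B)).injective p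
  have hxi : ∀ i, f (x i) = g (x i) := by
    intro i
    have h1 := hal i
    rw [map_add, map_add, map_pow, map_pow] at h1
    have h2 : f (x i) - g (x i) = - (f (z i) - g (z i)) ^ p ^ e := by
      rw [sub_pow_char_pow]
      linear_combination h1
    have h3 : (f (z i) - g (z i)) ^ p ^ e ∈ I ^ 2 := by
      have h4 : 2 ≤ p ^ e := by
        calc 2 ≤ p := (Fact.out : p.Prime).two_le
          _ = p ^ 1 := (pow_one p).symm
          _ ≤ p ^ e := Nat.pow_le_pow_right (Fact.out : p.Prime).pos he
      exact Ideal.pow_le_pow_right h4 (Ideal.pow_mem_pow (hfg' _) _)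
    rw [hI, Submodule.mem_bot] at h3
    rw [h3, neg_zero] at h2
    exact sub_eq_zero.mp h2
  have := unram_ringHom _ hx (f : B →+* C) (g : B →+* C) I hI hfg' (by
    apply MvPolynomial.ringHom_ext
    · intro a
      have h1 : ((f : B →+* C).comp (algebraMap (ZMod p) B)) =
        ((g : B →+* C).comp (algebraMap (ZMod p) B)) := Subsingleton.elim _ _
      simpa using RingHom.congr_fun h1 a
    · intro i
      simpa using hxi i)
  ext b
  exact RingHom.congr_fun this b

end Pool.Agent.Y135
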