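import Pool.Agent.Y135.AlgA

set_option autoImplicit false
set_option maxHeartbeats 400000
namespace Pool.Agent.Y135

/-- Growth of integral elements. -/
theorem growth (p : ℕ) [Fact p.Prime] {K : Type*} [Field K] [Algebra (ZMod p) K] {n : ℕ}
    (z : Fin n → K) (x : K) (hx : IsIntegral (Algebra.adjoin (ZMod p) (Set.range z)) x) :
    ∃ D : ℕ, ∀ (V : ValuationSubring K) (M : V.ValueGroup), 1 ≤ M →
      (∀ i, V.valuation (z i) ≤ M) → V.valuation x ≤ M ^ D := by
  classical
  have h1 : ∀ c ∈ Algebra.adjoin (ZMod p) (Set.range z),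
      ∃ D : ℕ, ∀ (V : ValuationSubring K) (M : V.ValueGroup), 1 ≤ M →
      (∀ i, V.valuation (z i) ≤ M) → V.valuation c ≤ M ^ D := by
    intro c hc
    induction hc using Algebra.adjoin_induction with
    | mem x hx =>
      obtain ⟨i, rfl⟩ := hx
      exact ⟨1, fun V M _ h => by rw [pow_one]; exact h i⟩
    | algebraMap r =>
      refine ⟨0, fun V M _ _ => ?_⟩
      rw [pow_zero]
      have : algebraMap (ZMod p) K r = ((r.val : ℕ) : K) := by
        rw [← map_natCast (algebraMap (ZMod p) K), ZMod.natCast_zmod_val]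
      rw [this]
      exact (V.valuation_le_one_iff _).mpr (natCast_mem V _)
    | add x y _ _ hx hy =>
      obtain ⟨D, hD⟩ := hx
      obtain ⟨D', hD'⟩ := hy
      refine ⟨max D D', fun V M hM h => ?_⟩
      refine (V.valuation.map_add x y).trans (max_le ?_ ?_)
      · exact (hD V M hM h).trans (pow_le_pow_right₀ hM (le_max_left _ _))
      · exact (hD' V M hM h).trans (pow_le_pow_right₀ hM (le_max_right _ _))
    | mul x y _ _ hx hy =>
      obtain ⟨D, hD⟩ := hx
      obtain ⟨D', hD'⟩ := hy
      refine ⟨D + D', fun V M hM h => ?_⟩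
      rw [map_mul, pow_add]
      exact mul_le_mul' (hD V M hM h) (hD' V M hM h)
  obtain ⟨P, hP, hPx⟩ := hx
  choose D hD using fun j : ℕ => h1 (P.coeff j) (P.coeff j).2
  refine ⟨∑ j ∈ Finset.range P.natDegree, D j, fun V M hM h => ?_⟩
  set E := ∑ j ∈ Finset.range P.natDegree, D j with hE
  by_contra! hlt
  have hx1 : 1 ≤ V.valuation x := (one_le_pow₀ hM).trans hlt.le
  rw [Polynomial.eval₂_eq_sum_range, Finset.sum_range_succ, hP.coeff_natDegree, map_one,
    one_mul] at hPx
  have h2 : V.valuation (∑ j ∈ Finset.range P.natDegree,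
      algebraMap (Algebra.adjoin (ZMod p) (Set.range z)) K (P.coeff j) * x ^ j) <
      V.valuation x ^ P.natDegree := by
    apply Valuation.map_sum_lt
    · exact pow_ne_zero _ (zero_lt_one.trans_le hx1).ne'
    · intro j hj
      rw [map_mul, map_pow]
      have h3 : V.valuation (P.coeff j : K) ≤ M ^ E :=
        (hD j V M hM h).trans (pow_le_pow_right₀ hM
          (Finset.single_le_sum (fun _ _ => Nat.zero_le _) hj))
      calc V.valuation (P.coeff j : K) * V.valuation x ^ j
          ≤ M ^ E * V.valuation x ^ j := mul_le_mul_left h3 _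
        _ < V.valuation x * V.valuation x ^ j :=
            mul_lt_mul_of_pos_right hlt (pow_pos (zero_lt_one.trans_le hx1) _)
        _ = V.valuation x ^ (j + 1) := (pow_succ' _ _).symm
        _ ≤ V.valuation x ^ P.natDegree := pow_le_pow_right₀ hx1 (Finset.mem_range.mp hj)
  rw [eq_neg_of_add_eq_zero_left hPx, Valuation.map_neg, map_pow] at h2
  exact lt_irrefl _ h2

/-- A valuation ring which contains `x i + z i ^ q` contains `z i`. -/
theorem mem_of_shift (p : ℕ) [Fact p.Prime] {K : Type*} [Field K] [Algebra (ZMod p) K] {n : ℕ}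
    (z x : Fin n → K) (hx : ∀ i, IsIntegral (Algebra.adjoin (ZMod p) (Set.range z)) (x i)) :
    ∃ e : ℕ, 0 < e ∧ ∀ V : ValuationSubring K, (∀ i, x i + z i ^ p ^ e ∈ V) → ∀ i, z i ∈ V := by
  choose D hD using fun i => growth p z (x i) (hx i)
  set E := ∑ i, D i with hE
  refine ⟨E + 1, Nat.succ_pos _, fun V hV i => ?_⟩
  have hp : E < p ^ (E + 1) :=
    (Nat.lt_pow_self (Fact.out : p.Prime).one_lt).trans
      (Nat.pow_lt_pow_right (Fact.out : p.Prime).one_lt (Nat.lt_succ_self _))
  by_contra hi
  have : Nonempty (Fin n) := ⟨i⟩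
  obtain ⟨j, hj⟩ := Finite.exists_max fun i => V.valuation (z i)
  have hM : 1 < V.valuation (z j) := by
    refine lt_of_lt_of_le ?_ (hj i)
    rw [← not_le, V.valuation_le_one_iff]
    exact hi
  have h1 : V.valuation (x j) < V.valuation (z j ^ p ^ (E + 1)) := by
    rw [map_pow]
    calc V.valuation (x j) ≤ V.valuation (z j) ^ D j := hD j V _ hM.le hj
      _ ≤ V.valuation (z j) ^ E := pow_le_pow_right₀ hM.le
            (Finset.single_le_sum (f := D) (fun _ _ => Nat.zero_le _) (Finset.mem_univ j))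
      _ < _ := pow_lt_pow_right₀ hM hp
  have h2 := V.valuation.map_add_eq_of_lt_right h1
  have h3 := (V.valuation_le_one_iff _).mpr (hV j)
  rw [h2, map_pow] at h3
  exact absurd h3 (not_le.mpr (one_lt_pow₀ hM (pow_pos (Fact.out : p.Prime).pos _).ne'))

end Pool.Agent.Y135
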