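import Pool.Agent.Y135.AlgB

set_option autoImplicit false
set_option maxHeartbeats 400000
namespace Pool.Agent.Y135

open Cardinal

/-- Étale algebras over a domain are algebraic. -/
theorem isAlgebraic_of_etale (A B : Type) [CommRing A] [IsDomain A] [CommRing B] [IsDomain B]
    [Algebra A B] [FaithfulSMul A B] [Algebra.FormallyUnramified A B] [Algebra.FiniteType A B] :
    Algebra.IsAlgebraic A B := by
  have : FaithfulSMul A (FractionRing B) := FaithfulSMul.trans A B (FractionRing B)
  let := FractionRing.liftAlgebra A (FractionRing B)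
  have : IsScalarTower A (FractionRing A) (FractionRing B) :=
    FractionRing.isScalarTower_liftAlgebra A (FractionRing B)
  have : Algebra.FormallyUnramified B (FractionRing B) :=
    Algebra.FormallyUnramified.of_isLocalization (nonZeroDivisors B)
  have : Algebra.FormallyUnramified A (FractionRing B) := Algebra.FormallyUnramified.comp A B _
  have : Algebra.FormallyUnramified (FractionRing A) (FractionRing B) :=
    Algebra.FormallyUnramified.of_restrictScalars A _ _
  have : Algebra.EssFiniteType B (FractionRing B) :=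
    Algebra.EssFiniteType.of_isLocalization _ (nonZeroDivisors B)
  have : Algebra.EssFiniteType A (FractionRing B) := Algebra.EssFiniteType.comp A B _
  have : Algebra.EssFiniteType (FractionRing A) (FractionRing B) :=
    Algebra.EssFiniteType.of_comp A _ _
  have : Module.Finite (FractionRing A) (FractionRing B) :=
    Algebra.FormallyUnramified.finite_of_free _ _
  have h1 : Algebra.IsAlgebraic (FractionRing A) (FractionRing B) := inferInstance
  have h2 : Algebra.IsAlgebraic A (FractionRing B) :=
    (IsFractionRing.comap_isAlgebraic_iff (K := FractionRing A)).mpr h1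
  exact Algebra.IsAlgebraic.of_injective (IsScalarTower.toAlgHom A B (FractionRing B))
    (IsFractionRing.injective B (FractionRing B))

/-- The transcendence degree of an étale algebra over a polynomial ring. -/
theorem trdeg_of_etale (p : ℕ) [Fact p.Prime] {n : ℕ} {B : Type} [CommRing B] [IsDomain B]
    [Algebra (ZMod p) B] (x : Fin n → B)
    (hx : (MvPolynomial.aeval x : MvPolynomial (Fin n) (ZMod p) →ₐ[ZMod p] B).toRingHom.Etale) :
    Algebra.trdeg (ZMod p) B = n ∧ Algebra.FiniteType (ZMod p) B := by
  let := (MvPolynomial.aeval x : MvPolynomial (Fin n) (ZMod p) →ₐ[ZMod p] B).toRingHom.toAlgebra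
  have hE : Algebra.Etale (MvPolynomial (Fin n) (ZMod p)) B := hx
  have : IsScalarTower (ZMod p) (MvPolynomial (Fin n) (ZMod p)) B :=
    IsScalarTower.of_algebraMap_eq' (MvPolynomial.aeval x).comp_algebraMap.symm
  have hft : Algebra.FiniteType (ZMod p) B :=
    Algebra.FiniteType.trans (S := MvPolynomial (Fin n) (ZMod p)) inferInstance inferInstance
  have hf : FaithfulSMul (MvPolynomial (Fin n) (ZMod p)) B := inferInstance
  have halg : Algebra.IsAlgebraic (MvPolynomial (Fin n) (ZMod p)) B := isAlgebraic_of_etale _ _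
  refine ⟨?_, hft⟩
  have h1 := trdeg_add_eq (ZMod p) (MvPolynomial (Fin n) (ZMod p)) (A := B)
  rw [MvPolynomial.trdeg_of_isDomain, trdeg_eq_zero] at h1
  simpa using h1.symm

/-- The finite étale map to an affine space: coordinates `t i = x i + z i ^ (p ^ e)`. -/
theorem exists_coords (p : ℕ) [Fact p.Prime] {n : ℕ} {B : Type} [CommRing B] [IsDomain B]
    [Algebra (ZMod p) B] (x : Fin n → B)
    (hx : (MvPolynomial.aeval x : MvPolynomial (Fin n) (ZMod p) →ₐ[ZMod p] B).toRingHom.Etale) :
    ∃ t : Fin n → B,
      (MvPolynomial.aeval t : MvPolynomial (Fin n) (ZMod p) →ₐ[ZMod p] B).toRingHom.FormallyUnramified ∧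
      (MvPolynomial.aeval t : MvPolynomial (Fin n) (ZMod p) →ₐ[ZMod p] B).toRingHom.IsIntegral ∧
      AlgebraicIndependent (ZMod p) t ∧ Algebra.FiniteType (ZMod p) B := by
  obtain ⟨htr, hft⟩ := trdeg_of_etale p x hx
  obtain ⟨s, φ, hφi, hφ⟩ := exists_integral_inj_algHom_of_fg (ZMod p) B
  -- the dimension
  have hs : s = n := by
    let := φ.toRingHom.toAlgebra
    have : IsScalarTower (ZMod p) (MvPolynomial (Fin s) (ZMod p)) B :=
      IsScalarTower.of_algebraMap_eq' φ.comp_algebraMap.symm
    have : FaithfulSMul (MvPolynomial (Fin s) (ZMod p)) B :=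
      (faithfulSMul_iff_algebraMap_injective _ _).mpr hφi
    have : Algebra.IsIntegral (MvPolynomial (Fin s) (ZMod p)) B := ⟨hφ⟩
    have h1 := trdeg_add_eq (ZMod p) (MvPolynomial (Fin s) (ZMod p)) (A := B)
    rw [MvPolynomial.trdeg_of_isDomain, trdeg_eq_zero, htr] at h1
    simpa using h1
  subst hs
  let K := FractionRing B
  have hinj : Function.Injective (algebraMap B K) := IsFractionRing.injective B K
  let z : Fin s → B := fun i => φ (MvPolynomial.X i)
  have hz : φ = MvPolynomial.aeval z := by
    ext i
    simp [z]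
  have hint : ∀ b : B, IsIntegral (Algebra.adjoin (ZMod p)
      (Set.range fun i => algebraMap B K (z i))) (algebraMap B K b) := by
    intro b
    obtain ⟨P, hP, hPb⟩ := hφ b
    have hmem : ∀ c : MvPolynomial (Fin s) (ZMod p), algebraMap B K (φ c) ∈
        Algebra.adjoin (ZMod p) (Set.range fun i => algebraMap B K (z i)) := by
      intro c
      have : algebraMap B K (φ c) = MvPolynomial.aeval (fun i => algebraMap B K (z i)) c := by
        rw [hz, ← MvPolynomial.aeval_algebraMap_apply]
        rfl
      rw [this, ← MvPolynomial.aeval_range]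
      exact ⟨c, rfl⟩
    let χ : MvPolynomial (Fin s) (ZMod p) →+* Algebra.adjoin (ZMod p)
        (Set.range fun i => algebraMap B K (z i)) :=
      ((algebraMap B K).comp (φ : _ →+* B)).codRestrict _ hmem
    refine ⟨P.map χ, hP.map χ, ?_⟩
    rw [Polynomial.eval₂_map]
    have h2 : (algebraMap (Algebra.adjoin (ZMod p) (Set.range fun i => algebraMap B K (z i))) K).comp
        χ = (algebraMap B K).comp (φ : _ →+* B) := rfl
    rw [h2, ← Polynomial.hom_eval₂]
    have h3 : Polynomial.eval₂ (φ : _ →+* B) b P = 0 := hPb
    rw [h3, map_zero]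
  obtain ⟨e, he, hV⟩ := mem_of_shift p (fun i => algebraMap B K (z i))
    (fun i => algebraMap B K (x i)) (fun i => hint (x i))
  let t : Fin s → B := fun i => x i + z i ^ p ^ e
  have hunr := unram_shift p x z e he hx.formallyUnramified
  have hintt : (MvPolynomial.aeval t :
      MvPolynomial (Fin s) (ZMod p) →ₐ[ZMod p] B).toRingHom.IsIntegral := by
    let χ : MvPolynomial (Fin s) (ZMod p) →+* K := (algebraMap B K).comp
      (MvPolynomial.aeval t : MvPolynomial (Fin s) (ZMod p) →ₐ[ZMod p] B).toRingHom
    let := χ.toAlgebra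
    let R : Subring K := (integralClosure (MvPolynomial (Fin s) (ZMod p)) K).toSubring
    have hRt : ∀ c, χ c ∈ R := fun c =>
      (isIntegral_algebraMap : IsIntegral (MvPolynomial (Fin s) (ZMod p))
        (algebraMap (MvPolynomial (Fin s) (ZMod p)) K c))
    have hRz : ∀ i, algebraMap B K (z i) ∈ R := by
      intro i
      by_contra hn
      obtain ⟨V, hRV, hnV⟩ := R.exists_le_valuationSubring_of_isIntegrallyClosedIn hn
      apply hnV
      refine hV V (fun j => ?_) i
      have h1 := hRV (hRt (MvPolynomial.X j))
      simpa [χ, t] using h1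
    have hRφ : ∀ c : MvPolynomial (Fin s) (ZMod p), algebraMap B K (φ c) ∈ R := by
      intro c
      induction c using MvPolynomial.induction_on with
      | C a =>
        have : algebraMap B K (φ (MvPolynomial.C a)) = χ (MvPolynomial.C a) := by
          simp [χ, hz]
        rw [this]
        exact hRt _
      | add a b ha hb =>
        rw [map_add, map_add]
        exact R.add_mem ha hb
      | mul_X a i ha =>
        rw [map_mul, map_mul]
        exact R.mul_mem ha (hRz i)
    intro b
    have hbR : IsIntegral R (algebraMap B K b) := by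
      obtain ⟨P, hP, hPb⟩ := hφ b
      let χ' : MvPolynomial (Fin s) (ZMod p) →+* R :=
        ((algebraMap B K).comp (φ : _ →+* B)).codRestrict _ hRφ
      refine ⟨P.map χ', hP.map χ', ?_⟩
      rw [Polynomial.eval₂_map]
      have h2 : (algebraMap R K).comp χ' = (algebraMap B K).comp (φ : _ →+* B) := rfl
      rw [h2, ← Polynomial.hom_eval₂]
      have h3 : Polynomial.eval₂ (φ : _ →+* B) b P = 0 := hPb
      rw [h3, map_zero]
    have hbR' : algebraMap B K b ∈ R := (Subring.isIntegrallyClosedIn_iff).mp inferInstance hbR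
    obtain ⟨P, hP, hPb⟩ := hbR'
    refine ⟨P, hP, hinj ?_⟩
    rw [Polynomial.hom_eval₂, map_zero]
    exact hPb
  refine ⟨t, hunr, hintt, ?_, hft⟩
  have hadj : Algebra.IsAlgebraic (Algebra.adjoin (ZMod p) (Set.range t)) B := by
    refine ⟨fun b => IsIntegral.isAlgebraic ?_⟩
    obtain ⟨P, hP, hPb⟩ := hintt b
    have hmem : ∀ c : MvPolynomial (Fin s) (ZMod p), (MvPolynomial.aeval t c : B) ∈
        Algebra.adjoin (ZMod p) (Set.range t) := by
      intro c
      rw [← MvPolynomial.aeval_range]
      exact ⟨c, rfl⟩
    let χ : MvPolynomial (Fin s) (ZMod p) →+* Algebra.adjoin (ZMod p) (Set.range t) :=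
      ((MvPolynomial.aeval t : MvPolynomial (Fin s) (ZMod p) →ₐ[ZMod p] B) : _ →+* B).codRestrict
        _ hmem
    refine ⟨P.map χ, hP.map χ, ?_⟩
    rw [Polynomial.eval₂_map]
    exact hPb
  have := Algebra.IsAlgebraic.isTranscendenceBasis_of_le_trdeg_of_finite (ZMod p) t
    (by rw [htr]; simp)
  exact this.1

end Pool.Agent.Y135
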