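import Pool.Agent.Y135.Gal

set_option autoImplicit false
set_option maxHeartbeats 400000
open CategoryTheory Limits AlgebraicGeometry TensorProduct
namespace Pool.Agent.Y135

section
variable {K₀ K : Type} [Field K₀] [Field K] [Algebra K₀ K] {Y : Scheme.{0}}
  (f : Y ⟶ Spec (.of K₀)) (Ω : Type) [Field Ω] [Algebra K Ω] [Algebra K₀ Ω]
  [IsScalarTower K₀ K Ω]

/-- The base change of a scheme over `K₀` to `K`. -/
noncomputable abbrev bc (K : Type) [Field K] [Algebra K₀ K] :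
    pullback f (Spec.map (CommRingCat.ofHom (algebraMap K₀ K))) ⟶ Spec (.of K) :=
  pullback.snd _ _

/-- `(Y ⊗ K) ⊗_K Ω = Y ⊗ Ω`. -/
noncomputable def bcMor : geom (bc f K) Ω ⟶ geom f Ω :=
  pullback.lift (pullback.fst _ _ ≫ pullback.fst _ _) (pullback.snd _ _) (by
    rw [Category.assoc, pullback.condition, ← Category.assoc, pullback.condition,
      Category.assoc, ← Spec.map_comp, ← CommRingCat.ofHom_comp,
      ← IsScalarTower.algebraMap_eq])

theorem bcMor_fst : bcMor (K := K) f Ω ≫ pullback.fst _ _ = pullback.fst _ _ ≫ pullback.fst _ _ :=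
  pullback.lift_fst _ _ _

theorem bcMor_snd : bcMor (K := K) f Ω ≫ pullback.snd _ _ = pullback.snd _ _ :=
  pullback.lift_snd _ _ _

instance : IsIso (bcMor (K := K) f Ω) := by
  have h1 := IsPullback.of_hasPullback f (Spec.map (CommRingCat.ofHom (algebraMap K₀ K)))
  have h2 := IsPullback.of_hasPullback (bc f K) (Spec.map (CommRingCat.ofHom (algebraMap K Ω)))
  have h3 := h2.paste_horiz h1
  have e : Spec.map (CommRingCat.ofHom (algebraMap K Ω)) ≫
      Spec.map (CommRingCat.ofHom (algebraMap K₀ K)) =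
      Spec.map (CommRingCat.ofHom (algebraMap K₀ Ω)) := by
    rw [← Spec.map_comp, ← CommRingCat.ofHom_comp, ← IsScalarTower.algebraMap_eq]
  rw [e] at h3
  have h4 := IsPullback.of_hasPullback f (Spec.map (CommRingCat.ofHom (algebraMap K₀ Ω)))
  have h5 : bcMor (K := K) f Ω = (h3.isoIsPullback _ _ h4).hom := by
    apply pullback.hom_ext
    · rw [bcMor_fst]
      exact (h3.isoIsPullback_hom_fst _ _ h4).symm
    · rw [bcMor_snd]
      exact (h3.isoIsPullback_hom_snd _ _ h4).symm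
  rw [h5]
  infer_instance

variable {Ω}

theorem bcMor_gal (σ : Gal(Ω/K)) : galMor (bc f K) σ ≫ bcMor f Ω =
    bcMor f Ω ≫ galMor f (σ.restrictScalars K₀) := by
  apply pullback.hom_ext
  · rw [Category.assoc, Category.assoc, galMor_fst, bcMor_fst, ← Category.assoc, galMor_fst]
  · rw [Category.assoc, Category.assoc, galMor_snd, bcMor_snd, galMor_snd, ← Category.assoc,
      bcMor_snd]
    rfl

variable (ℓ : ℕ) [Fact ℓ.Prime]

/-- The equivariance of the comparison map. -/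
theorem galRep_bc (n : ℕ) (σ : Gal(Ω/K)) (x : CohQ ℓ (geom f Ω) n) :
    galRep (bc f K) Ω ℓ n σ (pullQ ℓ (bcMor f Ω) n x) =
      pullQ ℓ (bcMor f Ω) n (galRep f Ω ℓ n (σ.restrictScalars K₀) x) := by
  have h1 := pullQ_comp ℓ (galMor (bc f K) σ) (bcMor f Ω) _ rfl n
  have h2 := pullQ_comp ℓ (bcMor (K := K) f Ω) (galMor f (σ.restrictScalars K₀)) _
    (bcMor_gal f σ) n
  exact LinearMap.congr_fun (h1.symm.trans h2) x

end

/-- `ρ` is isomorphic to a subquotient of `M`. -/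
def IsSubquotient {G F V : Type*} [Group G] [Field F] [AddCommGroup V] [Module F V] {r : ℕ}
    (ρ : G →* GL (Fin r) F) (M : Representation F G V) : Prop :=
  ∃ (W : Submodule F V) (φ : W →ₗ[F] (Fin r → F)), Function.Surjective φ ∧
    ∀ (g : G) (w : W), ∃ h : M g w ∈ W, φ ⟨M g w, h⟩ = (ρ g : Matrix (Fin r) (Fin r) F).mulVec (φ w)

/-- Subquotients of the restriction along a homomorphism, and equivariant isomorphisms. -/
theorem IsSubquotient.transfer {G H F V V' : Type*} [Group G] [Group H] [Field F]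
    [AddCommGroup V] [Module F V] [AddCommGroup V'] [Module F V'] {r s : ℕ}
    {σ : G →* GL (Fin s) F} {ρ : H →* GL (Fin r) F} {M : Representation F G V}
    {M' : Representation F H V'} (hσ : IsSubquotient σ M) (j : H →* G)
    (θ : V ≃ₗ[F] V') (hθ : ∀ (h : H) (v : V), M' h (θ v) = θ (M (j h) v))
    (ψ : (Fin s → F) →ₗ[F] (Fin r → F)) (hψ : Function.Surjective ψ)
    (hψ' : ∀ (h : H) v, ψ ((σ (j h) : Matrix (Fin s) (Fin s) F).mulVec v) =
      (ρ h : Matrix (Fin r) (Fin r) F).mulVec (ψ v)) : IsSubquotient ρ M' := by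
  obtain ⟨W, φ, hφ, hW⟩ := hσ
  refine ⟨W.map θ.toLinearMap, ψ ∘ₗ φ ∘ₗ (θ.submoduleMap W).symm.toLinearMap, ?_, ?_⟩
  · exact hψ.comp (hφ.comp (θ.submoduleMap W).symm.surjective)
  · rintro h ⟨_, w, hw, rfl⟩
    obtain ⟨h1, h2⟩ := hW (j h) ⟨w, hw⟩
    have h3 : M' h (θ w) ∈ W.map θ.toLinearMap := ⟨M (j h) w, h1, (hθ h w).symm⟩
    refine ⟨h3, ?_⟩
    have e1 : (θ.submoduleMap W).symm ⟨M' h (θ w), h3⟩ = ⟨M (j h) w, h1⟩ := by
      rw [LinearEquiv.symm_apply_eq]
      apply Subtype.ext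
      exact hθ h w
    have e2 : (θ.submoduleMap W).symm ⟨θ w, ⟨w, hw, rfl⟩⟩ = ⟨w, hw⟩ := by
      rw [LinearEquiv.symm_apply_eq]
      rfl
    change ψ (φ ((θ.submoduleMap W).symm ⟨M' h (θ w), h3⟩)) =
      (ρ h : Matrix (Fin r) (Fin r) F).mulVec (ψ (φ ((θ.submoduleMap W).symm ⟨θ w, ⟨w, hw, rfl⟩⟩)))
    rw [e1, e2, h2, hψ']

end Pool.Agent.Y135
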