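import Mathlib

set_option autoImplicit false
set_option maxHeartbeats 400000
namespace Pool.Agent.Y135

open Module

section DetList
universe u
variable {F : Type*} [Field F] {ι N : Type*} {T : Type*} [AddCommGroup T] [Module F T]

/-- The determinant of a representation spanned by images of simple representations. -/
theorem det_list (B : ι → N → End F T)
    (hB : ∀ i (P : Submodule F T), (∀ n, P ≤ P.comap (B i n)) → P = ⊥ ∨ P = ⊤) (d : ℕ) :
    ∀ (U : Type u) [AddCommGroup U] [Module F U] [FiniteDimensional F U] (A : N → End F U)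
      (φ : ι → T →ₗ[F] U), (∀ i n t, A n (φ i t) = φ i (B i n t)) →
      (⨆ i, LinearMap.range (φ i)) = ⊤ → finrank F U ≤ d →
      ∃ l : List ι, (∀ n, LinearMap.det (A n) = (l.map fun i => LinearMap.det (B i n)).prod) ∧
        (l = [] → Subsingleton U) := by
  induction d with
  | zero =>
    intro U _ _ _ A φ _ _ hd
    have hU : Subsingleton U := finrank_zero_iff.mp (Nat.le_zero.mp hd)
    refine ⟨[], fun n => ?_, fun _ => hU⟩
    rw [List.map_nil, List.prod_nil]
    have : A n = LinearMap.id := by
      ext x
      exact Subsingleton.elim _ _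
    rw [this, LinearMap.det_id]
  | succ d ih =>
    intro U _ _ _ A φ hφ hs hd
    by_cases h0 : ∀ i, φ i = 0
    · have hU : Subsingleton U := by
        have : (⊤ : Submodule F U) = ⊥ := by
          rw [← hs]
          simp [h0]
        exact (Submodule.subsingleton_iff F).mp (subsingleton_of_bot_eq_top this.symm)
      refine ⟨[], fun n => ?_, fun _ => hU⟩
      rw [List.map_nil, List.prod_nil]
      have : A n = LinearMap.id := by
        ext x
        exact Subsingleton.elim _ _
      rw [this, LinearMap.det_id]
    · push Not at h0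
      obtain ⟨i, hi⟩ := h0
      have hker : LinearMap.ker (φ i) = ⊥ := by
        rcases hB i (LinearMap.ker (φ i)) (fun n t ht => by
          rw [Submodule.mem_comap, LinearMap.mem_ker, ← hφ, LinearMap.mem_ker.mp ht, map_zero])
          with h | h
        · exact h
        · exact absurd (LinearMap.ker_eq_top.mp h) hi
      set P := LinearMap.range (φ i) with hP
      have hinv : ∀ n, P ≤ P.comap (A n) := by
        rintro n _ ⟨t, rfl⟩
        exact ⟨B i n t, (hφ i n t).symm⟩
      have hPne : P ≠ ⊥ := by
        rw [hP, Ne, LinearMap.range_eq_bot]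
        exact hi
      have hrank : finrank F (U ⧸ P) ≤ d := by
        have h1 := Submodule.finrank_quotient_add_finrank P
        have h2 : 0 < finrank F P := by
          rw [pos_iff_ne_zero, Ne, Submodule.finrank_eq_zero]
          exact hPne
        omega
      obtain ⟨l, hl, -⟩ := ih (U ⧸ P) (fun n => P.mapQ P (A n) (hinv n))
        (fun j => P.mkQ ∘ₗ φ j) (fun j n t => by
          simp only [LinearMap.comp_apply, Submodule.mkQ_apply, Submodule.mapQ_apply, hφ])
        (by
          have : (⨆ j, LinearMap.range (P.mkQ ∘ₗ φ j)) =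
              Submodule.map P.mkQ (⨆ j, LinearMap.range (φ j)) := by
            rw [Submodule.map_iSup]
            congr 1
            funext j
            rw [LinearMap.range_comp]
          rw [this, hs, Submodule.map_top, Submodule.range_mkQ]) hrank
      refine ⟨i :: l, fun n => ?_, fun h => absurd h (by simp)⟩
      rw [LinearMap.det_eq_det_mul_det P (A n) (hinv n), hl n, List.map_cons, List.prod_cons]
      congr 1
      let e : T ≃ₗ[F] P := LinearEquiv.ofInjective (φ i) (LinearMap.ker_eq_bot.mp hker)
      rw [← LinearMap.det_conj (B i n) e]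
      congr 1
      ext ⟨_, t, rfl⟩
      have : e.symm ⟨φ i t, ⟨t, rfl⟩⟩ = t := by
        rw [LinearEquiv.symm_apply_eq]
        rfl
      simp only [LinearMap.coe_comp, LinearEquiv.coe_coe, Function.comp_apply]
      erw [this]
      exact hφ i n t

end DetList

/-- Minimal nonzero invariant subspaces. -/
theorem exists_minimal {F U N : Type*} [Field F] [AddCommGroup U] [Module F U]
    [FiniteDimensional F U] (A : N → End F U) (Q : Submodule F U) (hQ : Q ≠ ⊥)
    (hQA : ∀ n, Q ≤ Q.comap (A n)) :
    ∃ T : Submodule F U, T ≤ Q ∧ T ≠ ⊥ ∧ (∀ n, T ≤ T.comap (A n)) ∧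
      ∀ P : Submodule F U, P ≤ T → (∀ n, P ≤ P.comap (A n)) → P = ⊥ ∨ P = T := by
  classical
  let S : Set (Submodule F U) := {T | T ≤ Q ∧ T ≠ ⊥ ∧ ∀ n, T ≤ T.comap (A n)}
  have hS : S.Nonempty := ⟨Q, le_rfl, hQ, hQA⟩
  obtain ⟨T, hT, hm⟩ := WellFounded.has_min (r := (· < · : Submodule F U → _ → Prop))
    wellFounded_lt S hS
  refine ⟨T, hT.1, hT.2.1, hT.2.2, fun P hP hPA => ?_⟩
  by_contra! h
  exact hm P ⟨hP.trans hT.1, h.1, hPA⟩ (lt_of_le_of_ne hP h.2)

end Pool.Agent.Y135
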