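import Pool.Agent.Y135.Clif

set_option autoImplicit false
set_option maxHeartbeats 400000
namespace Pool.Agent.Y135

open Module

theorem prod_list_comm {α ι F : Type*} [CommMonoid F] [Fintype α] (l : List ι) (f : α → ι → F) :
    ∏ x, (l.map (f x)).prod = (l.map fun i => ∏ x, f x i).prod := by
  induction l with
  | nil => simp
  | cons i l ih =>
    simp only [List.map_cons, List.prod_cons]
    rw [Finset.prod_mul_distrib, ih]

section
variable {G F W V : Type*} [Group G] [Field F] [AddCommGroup W] [Module F W]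
  [FiniteDimensional F W] [AddCommGroup V] [Module F V] [FiniteDimensional F V] [Nontrivial V]

/-- Restriction of a representation to a subgroup and an invariant subspace. -/
def resRep (N : Subgroup G) (A : G →* End F W) (T : Submodule F W)
    (hT : ∀ n : N, T ≤ T.comap (A n)) : N →* End F T where
  toFun n := (A n).restrict (hT n)
  map_one' := by
    ext t
    simp
  map_mul' a b := by
    ext t
    simp

theorem det_finite (N : Subgroup G) [N.Normal] [N.FiniteIndex] (A : G →* End F W)
    (hA : ∀ P : Submodule F W, (∀ g, P ≤ P.comap (A g)) → P = ⊥ ∨ P = ⊤)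
    (C : N → End F V) (ψ : W →ₗ[F] V) (hψ : Function.Surjective ψ)
    (hC : ∀ (n : N) w, ψ (A n w) = C n (ψ w)) (m : ℕ) (hm : 0 < m)
    (hdet : ∀ n, LinearMap.det (C n) ^ m = 1) :
    ∃ M : ℕ, 0 < M ∧ ∀ g, LinearMap.det (A g) ^ M = 1 := by
  classical
  have hW : (⊤ : Submodule F W) ≠ ⊥ := by
    intro h
    obtain ⟨v, hv⟩ := exists_ne (0 : V)
    obtain ⟨w, rfl⟩ := hψ v
    have : w ∈ (⊤ : Submodule F W) := trivial
    rw [h, Submodule.mem_bot] at this
    exact hv (by rw [this, map_zero])
  obtain ⟨T, -, hT0, hT, hmin⟩ := exists_minimal (fun n : N => A n) ⊤ hW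
    (fun n w _ => trivial)
  let τ := resRep N A T hT
  let δ : N →* F := LinearMap.det.comp τ
  let B : G → N → End F T := fun g n => τ (MulAut.conjNormal g⁻¹ n)
  have hB : ∀ g (P : Submodule F T), (∀ n, P ≤ P.comap (B g n)) → P = ⊥ ∨ P = ⊤ := by
    intro g P hP
    have hP' : ∀ n : N, P ≤ P.comap (τ n) := by
      intro n
      have := hP (MulAut.conjNormal g n)
      have e : MulAut.conjNormal g⁻¹ (MulAut.conjNormal g n) = n := by
        rw [← MulAut.mul_apply, ← map_mul, inv_mul_cancel, map_one, MulAut.one_apply]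
      change P ≤ P.comap (τ (MulAut.conjNormal g⁻¹ (MulAut.conjNormal g n))) at this
      rwa [e] at this
    rcases hmin (P.map T.subtype) (Submodule.map_subtype_le T P) (by
      rintro n _ ⟨t, ht, rfl⟩
      exact ⟨τ n t, hP' n ht, rfl⟩) with h | h
    · left
      rw [eq_bot_iff]
      intro t ht
      have h1 : (t : W) ∈ P.map T.subtype := ⟨t, ht, rfl⟩
      rw [h, Submodule.mem_bot] at h1
      exact (Submodule.mem_bot F).mpr (Subtype.ext h1)
    · right
      rw [eq_top_iff]
      intro t _
      have h1 : (t : W) ∈ P.map T.subtype := by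
        rw [h]
        exact t.2
      obtain ⟨t', ht', e⟩ := h1
      have : t' = t := Subtype.ext e
      rwa [← this]
  have hconj : ∀ (g : G) (n : N), (n : G) * g = g * (MulAut.conjNormal g⁻¹ n : N) := by
    intro g n
    rw [MulAut.conjNormal_apply]
    group
  -- the spanning family of `W`
  have hφ : ∀ g (n : N) (t : T), A n ((A g ∘ₗ T.subtype) t) = (A g ∘ₗ T.subtype) (B g n t) := by
    intro g n t
    change A n (A g t) = A g (A (MulAut.conjNormal g⁻¹ n : N) t)
    rw [← Module.End.mul_apply, ← Module.End.mul_apply, ← map_mul, ← map_mul, hconj]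
  have hspan : (⨆ g, LinearMap.range (A g ∘ₗ T.subtype)) = ⊤ := by
    rcases hA (⨆ g, LinearMap.range (A g ∘ₗ T.subtype)) (by
      intro g
      rw [iSup_le_iff]
      rintro g' _ ⟨t, rfl⟩
      rw [Submodule.mem_comap]
      refine Submodule.mem_iSup_of_mem (g * g') ⟨t, ?_⟩
      change A (g * g') t = A g (A g' t)
      rw [map_mul]
      rfl) with h | h
    · exfalso
      apply hT0
      rw [eq_bot_iff]
      intro t ht
      rw [← h]
      refine Submodule.mem_iSup_of_mem 1 ⟨⟨t, ht⟩, ?_⟩
      simp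
    · exact h
  obtain ⟨l, hl, -⟩ := det_list B hB (finrank F W) W (fun n : N => A n) (fun g => A g ∘ₗ T.subtype)
    hφ hspan le_rfl
  obtain ⟨l', hl', hne⟩ := det_list B hB (finrank F V) V C (fun g => ψ ∘ₗ A g ∘ₗ T.subtype)
    (by
      intro g n t
      exact (hC n _).symm.trans (congrArg ψ (hφ g n t))) (by
      have : (⨆ j, LinearMap.range (ψ ∘ₗ A j ∘ₗ T.subtype)) =
          Submodule.map ψ (⨆ j, LinearMap.range (A j ∘ₗ T.subtype)) := by
        rw [Submodule.map_iSup]
        congr 1
        funext j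
        rw [LinearMap.range_comp]
      rw [this, hspan, Submodule.map_top, LinearMap.range_eq_top.mpr hψ]) le_rfl
  have hlen : 0 < l'.length := by
    rw [List.length_pos_iff]
    intro h
    have := hne h
    exact (not_subsingleton_iff_nontrivial.mpr inferInstance) this
  -- the product over the conjugates
  have : Finite (G ⧸ N) := inferInstance
  let : Fintype (G ⧸ N) := Fintype.ofFinite _
  let D : N → F := fun n => ∏ q : G ⧸ N, δ (MulAut.conjNormal q.out⁻¹ n)
  have hδconj : ∀ (k y : N), δ (k⁻¹ * y * k) = δ y := by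
    intro k y
    rw [map_mul, map_mul, mul_comm (δ k⁻¹), mul_assoc, ← map_mul, inv_mul_cancel, map_one, mul_one]
  have hf : ∀ (n : N) (x y : G), (x : G ⧸ N) = (y : G ⧸ N) →
      δ (MulAut.conjNormal x⁻¹ n) = δ (MulAut.conjNormal y⁻¹ n) := by
    intro n x y hxy
    have hk : x⁻¹ * y ∈ N := QuotientGroup.eq.mp hxy
    rw [← hδconj ⟨x⁻¹ * y, hk⟩ (MulAut.conjNormal x⁻¹ n)]
    congr 1
    apply Subtype.ext
    simp only [Subgroup.coe_mul, Subgroup.coe_inv, MulAut.conjNormal_apply]
    group
  have hD : ∀ (n : N) (g : G),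
      ∏ q : G ⧸ N, δ (MulAut.conjNormal g⁻¹ (MulAut.conjNormal q.out⁻¹ n)) = D n := by
    intro n g
    refine Eq.trans ?_ (Equiv.prod_comp (Equiv.mulRight (g : G ⧸ N)) (fun q : G ⧸ N =>
      δ (MulAut.conjNormal q.out⁻¹ n)))
    apply Finset.prod_congr rfl
    intro q _
    have e1 : MulAut.conjNormal g⁻¹ (MulAut.conjNormal q.out⁻¹ n) =
        MulAut.conjNormal (q.out * g)⁻¹ n := by
      rw [← MulAut.mul_apply, ← map_mul, mul_inv_rev]
    rw [e1]
    apply hf
    rw [Equiv.coe_mulRight, QuotientGroup.out_eq', QuotientGroup.mk_mul, QuotientGroup.out_eq']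
  have key : ∀ (n : N) (L : List G), ∏ q : G ⧸ N, (L.map fun i =>
      LinearMap.det (B i (MulAut.conjNormal q.out⁻¹ n))).prod = D n ^ L.length := by
    intro n L
    rw [prod_list_comm]
    have : (fun i => ∏ q : G ⧸ N, LinearMap.det (B i (MulAut.conjNormal q.out⁻¹ n))) =
        fun _ => D n := funext fun i => hD n i
    rw [this, List.map_const', List.prod_replicate]
  let a : G →* F := LinearMap.det.comp A
  have ha : ∀ (n : N) (x : G), a ((MulAut.conjNormal x⁻¹ n : N) : G) = a n := by
    intro n x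
    rw [MulAut.conjNormal_apply, map_mul, map_mul, mul_comm (a x⁻¹), mul_assoc, ← map_mul]
    simp
  have hW' : ∀ n : N, a n ^ Fintype.card (G ⧸ N) = D n ^ l.length := by
    intro n
    rw [← key n l, ← Finset.card_univ, ← Finset.prod_const]
    apply Finset.prod_congr rfl
    intro q _
    rw [← hl]
    exact (ha n q.out).symm
  have hV' : ∀ n : N, D n ^ (m * l'.length) = 1 := by
    intro n
    rw [mul_comm, pow_mul, ← key n l', ← Finset.prod_pow]
    apply Finset.prod_eq_one
    intro q _
    rw [← hl']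
    exact hdet _
  have hN : ∀ n : N, a n ^ (Fintype.card (G ⧸ N) * (m * l'.length)) = 1 := by
    intro n
    rw [pow_mul, hW' n, ← pow_mul, mul_comm, pow_mul, hV' n, one_pow]
  refine ⟨Fintype.card (G ⧸ N) * (Fintype.card (G ⧸ N) * (m * l'.length)), ?_, fun g => ?_⟩
  · have := Fintype.card_pos (α := G ⧸ N)
    positivity
  · have hg : g ^ Fintype.card (G ⧸ N) ∈ N := by
      rw [← QuotientGroup.eq_one_iff, QuotientGroup.mk_pow]
      exact pow_card_eq_one
    have := hN ⟨_, hg⟩
    rw [pow_mul]
    change (a g ^ _) ^ _ = 1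
    rw [← map_pow]
    exact this

end

end Pool.Agent.Y135
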