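import Mathlib

set_option autoImplicit false
set_option maxHeartbeats 400000
open CategoryTheory Limits Abelian
universe w w' w'' u u' u'' v v' v''
namespace Pool.Agent.Y135

section

variable {C : Type u} [Category.{v} C] [Abelian C] [HasExt.{w} C] [EnoughInjectives C]

/-- Every class of degree `n + 1` is a class of degree `n` followed by the class of a short
exact sequence. -/
theorem exists_comp_extClass {X Y : C} {n : ℕ} (x : Ext.{w} X Y (n + 1)) :
    ∃ (Z Q : C) (f : Y ⟶ Z) (g : Z ⟶ Q) (h : f ≫ g = 0)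
      (hS : (ShortComplex.mk f g h).ShortExact) (y : Ext.{w} X Q n),
      y.comp (hS.extClass) rfl = x := by
  let S := ShortComplex.mk _ _ (cokernel.condition (Injective.ι Y))
  have hS : S.ShortExact :=
    { exact := ShortComplex.exact_of_g_is_cokernel _ (cokernelIsCokernel S.f) }
  obtain ⟨y, hy⟩ := Ext.covariant_sequence_exact₁ X hS x (Ext.eq_zero_of_injective _) rfl
  exact ⟨_, _, _, _, _, hS, y, hy⟩

theorem ext_induction {motive : ∀ (X Y : C) (n : ℕ), Ext.{w} X Y n → Prop}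
    (h0 : ∀ (X Y : C) (f : X ⟶ Y), motive X Y 0 (Ext.mk₀ f))
    (h1 : ∀ (X : C) (n : ℕ) (S : ShortComplex C) (hS : S.ShortExact) (y : Ext.{w} X S.X₃ n),
      motive X S.X₃ n y → motive X S.X₁ (n + 1) (y.comp hS.extClass rfl))
    {X Y : C} {n : ℕ} (x : Ext.{w} X Y n) : motive X Y n x := by
  induction n generalizing X Y with
  | zero =>
    obtain ⟨f, rfl⟩ := (Ext.mk₀_bijective X Y).2 x
    exact h0 X Y f
  | succ n ih =>
    obtain ⟨Z, Q, f, g, h, hS, y, rfl⟩ := exists_comp_extClass x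
    exact h1 X n _ hS y (ih y)

variable {D : Type u'} [Category.{v'} D] [Abelian D] [HasExt.{w'} D]
variable (F G : C ⥤ D) [F.Additive] [PreservesFiniteLimits F] [PreservesFiniteColimits F]
  [G.Additive] [PreservesFiniteLimits G] [PreservesFiniteColimits G]

/-- Naturality of the maps on `Ext` induced by exact functors. -/
theorem mapExt_natural (α : F ⟶ G) {X Y : C} {n : ℕ} (x : Ext.{w} X Y n) :
    (x.mapExactFunctor F).comp (Ext.mk₀ (α.app Y)) (add_zero n) =
      (Ext.mk₀ (α.app X)).comp (x.mapExactFunctor G) (zero_add n) := by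
  induction x using ext_induction with
  | h0 X Y f => simp [Ext.mapExactFunctor_mk₀]
  | h1 X n S hS y ih =>
    have h := ShortComplex.ShortExact.extClass_naturality (hS.map_of_exact F) (hS.map_of_exact G)
      (S.mapNatTrans α)
    have h' : ((hS.extClass.mapExactFunctor F).comp (Ext.mk₀ (α.app S.X₁)) (add_zero 1)) =
        (Ext.mk₀ (α.app S.X₃)).comp (hS.extClass.mapExactFunctor G) (zero_add 1) := by
      rw [Ext.mapExactFunctor_extClass, Ext.mapExactFunctor_extClass]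
      exact h
    rw [Ext.mapExactFunctor_comp, Ext.mapExactFunctor_comp,
      Ext.comp_assoc _ _ _ rfl (add_zero 1) (by omega), h',
      ← Ext.comp_assoc _ _ _ (add_zero n) (zero_add 1) (by omega), ih,
      Ext.comp_assoc _ _ _ (zero_add n) rfl (by omega)]

variable {E : Type u''} [Category.{v''} E] [Abelian E] [HasExt.{w''} E]
variable (H : D ⥤ E) [H.Additive] [PreservesFiniteLimits H] [PreservesFiniteColimits H]

omit [EnoughInjectives C] in
theorem mapExt_comp_extClass [(F ⋙ H).Additive] [PreservesFiniteLimits (F ⋙ H)]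
    [PreservesFiniteColimits (F ⋙ H)] {S : ShortComplex C} (hS : S.ShortExact) :
    hS.extClass.mapExactFunctor (F ⋙ H) =
        (hS.extClass.mapExactFunctor F).mapExactFunctor H := by
  have h1 := Ext.mapExactFunctor_extClass (F ⋙ H) hS
  have h2 : (hS.extClass.mapExactFunctor F).mapExactFunctor H =
      ((hS.map_of_exact F).extClass).mapExactFunctor H :=
    congrArg (Ext.mapExactFunctor H) (Ext.mapExactFunctor_extClass F hS)
  have h3 := Ext.mapExactFunctor_extClass H (hS.map_of_exact F)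
  exact h1.trans (h3.symm.trans h2.symm)

/-- The maps on `Ext` induced by a composition of exact functors. -/
theorem mapExt_comp [(F ⋙ H).Additive] [PreservesFiniteLimits (F ⋙ H)]
    [PreservesFiniteColimits (F ⋙ H)] {X Y : C} {n : ℕ} (x : Ext.{w} X Y n) :
    x.mapExactFunctor (F ⋙ H) = (x.mapExactFunctor F).mapExactFunctor H := by
  induction x using ext_induction with
  | h0 X Y f => simp [Ext.mapExactFunctor_mk₀]
  | h1 X n S hS y ih =>
    rw [Ext.mapExactFunctor_comp, Ext.mapExactFunctor_comp, Ext.mapExactFunctor_comp, ih,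
      mapExt_comp_extClass F H hS]

theorem mapExt_id {X Y : C} {n : ℕ} (x : Ext.{w} X Y n) :
    x.mapExactFunctor (𝟭 C) = x := by
  induction x using ext_induction with
  | h0 X Y f => simp [Ext.mapExactFunctor_mk₀]
  | h1 X n S hS y ih =>
    have h : hS.extClass.mapExactFunctor (𝟭 C) = hS.extClass :=
      Ext.mapExactFunctor_extClass (𝟭 C) hS
    rw [Ext.mapExactFunctor_comp, ih, h]

/-- `x ↦ a ∘ F(x) ∘ b`. -/
noncomputable def tw {A B : C} {A' B' : D} (a : A' ⟶ F.obj A) (b : F.obj B ⟶ B') (n : ℕ) :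
    Ext.{w} A B n →+ Ext.{w'} A' B' n where
  toFun x := ((Ext.mk₀ a).comp (Ext.mapExactFunctor F x) (zero_add n)).comp
    (Ext.mk₀ b) (add_zero n)
  map_zero' := by rw [Ext.mapExactFunctor_zero, Ext.comp_zero, Ext.zero_comp]
  map_add' x y := by rw [Ext.mapExactFunctor_add, Ext.comp_add, Ext.add_comp]

omit [EnoughInjectives C] in
theorem tw_apply {A B : C} {A' B' : D} (a : A' ⟶ F.obj A) (b : F.obj B ⟶ B') (n : ℕ)
    (x : Ext.{w} A B n) : tw F a b n x =
      ((Ext.mk₀ a).comp (Ext.mapExactFunctor F x) (zero_add n)).comp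
    (Ext.mk₀ b) (add_zero n) := rfl

theorem tw_nat (α : F ⟶ G) {A B : C} {A' B' : D} (a : A' ⟶ F.obj A) (b : G.obj B ⟶ B') (n : ℕ)
    (x : Ext.{w} A B n) : tw F a (α.app B ≫ b) n x = tw G (a ≫ α.app A) b n x := by
  rw [tw_apply, tw_apply, ← Ext.mk₀_comp_mk₀, ← Ext.mk₀_comp_mk₀,
    ← Ext.comp_assoc _ _ _ (add_zero n) (add_zero 0) (by omega),
    Ext.comp_assoc (Ext.mk₀ a) _ (Ext.mk₀ (α.app B)) (zero_add n) (add_zero n) (by omega),
    mapExt_natural F G α x,
    Ext.comp_assoc (Ext.mk₀ a) (Ext.mk₀ (α.app A)) _ (zero_add 0) (zero_add n) (by omega)]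

theorem tw_tw [(F ⋙ H).Additive] [PreservesFiniteLimits (F ⋙ H)]
    [PreservesFiniteColimits (F ⋙ H)] {A B : C} {A' B' : D} {A'' B'' : E}
    (a : A' ⟶ F.obj A) (b : F.obj B ⟶ B') (a' : A'' ⟶ H.obj A') (b' : H.obj B' ⟶ B'') (n : ℕ)
    (x : Ext.{w} A B n) : tw H a' b' n (tw F a b n x) =
      tw (F ⋙ H) (a' ≫ H.map a) (H.map b ≫ b') n x := by
  rw [tw_apply, tw_apply, tw_apply, mapExt_comp, Ext.mapExactFunctor_comp,
    Ext.mapExactFunctor_comp, Ext.mapExactFunctor_mk₀, Ext.mapExactFunctor_mk₀,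
    ← Ext.mk₀_comp_mk₀, ← Ext.mk₀_comp_mk₀,
    ← Ext.comp_assoc _ _ _ (add_zero n) (add_zero 0) (by omega),
    Ext.comp_assoc (Ext.mk₀ a') (Ext.mk₀ (H.map a)) _ (zero_add 0) (zero_add n) (by omega),
    ← Ext.comp_assoc (Ext.mk₀ a') _ (Ext.mk₀ (H.map b)) (zero_add n) (add_zero n) (by omega)]

theorem tw_id {A B A' B' : C} (a : A' ⟶ A) (b : B ⟶ B') (n : ℕ)
    (x : Ext.{w} A B n) : tw (𝟭 C) a b n x =
      ((Ext.mk₀ a).comp x (zero_add n)).comp (Ext.mk₀ b) (add_zero n) := by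
  rw [tw_apply, mapExt_id]

omit [EnoughInjectives C] in
theorem tw_post {A B : C} {A' B' B'' : D} (a : A' ⟶ F.obj A) (b : F.obj B ⟶ B') (b' : B' ⟶ B'')
    (n : ℕ) (x : Ext.{w} A B n) : (tw F a b n x).comp (Ext.mk₀ b') (add_zero n) =
      tw F a (b ≫ b') n x := by
  rw [tw_apply, tw_apply, ← Ext.mk₀_comp_mk₀,
    ← Ext.comp_assoc _ _ _ (add_zero n) (add_zero 0) (by omega)]

omit [EnoughInjectives C] in
theorem tw_pre {A B B₀ : C} {A' B' : D} (a : A' ⟶ F.obj A) (b : F.obj B ⟶ B') (c : B₀ ⟶ B)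
    (n : ℕ) (x : Ext.{w} A B₀ n) : tw F a b n (x.comp (Ext.mk₀ c) (add_zero n)) =
      tw F a (F.map c ≫ b) n x := by
  rw [tw_apply, tw_apply, ← Ext.mk₀_comp_mk₀, Ext.mapExactFunctor_comp, Ext.mapExactFunctor_mk₀,
    ← Ext.comp_assoc _ _ _ (add_zero n) (add_zero 0) (by omega),
    ← Ext.comp_assoc _ _ _ (zero_add n) (add_zero n) (by omega)]

end

section

variable {C : Type u} [Category.{v} C] [Abelian C] [HasExt.{w} C]

/-- An action of a ring on `B` gives a module structure on `Ext A B n`. -/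
@[reducible] noncomputable def extModule {R : Type*} [Ring R] (A B : C) (s : R → (B ⟶ B))
    (h1 : s 1 = 𝟙 B) (hm : ∀ a b, s (a * b) = s b ≫ s a) (ha : ∀ a b, s (a + b) = s a + s b)
    (h0 : s 0 = 0) (n : ℕ) : Module R (Ext.{w} A B n) where
  smul a x := x.comp (Ext.mk₀ (s a)) (add_zero n)
  one_smul x := by
    change x.comp (Ext.mk₀ (s 1)) (add_zero n) = x
    rw [h1, Ext.comp_mk₀_id]
  mul_smul a b x := by
    change x.comp (Ext.mk₀ (s (a * b))) (add_zero n) =
      (x.comp (Ext.mk₀ (s b)) (add_zero n)).comp (Ext.mk₀ (s a)) (add_zero n)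
    rw [hm, ← Ext.mk₀_comp_mk₀, ← Ext.comp_assoc _ _ _ (add_zero n) (add_zero 0) (by omega)]
  smul_zero a := by
    change Ext.comp 0 (Ext.mk₀ (s a)) (add_zero n) = 0
    rw [Ext.zero_comp]
  smul_add a x y := by
    change (x + y).comp (Ext.mk₀ (s a)) (add_zero n) =
      x.comp (Ext.mk₀ (s a)) (add_zero n) + y.comp (Ext.mk₀ (s a)) (add_zero n)
    rw [Ext.add_comp]
  add_smul a b x := by
    change x.comp (Ext.mk₀ (s (a + b))) (add_zero n) =
      x.comp (Ext.mk₀ (s a)) (add_zero n) + x.comp (Ext.mk₀ (s b)) (add_zero n)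
    rw [ha, Ext.mk₀_add, Ext.comp_add]
  zero_smul x := by
    change x.comp (Ext.mk₀ (s 0)) (add_zero n) = 0
    rw [h0, Ext.mk₀_zero, Ext.comp_zero]

end

end Pool.Agent.Y135
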