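import Pool.Agent.Y135.Site
import Pool.Agent.Y135.ExtMap

set_option autoImplicit false
set_option maxHeartbeats 400000
open CategoryTheory Limits AlgebraicGeometry Opposite Abelian
universe u
namespace Pool.Agent.Y135

variable {X X' X'' : Scheme.{u}}

/-- The morphism from the constant presheaf `ℤ` to the constant sheaf. -/
noncomputable def toConst (X : Scheme.{u}) :
    (Functor.const X.ProEtᵒᵖ).obj (AddCommGrpCat.of (ULift.{u + 1} ℤ)) ⟶ (constZ X).obj :=
  toSheafify (Scheme.ProEt.topology X) ((Functor.const _).obj (AddCommGrpCat.of (ULift.{u + 1} ℤ)))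

/-- The canonical morphism of constant sheaves: the morphism `constZ X ⟶ res f (constZ X')`
that extends the morphism of presheaves `ℤ ⟶ constZ X'`. -/
noncomputable def resConst (f : X ⟶ X') [WeaklyEtale f] : constZ X ⟶ (res f).obj (constZ X') where
  hom := sheafifyLift _ (Functor.whiskerLeft (siteMap f).op (toConst X'))
    ((res f).obj (constZ X')).property

theorem toConst_res (f : X ⟶ X') [WeaklyEtale f] :
    toConst X ≫ (resConst f).hom =
      (Functor.whiskerLeft (siteMap f).op (toConst X') :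
        (Functor.const X.ProEtᵒᵖ).obj (AddCommGrpCat.of (ULift.{u + 1} ℤ)) ⟶
          ((res f).obj (constZ X')).obj) :=
  toSheafify_sheafifyLift _ _ _

theorem constZ_ext {F : Shv X} {a b : constZ X ⟶ F}
    (h : toConst X ≫ a.hom = toConst X ≫ b.hom) : a = b := by
  apply ObjectProperty.hom_ext
  exact sheafify_hom_ext _ _ _ F.property h

/-- Pullback on `ℓ`-adic cohomology along weakly étale morphisms. -/
noncomputable def pull (f : X ⟶ X') [WeaklyEtale f] (ℓ : ℕ) [Fact ℓ.Prime] (n : ℕ) :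
    X'.EllAdicCohomology ℓ n →+ X.EllAdicCohomology ℓ n :=
  haveI := hasExt_shv X
  haveI := hasExt_shv X'
  tw (res f) (resConst f) (resEll f ℓ).hom n

noncomputable def siteMapId (f : X ⟶ X) [WeaklyEtale f] (hf : f = 𝟙 X) : siteMap f ≅ 𝟭 _ :=
  MorphismProperty.Over.mapId ⊤ X f hf

noncomputable def siteMapComp (f : X ⟶ X') (g : X' ⟶ X'') (h : X ⟶ X'') (e : h = f ≫ g)
    [WeaklyEtale f] [WeaklyEtale g] [WeaklyEtale h] :
    siteMap h ≅ siteMap f ⋙ siteMap g :=
  MorphismProperty.Over.mapComp ⊤ _ _ h e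

instance (f : X ⟶ X') (g : X' ⟶ X'') [WeaklyEtale f] [WeaklyEtale g] :
    (siteMap f ⋙ siteMap g).IsContinuous (Scheme.ProEt.topology X)
      (Scheme.ProEt.topology X'') :=
  Functor.isContinuous_comp _ _ _ (Scheme.ProEt.topology X') _

/-- `F(U → X → X' → X'')`, two ways. -/
noncomputable def resComp (f : X ⟶ X') (g : X' ⟶ X'') (h : X ⟶ X'') (e : h = f ≫ g)
    [WeaklyEtale f] [WeaklyEtale g] [WeaklyEtale h] : res h ⟶ res g ⋙ res f :=
  Functor.sheafPushforwardContinuousNatTrans (siteMapComp f g h e).inv _ _ _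

noncomputable def resId (f : X ⟶ X) [WeaklyEtale f] (hf : f = 𝟙 X) : res f ⟶ 𝟭 _ :=
  Functor.sheafPushforwardContinuousNatTrans (siteMapId f hf).inv _ _ _

theorem resEll_id (f : X ⟶ X) [WeaklyEtale f] (hf : f = 𝟙 X) (ℓ : ℕ) [Fact ℓ.Prime] :
    (resId f hf).app (ell X ℓ) = (resEll f ℓ).hom := by
  apply ObjectProperty.hom_ext
  ext U x
  rfl

theorem resEll_comp (f : X ⟶ X') (g : X' ⟶ X'') (h : X ⟶ X'') (e : h = f ≫ g)
    [WeaklyEtale f] [WeaklyEtale g] [WeaklyEtale h] (ℓ : ℕ) [Fact ℓ.Prime] :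
    (resComp f g h e).app (ell X'' ℓ) ≫
      ((res f).map (resEll g ℓ).hom ≫ (resEll f ℓ).hom) = (resEll h ℓ).hom := by
  apply ObjectProperty.hom_ext
  ext U x
  rfl

theorem resConst_id (f : X ⟶ X) [WeaklyEtale f] (hf : f = 𝟙 X) :
    resConst f ≫ (resId f hf).app (constZ X) = 𝟙 _ := by
  apply constZ_ext
  have e : (resConst f ≫ (resId f hf).app (constZ X)).hom =
    (resConst f).hom ≫ ((resId f hf).app (constZ X)).hom := rfl
  rw [e, ← Category.assoc, toConst_res]
  ext U : 2
  have h := (toConst X).naturality ((siteMapId f hf).inv.app U.unop).op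
  refine Eq.trans h.symm ?_
  rfl

theorem resConst_comp (f : X ⟶ X') (g : X' ⟶ X'') (h : X ⟶ X'') (e : h = f ≫ g)
    [WeaklyEtale f] [WeaklyEtale g] [WeaklyEtale h] :
    resConst h ≫ (resComp f g h e).app (constZ X'') =
      resConst f ≫ (res f).map (resConst g) := by
  apply constZ_ext
  have e1 : (resConst h ≫ (resComp f g h e).app (constZ X'')).hom =
    (resConst h).hom ≫ ((resComp f g h e).app (constZ X'')).hom := rfl
  have e2 : (resConst f ≫ (res f).map (resConst g)).hom =
    (resConst f).hom ≫ ((res f).map (resConst g)).hom := rfl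
  rw [e1, e2, ← Category.assoc, ← Category.assoc, toConst_res, toConst_res]
  ext U : 2
  have h1 := (toConst X'').naturality ((siteMapComp f g h e).inv.app U.unop).op
  have h2 := congrArg (fun t => t.app (op ((siteMap f).obj U.unop))) (toConst_res g)
  refine Eq.trans h1.symm ?_
  exact h2.symm

theorem pull_id (f : X ⟶ X) [WeaklyEtale f] (hf : f = 𝟙 X) (ℓ : ℕ) [Fact ℓ.Prime] (n : ℕ)
    (x : X.EllAdicCohomology ℓ n) : pull f ℓ n x = x := by
  have key : ∀ x : Ext (constZ X) (ell X ℓ) n,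
      tw (res f) (resConst f) (resEll f ℓ).hom n x = x := by
    intro x
    have h1 : (resEll f ℓ).hom = (resId f hf).app (ell X ℓ) ≫ 𝟙 (ell X ℓ) :=
      ((Category.comp_id _).trans (resEll_id f hf ℓ)).symm
    rw [h1, tw_nat, resConst_id, tw_id]
    simp
  exact key x

theorem pull_comp (f : X ⟶ X') (g : X' ⟶ X'') (h : X ⟶ X'') (e : h = f ≫ g)
    [WeaklyEtale f] [WeaklyEtale g] [WeaklyEtale h] (ℓ : ℕ) [Fact ℓ.Prime] (n : ℕ)
    (x : X''.EllAdicCohomology ℓ n) : pull h ℓ n x = pull f ℓ n (pull g ℓ n x) := by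
  have key : ∀ x : Ext (constZ X'') (ell X'' ℓ) n,
      tw (res h) (resConst h) (resEll h ℓ).hom n x =
        tw (res f) (resConst f) (resEll f ℓ).hom n
          (tw (res g) (resConst g) (resEll g ℓ).hom n x) := by
    intro x
    rw [tw_tw, ← resEll_comp f g h e, tw_nat, resConst_comp]
  exact key x

end Pool.Agent.Y135
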