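import Mathlib

set_option autoImplicit false
set_option maxHeartbeats 400000
namespace Pool.Agent.Y135

/-- The representation `ρ` is irreducible. -/
def IsIrred {G F : Type*} [Group G] [Field F] {r : ℕ} (ρ : G →* GL (Fin r) F) : Prop :=
  0 < r ∧ ∀ W : Submodule F (Fin r → F),
    (∀ g, ∀ w ∈ W, (ρ g : Matrix (Fin r) (Fin r) F).mulVec w ∈ W) → W = ⊥ ∨ W = ⊤

/-- The determinant of `ρ` has finite order. -/
def HasFiniteDet {G F : Type*} [Group G] [Field F] {r : ℕ} (ρ : G →* GL (Fin r) F) : Prop :=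
  ∃ m : ℕ, 0 < m ∧ ∀ g, (ρ g : Matrix (Fin r) (Fin r) F).det ^ m = 1

/-- `ρ` is continuous. -/
def IsCont {G F : Type*} [Group G] [TopologicalSpace G] [Field F] [TopologicalSpace F] {r : ℕ}
    (ρ : G →* GL (Fin r) F) : Prop :=
  Continuous fun g => (ρ g : Matrix (Fin r) (Fin r) F)

/-- The integral closure of the subring `A` in `Ω`. -/
def intCl {Ω : Type*} [Field Ω] (A : Subring Ω) : Subring Ω :=
  (integralClosure A Ω).toSubring

/-- `σ` lies in an inertia group over the subring `A` of `Ω`: there is a prime ideal `Q` of the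
integral closure of `A` in `Ω` with `σ a - a ∈ Q` for all `a` in the integral closure. -/
def InInertia {K Ω : Type*} [Field K] [Field Ω] [Algebra K Ω] (A : Subring Ω)
    (σ : Gal(Ω/K)) : Prop :=
  ∃ Q : Ideal (intCl A), Q.IsPrime ∧ ∀ a : intCl A, ∃ b ∈ Q, (b : Ω) = σ a - a

end Pool.Agent.Y135
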