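import Mathlib

set_option autoImplicit false
set_option maxHeartbeats 400000
namespace Pool.Agent.Y135

/-- The fraction field of an unramified algebra of finite type is a finite extension. -/
theorem finite_fraction (A B K₀ K : Type) [CommRing A] [CommRing B] [Field K₀] [Field K]
    [Algebra A B] [Algebra A K₀] [Algebra A K] [Algebra B K] [Algebra K₀ K]
    [IsScalarTower A B K] [IsScalarTower A K₀ K] [IsFractionRing B K]
    [Algebra.FormallyUnramified A B] [Algebra.FiniteType A B] : FiniteDimensional K₀ K := by
  have : Algebra.FormallyUnramified B K :=
    Algebra.FormallyUnramified.of_isLocalization (nonZeroDivisors B)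
  have : Algebra.FormallyUnramified A K := Algebra.FormallyUnramified.comp A B _
  have : Algebra.FormallyUnramified K₀ K :=
    Algebra.FormallyUnramified.of_restrictScalars A _ _
  have : Algebra.EssFiniteType B K :=
    Algebra.EssFiniteType.of_isLocalization _ (nonZeroDivisors B)
  have : Algebra.EssFiniteType A K := Algebra.EssFiniteType.comp A B _
  have : Algebra.EssFiniteType K₀ K := Algebra.EssFiniteType.of_comp A _ _
  exact Algebra.FormallyUnramified.finite_of_free _ _

end Pool.Agent.Y135
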