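import Pool.Agent.Y135.Mod

set_option autoImplicit false
set_option maxHeartbeats 400000
open CategoryTheory Limits AlgebraicGeometry TensorProduct
namespace Pool.Agent.Y135

section
universe u
variable (ℓ : ℕ) [Fact ℓ.Prime] {X X' X'' : Scheme.{u}}

/-- Pullback as a linear map. -/
noncomputable def pullLin (f : X ⟶ X') [WeaklyEtale f] (n : ℕ) :
    X'.EllAdicCohomology ℓ n →ₗ[ℤ_[ℓ]] X.EllAdicCohomology ℓ n where
  toFun := pull f ℓ n
  map_add' := map_add (pull f ℓ n)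
  map_smul' := pull_smul ℓ f n

/-- `H^n(X, ℤ_ℓ) ⊗ ℚ̄_ℓ`. -/
def CohQ (X : Scheme.{u}) (n : ℕ) : Type (u + 1) :=
  PadicAlgCl ℓ ⊗[ℤ_[ℓ]] X.EllAdicCohomology ℓ n

noncomputable instance cohGroup (X : Scheme.{u}) (n : ℕ) : AddCommGroup (CohQ ℓ X n) :=
  inferInstanceAs (AddCommGroup (PadicAlgCl ℓ ⊗[ℤ_[ℓ]] X.EllAdicCohomology ℓ n))

noncomputable instance cohModule (X : Scheme.{u}) (n : ℕ) : Module (PadicAlgCl ℓ) (CohQ ℓ X n) :=
  inferInstanceAs (Module (PadicAlgCl ℓ) (PadicAlgCl ℓ ⊗[ℤ_[ℓ]] X.EllAdicCohomology ℓ n))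

/-- Pullback on `H^n(X, ℤ_ℓ) ⊗ ℚ̄_ℓ`. -/
noncomputable def pullQ (f : X ⟶ X') [WeaklyEtale f] (n : ℕ) :
    CohQ ℓ X' n →ₗ[PadicAlgCl ℓ] CohQ ℓ X n :=
  (pullLin ℓ f n).baseChange (PadicAlgCl ℓ)

theorem pullQ_id (f : X ⟶ X) [WeaklyEtale f] (hf : f = 𝟙 X) (n : ℕ) :
    pullQ ℓ f n = LinearMap.id := by
  have h : pullLin ℓ f n = LinearMap.id := by
    ext x
    exact pull_id f hf ℓ n x
  have h' : (pullLin ℓ f n).baseChange (PadicAlgCl ℓ) = LinearMap.id := by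
    rw [h, LinearMap.baseChange_id]
  exact h'

theorem pullQ_comp (f : X ⟶ X') (g : X' ⟶ X'') (h : X ⟶ X'') (e : h = f ≫ g)
    [WeaklyEtale f] [WeaklyEtale g] [WeaklyEtale h] (n : ℕ) :
    pullQ ℓ h n = pullQ ℓ f n ∘ₗ pullQ ℓ g n := by
  have h1 : pullLin ℓ h n = pullLin ℓ f n ∘ₗ pullLin ℓ g n := by
    ext x
    exact pull_comp f g h e ℓ n x
  have h' : (pullLin ℓ h n).baseChange (PadicAlgCl ℓ) =
      (pullLin ℓ f n).baseChange (PadicAlgCl ℓ) ∘ₗ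
        (pullLin ℓ g n).baseChange (PadicAlgCl ℓ) := by
    rw [h1, LinearMap.baseChange_comp]
  exact h'

theorem pullQ_bijective (f : X ⟶ X') [IsIso f] (n : ℕ) : Function.Bijective (pullQ ℓ f n) := by
  rw [Function.bijective_iff_has_inverse]
  refine ⟨pullQ ℓ (inv f) n, fun x => ?_, fun x => ?_⟩
  · rw [← LinearMap.comp_apply, ← pullQ_comp ℓ (inv f) f (𝟙 _) (by simp), pullQ_id ℓ _ rfl]
    rfl
  · rw [← LinearMap.comp_apply, ← pullQ_comp ℓ f (inv f) (𝟙 _) (by simp), pullQ_id ℓ _ rfl]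
    rfl

end

section
variable {K : Type} [Field K] {Y : Scheme.{0}} (f : Y ⟶ Spec (.of K)) (Ω : Type) [Field Ω]
  [Algebra K Ω]

/-- `Y ⊗_K Ω`. -/
noncomputable abbrev geom : Scheme.{0} :=
  pullback f (Spec.map (CommRingCat.ofHom (algebraMap K Ω)))

variable {Ω}

theorem gal_condition (σ : Gal(Ω/K)) :
    pullback.fst f (Spec.map (CommRingCat.ofHom (algebraMap K Ω))) ≫ f =
      (pullback.snd f (Spec.map (CommRingCat.ofHom (algebraMap K Ω))) ≫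
        Spec.map (CommRingCat.ofHom (σ : Ω →+* Ω))) ≫
          Spec.map (CommRingCat.ofHom (algebraMap K Ω)) := by
  rw [Category.assoc, ← Spec.map_comp, ← CommRingCat.ofHom_comp, pullback.condition]
  congr 4
  ext x
  exact (σ.commutes x).symm

/-- The automorphism `id × Spec σ` of `Y ⊗_K Ω`. -/
noncomputable def galMor (σ : Gal(Ω/K)) : geom f Ω ⟶ geom f Ω :=
  pullback.lift (pullback.fst _ _)
    (pullback.snd _ _ ≫ Spec.map (CommRingCat.ofHom (σ : Ω →+* Ω)))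
    (gal_condition f σ)

theorem galMor_fst (σ : Gal(Ω/K)) : galMor f σ ≫ pullback.fst _ _ = pullback.fst _ _ :=
  pullback.lift_fst _ _ _

theorem galMor_snd (σ : Gal(Ω/K)) : galMor f σ ≫ pullback.snd _ _ =
    pullback.snd _ _ ≫ Spec.map (CommRingCat.ofHom (σ : Ω →+* Ω)) :=
  pullback.lift_snd _ _ _

theorem galMor_one : galMor f (1 : Gal(Ω/K)) = 𝟙 _ := by
  apply pullback.hom_ext
  · rw [galMor_fst, Category.id_comp]
  · rw [galMor_snd, Category.id_comp]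
    have : (((1 : Gal(Ω/K)) : Ω →+* Ω)) = RingHom.id Ω := rfl
    rw [this, CommRingCat.ofHom_id, Spec.map_id, Category.comp_id]

theorem galMor_mul (σ τ : Gal(Ω/K)) : galMor f (σ * τ) = galMor f σ ≫ galMor f τ := by
  apply pullback.hom_ext
  · rw [Category.assoc, galMor_fst, galMor_fst, galMor_fst]
  · rw [Category.assoc, galMor_snd, galMor_snd, ← Category.assoc, galMor_snd, Category.assoc,
      ← Spec.map_comp, ← CommRingCat.ofHom_comp]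
    rfl

instance (σ : Gal(Ω/K)) : IsIso (galMor f σ) :=
  ⟨galMor f σ⁻¹, by rw [← galMor_mul, mul_inv_cancel, galMor_one],
    by rw [← galMor_mul, inv_mul_cancel, galMor_one]⟩

/-- The action of `σ` on `H^n(Y ⊗_K Ω, ℚ̄_ℓ)`. -/
noncomputable def galAct (σ : Gal(Ω/K)) (ℓ : ℕ) [Fact ℓ.Prime] (n : ℕ) :
    Module.End (PadicAlgCl ℓ) (CohQ ℓ (geom f Ω) n) :=
  pullQ ℓ (galMor f σ) n

theorem galAct_one (ℓ : ℕ) [Fact ℓ.Prime] (n : ℕ) : galAct f (1 : Gal(Ω/K)) ℓ n = 1 :=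
  pullQ_id ℓ _ (galMor_one f) n

theorem galAct_mul (σ τ : Gal(Ω/K)) (ℓ : ℕ) [Fact ℓ.Prime] (n : ℕ) :
    galAct f (σ * τ) ℓ n = galAct f σ ℓ n * galAct f τ ℓ n :=
  pullQ_comp ℓ _ _ _ (galMor_mul f σ τ) n

/-- The representation of `Gal(Ω/K)` on `H^n(Y ⊗_K Ω, ℚ̄_ℓ)`. -/
noncomputable def galRep (Ω : Type) [Field Ω] [Algebra K Ω] (ℓ : ℕ) [Fact ℓ.Prime] (n : ℕ) :
    Representation (PadicAlgCl ℓ) Gal(Ω/K) (CohQ ℓ (geom f Ω) n) where
  toFun σ := galAct f σ ℓ n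
  map_one' := galAct_one f ℓ n
  map_mul' σ τ := galAct_mul f σ τ ℓ n

end

end Pool.Agent.Y135
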