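import Pool.Agent.Y135.BaseCh

set_option autoImplicit false
set_option maxHeartbeats 400000
open CategoryTheory Limits AlgebraicGeometry TensorProduct
namespace Pool.Agent.Y135

variable {K : Type} [Field K] {Ω : Type} [Field Ω] [Algebra K Ω]

/-- The `ℓ`-adic cyclotomic character of `Gal(Ω/K)`, with values in `ℚ̄_ℓ`. -/
noncomputable def cycU (ℓ : ℕ) [Fact ℓ.Prime] (g : Gal(Ω/K)) : (PadicAlgCl ℓ)ˣ :=
  Units.map (algebraMap ℤ_[ℓ] (PadicAlgCl ℓ)).toMonoidHom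
    (cyclotomicCharacter Ω ℓ g.toRingEquiv)

theorem cycU_mul (ℓ : ℕ) [Fact ℓ.Prime] (g h : Gal(Ω/K)) :
    cycU ℓ (g * h) = cycU ℓ g * cycU ℓ h := by
  have : (g * h).toRingEquiv = g.toRingEquiv * h.toRingEquiv := rfl
  rw [cycU, this, map_mul, map_mul, cycU, cycU]

/-- The `ℓ`-adic cyclotomic character of `Gal(Ω/K)`, with values in `ℚ̄_ℓ`. -/
noncomputable def cyc (K Ω : Type) [Field K] [Field Ω] [Algebra K Ω] (ℓ : ℕ) [Fact ℓ.Prime] :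
    Gal(Ω/K) →* (PadicAlgCl ℓ)ˣ :=
  MonoidHom.mk' (cycU ℓ) (cycU_mul ℓ)

/-- The value at `g` of the Tate twist `ρ(n)`. -/
noncomputable def twistAt {ℓ : ℕ} [Fact ℓ.Prime] {r : ℕ}
    (ρ : Gal(Ω/K) →* GL (Fin r) (PadicAlgCl ℓ)) (n : ℤ) (g : Gal(Ω/K)) :
    GL (Fin r) (PadicAlgCl ℓ) :=
  Matrix.GeneralLinearGroup.scalar (Fin r) (cyc K Ω ℓ g ^ n) * ρ g

theorem twistAt_mul {ℓ : ℕ} [Fact ℓ.Prime] {r : ℕ}
    (ρ : Gal(Ω/K) →* GL (Fin r) (PadicAlgCl ℓ)) (n : ℤ) (g h : Gal(Ω/K)) :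
    twistAt ρ n (g * h) = twistAt ρ n g * twistAt ρ n h := by
  apply Units.ext
  simp only [twistAt, map_mul, mul_zpow, Units.val_mul]
  have h1 : ∀ (c : (PadicAlgCl ℓ)ˣ) (M : Matrix (Fin r) (Fin r) (PadicAlgCl ℓ)),
      M * (Matrix.GeneralLinearGroup.scalar (Fin r) c : GL (Fin r) (PadicAlgCl ℓ)).val =
        (Matrix.GeneralLinearGroup.scalar (Fin r) c : GL (Fin r) (PadicAlgCl ℓ)).val * M := by
    intro c M
    exact (Matrix.scalar_commute (c : PadicAlgCl ℓ) (fun _ => Commute.all _ _) M).symm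
  rw [mul_assoc, mul_assoc, ← mul_assoc (ρ g).val, h1, mul_assoc]

/-- The Tate twist `ρ(n)`. -/
noncomputable def twist {ℓ : ℕ} [Fact ℓ.Prime] {r : ℕ}
    (ρ : Gal(Ω/K) →* GL (Fin r) (PadicAlgCl ℓ)) (n : ℤ) :
    Gal(Ω/K) →* GL (Fin r) (PadicAlgCl ℓ) :=
  MonoidHom.mk' (twistAt ρ n) (twistAt_mul ρ n)

theorem twist_mulVec {ℓ : ℕ} [Fact ℓ.Prime] {r : ℕ}
    (ρ : Gal(Ω/K) →* GL (Fin r) (PadicAlgCl ℓ)) (n : ℤ) (g : Gal(Ω/K))
    (v : Fin r → PadicAlgCl ℓ) :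
    (twist ρ n g : Matrix (Fin r) (Fin r) (PadicAlgCl ℓ)).mulVec v =
      ((cyc K Ω ℓ g ^ n : (PadicAlgCl ℓ)ˣ) : PadicAlgCl ℓ) •
        (ρ g : Matrix (Fin r) (Fin r) (PadicAlgCl ℓ)).mulVec v := by
  change ((Matrix.GeneralLinearGroup.scalar (Fin r) (cyc K Ω ℓ g ^ n)).val * (ρ g).val).mulVec v = _
  rw [← Matrix.mulVec_mulVec]
  generalize (ρ g).val.mulVec v = w
  generalize cyc K Ω ℓ g ^ n = c
  ext i
  change (Matrix.scalar (Fin r) (c : PadicAlgCl ℓ)).mulVec w i = _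
  simp [Matrix.scalar_apply, Matrix.mulVec_diagonal]

/-- `ρ` is of geometric origin: a Tate twist of it is isomorphic to a subquotient of the
representation of the Galois group on the cohomology `H^i(Y ⊗_K Ω, ℚ̄_ℓ)` of a variety `Y`. -/
def GeometricOrigin {ℓ : ℕ} [Fact ℓ.Prime] {r : ℕ}
    (ρ : Gal(Ω/K) →* GL (Fin r) (PadicAlgCl ℓ)) : Prop :=
  ∃ (Y : Scheme.{0}) (f : Y ⟶ Spec (.of K)), IsSeparated f ∧ LocallyOfFiniteType f ∧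
    QuasiCompact f ∧ ∃ (i : ℕ) (n : ℤ), IsSubquotient (twist ρ n) (galRep f Ω ℓ i)

theorem GeometricOrigin.transfer {K₀ : Type} [Field K₀] [Algebra K₀ K] [Algebra K₀ Ω]
    [IsScalarTower K₀ K Ω] {ℓ : ℕ} [Fact ℓ.Prime] {r s : ℕ}
    {σ : Gal(Ω/K₀) →* GL (Fin s) (PadicAlgCl ℓ)} (hσ : GeometricOrigin σ)
    {ρ : Gal(Ω/K) →* GL (Fin r) (PadicAlgCl ℓ)}
    (ψ : (Fin s → PadicAlgCl ℓ) →ₗ[PadicAlgCl ℓ] (Fin r → PadicAlgCl ℓ))
    (hψ : Function.Surjective ψ)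
    (hψ' : ∀ (g : Gal(Ω/K)) v,
      ψ ((σ (g.restrictScalars K₀) : Matrix (Fin s) (Fin s) (PadicAlgCl ℓ)).mulVec v) =
      (ρ g : Matrix (Fin r) (Fin r) (PadicAlgCl ℓ)).mulVec (ψ v)) : GeometricOrigin ρ := by
  obtain ⟨Y, f, h1, h2, h3, i, n, hn⟩ := hσ
  refine ⟨_, bc f K, inferInstance, inferInstance, inferInstance, i, n, ?_⟩
  refine hn.transfer (AlgEquiv.restrictScalarsHom K₀)
    (LinearEquiv.ofBijective (pullQ ℓ (bcMor f Ω) i) (pullQ_bijective ℓ _ i)) ?_ ψ hψ ?_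
  · intro g v
    exact galRep_bc f ℓ i g v
  · intro g v
    rw [twist_mulVec, twist_mulVec, map_smul]
    congr 1
    exact hψ' g v

end Pool.Agent.Y135
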