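import Pool.Agent.Y135.ClifB
import Pool.Agent.Y135.Defs

set_option autoImplicit false
set_option maxHeartbeats 400000
namespace Pool.Agent.Y135

open Module

variable {G F : Type*} [Group G] [Field F] {r : ℕ}

/-- The right translation of functions. -/
def shift (F : Type*) [Field F] (r : ℕ) : G →* End F (G → Fin r → F) where
  toFun g := LinearMap.funLeft F (Fin r → F) (· * g)
  map_one' := by
    ext f x : 2
    simp [LinearMap.funLeft]
  map_mul' g h := by
    ext f x : 2
    simp [LinearMap.funLeft, mul_assoc]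

theorem shift_apply (g : G) (f : G → Fin r → F) (x : G) : shift F r g f x = f (x * g) := rfl

variable (H : Subgroup G) (ρ : H →* GL (Fin r) F)

/-- The induced representation. -/
def Ind : Submodule F (G → Fin r → F) where
  carrier := {f | ∀ (h : H) (g : G), f (h * g) = (ρ h : Matrix (Fin r) (Fin r) F).mulVec (f g)}
  add_mem' := by
    intro a b ha hb h g
    rw [Pi.add_apply, Pi.add_apply, ha, hb, Matrix.mulVec_add]
  zero_mem' := by
    intro h g
    rw [Pi.zero_apply, Pi.zero_apply, Matrix.mulVec_zero]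
  smul_mem' := by
    intro c a ha h g
    rw [Pi.smul_apply, Pi.smul_apply, ha, Matrix.mulVec_smul]

theorem Ind_shift (g : G) : Ind H ρ ≤ (Ind H ρ).comap (shift F r g) := by
  intro f hf h x
  rw [shift_apply, shift_apply, mul_assoc, hf]

/-- The values at representatives of the cosets. -/
noncomputable def evQ : (G → Fin r → F) →ₗ[F] (Quotient (QuotientGroup.rightRel H) × Fin r → F) where
  toFun f x := f x.1.out x.2
  map_add' _ _ := rfl
  map_smul' _ _ := rfl

theorem evQ_injective {f : G → Fin r → F} (hf : f ∈ Ind H ρ) (h0 : evQ H f = 0) : f = 0 := by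
  funext g
  let q : Quotient (QuotientGroup.rightRel H) := Quotient.mk _ g
  have h1 : f q.out = 0 := by
    funext k
    exact congrFun h0 (q, k)
  have h2 : g * (q.out)⁻¹ ∈ H := by
    have : (QuotientGroup.rightRel H).r q.out g := Quotient.exact (Quotient.out_eq q)
    exact QuotientGroup.rightRel_apply.mp this
  have h3 := hf ⟨_, h2⟩ q.out
  simp only [inv_mul_cancel_right] at h3
  rw [h3, h1, Matrix.mulVec_zero]
  rfl

instance ind_fd [H.FiniteIndex] : FiniteDimensional F (Ind H ρ) := by
  have : Finite (Quotient (QuotientGroup.rightRel H)) :=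
    Finite.of_equiv _ (QuotientGroup.quotientRightRelEquivQuotientLeftRel H).symm
  refine FiniteDimensional.of_injective ((evQ H).comp (Ind H ρ).subtype) ?_
  rw [← LinearMap.ker_eq_bot, LinearMap.ker_eq_bot']
  intro f hf
  exact Subtype.ext (evQ_injective H ρ f.2 hf)

theorem ind_continuous [TopologicalSpace G] [IsTopologicalGroup G] (hH : IsOpen (H : Set G))
    [TopologicalSpace F] [IsTopologicalRing F]
    (hρ : IsCont ρ) {f : G → Fin r → F} (hf : f ∈ Ind H ρ) : Continuous f := by
  rw [continuous_iff_continuousAt]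
  intro g₀
  have h1 : ∀ᶠ g in nhds g₀, g * g₀⁻¹ ∈ (H : Set G) := by
    have h2 : Filter.Tendsto (fun g : G => g * g₀⁻¹) (nhds g₀) (nhds 1) := by
      have := (continuous_mul_const g₀⁻¹ : Continuous fun g : G => g * g₀⁻¹).tendsto g₀
      rwa [mul_inv_cancel] at this
    exact h2.eventually (hH.mem_nhds H.one_mem)
  obtain ⟨O, hO, hOo, hgO⟩ := eventually_nhds_iff.mp h1
  have h3 : ContinuousOn f O := by
    rw [continuousOn_iff_continuous_domRestrict]
    have : O.domRestrict f = fun g : O => (ρ ⟨g * g₀⁻¹, hO g g.2⟩ :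
        Matrix (Fin r) (Fin r) F).mulVec (f g₀) := by
      funext g
      have := hf ⟨g * g₀⁻¹, hO g g.2⟩ g₀
      simp only [inv_mul_cancel_right] at this
      exact this
    rw [this]
    refine Continuous.matrix_mulVec ?_ continuous_const
    refine hρ.comp ?_
    exact Continuous.subtype_mk (continuous_subtype_val.mul continuous_const) _
  exact h3.continuousAt (hOo.mem_nhds hgO)

/-- A representation in matrix form. -/
theorem matrixize {W : Type*} [AddCommGroup W] [Module F W] [FiniteDimensional F W]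
    [Nontrivial W] (A : G →* End F W)
    (hA : ∀ P : Submodule F W, (∀ g, P ≤ P.comap (A g)) → P = ⊥ ∨ P = ⊤)
    {M : ℕ} (hM : 0 < M) (hdet : ∀ g, LinearMap.det (A g) ^ M = 1)
    [TopologicalSpace G] [TopologicalSpace F] [IsTopologicalRing F] {S : Type*} [Finite S]
    (E : W →ₗ[F] (S → F)) (hE : Function.Injective E)
    (hc : ∀ w, Continuous fun g => E (A g w)) :
    ∃ (s : ℕ) (σ : G →* GL (Fin s) F) (e : W ≃ₗ[F] (Fin s → F)),
      IsCont σ ∧ IsIrred σ ∧ HasFiniteDet σ ∧
      (∀ g w, (σ g : Matrix (Fin s) (Fin s) F).mulVec (e w) = e (A g w)) ∧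
      ∀ g, A g = 1 → σ g = 1 := by
  let b := Module.finBasis F W
  let σ : G →* GL (Fin (finrank F W)) F :=
    (((LinearMap.toMatrixAlgEquiv b : End F W ≃ₐ[F] _) : End F W →* _).comp A).toHomUnits
  have hσ : ∀ g, (σ g : Matrix _ _ F) = LinearMap.toMatrix b b (A g) := fun g => rfl
  have hσv : ∀ g w, (σ g : Matrix _ _ F).mulVec (b.equivFun w) = b.equivFun (A g w) := by
    intro g w
    rw [hσ]
    exact LinearMap.toMatrix_mulVec_repr b b (A g) w
  refine ⟨finrank F W, σ, b.equivFun, ?_, ⟨finrank_pos, ?_⟩, ⟨M, hM, ?_⟩, hσv, ?_⟩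
  · obtain ⟨L, hL⟩ := LinearMap.exists_leftInverse_of_injective E (LinearMap.ker_eq_bot.mpr hE)
    refine continuous_matrix fun i j => ?_
    have e : (fun g => (σ g : Matrix _ _ F) i j) = fun g =>
        (b.coord i ∘ₗ L) (E (A g (b j))) := by
      funext g
      rw [hσ, LinearMap.toMatrix_apply]
      have h1 := LinearMap.congr_fun hL (A g (b j))
      rw [LinearMap.comp_apply]
      have h2 : L (E (A g (b j))) = A g (b j) := h1
      rw [h2]
      rfl
    rw [e]
    have h3 : Continuous (b.coord i ∘ₗ L) := LinearMap.continuous_on_pi _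
    exact h3.comp (hc _)
  · intro P hP
    rcases hA (P.comap b.equivFun.toLinearMap) (by
      intro g w hw
      have := hP g _ hw
      rw [LinearEquiv.coe_coe, hσv] at this
      exact this) with h | h
    · left
      rw [eq_bot_iff]
      intro x hx
      have : b.equivFun.symm x ∈ P.comap b.equivFun.toLinearMap := by
        rw [Submodule.mem_comap, LinearEquiv.coe_coe, LinearEquiv.apply_symm_apply]
        exact hx
      rw [h, Submodule.mem_bot, LinearEquiv.map_eq_zero_iff] at this
      exact (Submodule.mem_bot F).mpr this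
    · right
      rw [eq_top_iff]
      intro x _
      have : b.equivFun.symm x ∈ P.comap b.equivFun.toLinearMap := by
        rw [h]
        trivial
      rwa [Submodule.mem_comap, LinearEquiv.coe_coe, LinearEquiv.apply_symm_apply] at this
  · intro g
    rw [← hdet g, hσ, LinearMap.det_toMatrix]
  · intro g h1
    apply Units.ext
    rw [hσ, h1, Units.val_one]
    exact LinearMap.toMatrix_one b

theorem exists_extension [TopologicalSpace G] [IsTopologicalGroup G] (hH : IsOpen (H : Set G))
    [H.FiniteIndex] [TopologicalSpace F] [IsTopologicalRing F]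
    (hρ : IsCont ρ) (hirr : IsIrred ρ) (hdet : HasFiniteDet ρ) :
    ∃ (s : ℕ) (σ : G →* GL (Fin s) F) (ψ : (Fin s → F) →ₗ[F] (Fin r → F)),
      IsCont σ ∧ IsIrred σ ∧ HasFiniteDet σ ∧ Function.Surjective ψ ∧
      (∀ (h : H) v, ψ ((σ h : Matrix (Fin s) (Fin s) F).mulVec v) =
        (ρ h : Matrix (Fin r) (Fin r) F).mulVec (ψ v)) ∧
      ∀ g, (∀ x, ∃ h : x * g * x⁻¹ ∈ H, ρ ⟨_, h⟩ = 1) → σ g = 1 := by
  classical
  obtain ⟨hr, hirr⟩ := hirr
  obtain ⟨m, hm, hdet⟩ := hdet
  have hfq : Finite (Quotient (QuotientGroup.rightRel H)) :=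
    Finite.of_equiv _ (QuotientGroup.quotientRightRelEquivQuotientLeftRel H).symm
  -- the induced representation is nonzero
  have hne : (⊤ : Submodule F (Ind H ρ)) ≠ ⊥ := by
    intro h
    let v : Fin r → F := fun _ => 1
    let f : G → Fin r → F := fun g => if hg : g ∈ H then
      (ρ ⟨g, hg⟩ : Matrix (Fin r) (Fin r) F).mulVec v else 0
    have hf : f ∈ Ind H ρ := by
      intro h g
      by_cases hg : g ∈ H
      · have hhg : (h : G) * g ∈ H := H.mul_mem h.2 hg
        simp only [f, dif_pos hg, dif_pos hhg]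
        have : (⟨h * g, hhg⟩ : H) = h * ⟨g, hg⟩ := rfl
        rw [this, map_mul, Units.val_mul, Matrix.mulVec_mulVec]
      · have hhg : (h : G) * g ∉ H := fun h' => hg ((H.mul_mem_cancel_left h.2).mp h')
        simp only [f, dif_neg hg, dif_neg hhg, Matrix.mulVec_zero]
    have h1 : (⟨f, hf⟩ : Ind H ρ) ∈ (⊤ : Submodule F (Ind H ρ)) := trivial
    rw [h, Submodule.mem_bot] at h1
    have h2 : f 1 = 0 := congrFun (congrArg Subtype.val h1) 1
    have h3 : f 1 = v := by
      simp only [f, dif_pos H.one_mem]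
      have : (⟨1, H.one_mem⟩ : H) = 1 := rfl
      rw [this, map_one, Units.val_one, Matrix.one_mulVec]
    rw [h3] at h2
    exact one_ne_zero (congrFun h2 ⟨0, hr⟩)
  let A₀ : G →* End F (Ind H ρ) :=
    { toFun := fun g => (shift F r g).restrict (Ind_shift H ρ g)
      map_one' := by
        ext f : 2
        simp
      map_mul' := fun g h => by
        ext f : 2
        simp }
  obtain ⟨W, hW0, hW, hmin⟩ : ∃ W : Submodule F (Ind H ρ), W ≠ ⊥ ∧
      (∀ g, W ≤ W.comap (A₀ g)) ∧
      ∀ P : Submodule F (Ind H ρ), P ≤ W → (∀ g, P ≤ P.comap (A₀ g)) → P = ⊥ ∨ P = W := by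
    obtain ⟨W, -, hW0, hW, hmin⟩ := exists_minimal (fun g => A₀ g) ⊤ hne (fun n w _ => trivial)
    exact ⟨W, hW0, hW, hmin⟩
  let A : G →* End F W :=
    { toFun := fun g => (A₀ g).restrict (hW g)
      map_one' := by
        ext f : 2
        simp
      map_mul' := fun g h => by
        ext f : 2
        simp }
  have hAval : ∀ g (w : W) x, ((A g w : Ind H ρ) : G → Fin r → F) x = (w : Ind H ρ).1 (x * g) :=
    fun g w x => rfl
  let ev : W →ₗ[F] (Fin r → F) :=
    { toFun := fun w => (w : Ind H ρ).1 1
      map_add' := fun _ _ => rfl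
      map_smul' := fun _ _ => rfl }
  have hev : ∀ (h : H) w, ev (A h w) = (ρ h : Matrix (Fin r) (Fin r) F).mulVec (ev w) := by
    intro h w
    change (w : Ind H ρ).1 (1 * h) = _
    have := (w : Ind H ρ).2 h 1
    rw [mul_one] at this
    rw [one_mul, this]
    rfl
  have hevs : Function.Surjective ev := by
    rw [← LinearMap.range_eq_top]
    rcases hirr (LinearMap.range ev) (by
      rintro h _ ⟨w, rfl⟩
      exact ⟨A h w, hev h w⟩) with h | h
    · exfalso
      apply hW0
      rw [eq_bot_iff]
      intro w hw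
      rw [Submodule.mem_bot]
      apply Subtype.ext
      funext g
      have h1 : ev (A g ⟨w, hw⟩) = 0 := by
        rw [LinearMap.range_eq_bot.mp h]
        rfl
      have h2 : w.1 (1 * g) = 0 := h1
      rw [one_mul] at h2
      exact h2
    · exact h
  have hAirr : ∀ P : Submodule F W, (∀ g, P ≤ P.comap (A g)) → P = ⊥ ∨ P = ⊤ := by
    intro P hP
    rcases hmin (P.map W.subtype) (Submodule.map_subtype_le W P) (by
      rintro g _ ⟨t, ht, rfl⟩
      exact ⟨A g t, hP g ht, rfl⟩) with h | h
    · left
      rw [eq_bot_iff]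
      intro t ht
      have h1 : (t : Ind H ρ) ∈ P.map W.subtype := ⟨t, ht, rfl⟩
      rw [h, Submodule.mem_bot] at h1
      exact (Submodule.mem_bot F).mpr (Subtype.ext h1)
    · right
      rw [eq_top_iff]
      intro t _
      have h1 : (t : Ind H ρ) ∈ P.map W.subtype := by
        rw [h]
        exact t.2
      obtain ⟨t', ht', e⟩ := h1
      have : t' = t := Subtype.ext e
      rwa [← this]
  have : Nontrivial (Fin r → F) := by
    have : Nonempty (Fin r) := ⟨⟨0, hr⟩⟩
    infer_instance
  let C : H.normalCore → End F (Fin r → F) := fun n =>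
    Matrix.toLin' (ρ ⟨n, H.normalCore_le n.2⟩ : Matrix (Fin r) (Fin r) F)
  have hC : ∀ (n : H.normalCore) (w : W), ev (A n w) = C n (ev w) := by
    intro n w
    have := hev ⟨n, H.normalCore_le n.2⟩ w
    rw [← Matrix.toLin'_apply] at this
    exact this
  obtain ⟨M, hM, hMdet⟩ := det_finite (W := W) (V := Fin r → F) H.normalCore A hAirr C
    ev hevs hC m hm (fun n => by
      rw [LinearMap.det_toLin']
      exact hdet _)
  -- matrices
  have : Nontrivial W := (Submodule.nontrivial_iff_ne_bot).mpr hW0
  let E : W →ₗ[F] (Quotient (QuotientGroup.rightRel H) × Fin r → F) :=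
    { toFun := fun w => evQ H (w : Ind H ρ).1
      map_add' := fun _ _ => rfl
      map_smul' := fun _ _ => rfl }
  have hE : Function.Injective E := by
    intro a b hab
    have h1 : evQ H ((a : Ind H ρ).1 - (b : Ind H ρ).1) = 0 := by
      rw [map_sub]
      exact sub_eq_zero.mpr hab
    have h2 := evQ_injective H ρ ((Ind H ρ).sub_mem (a : Ind H ρ).2 (b : Ind H ρ).2) h1
    exact Subtype.ext (Subtype.ext (sub_eq_zero.mp h2))
  obtain ⟨s, σ, e, h1, h2, h3, h4, h5⟩ := matrixize (W := W) A hAirr hM hMdet E hE (by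
      intro w
      refine continuous_pi fun x => ?_
      change Continuous fun g => (w : Ind H ρ).1 (x.1.out * g) x.2
      exact (continuous_apply x.2).comp
        ((ind_continuous H ρ hH hρ (w : Ind H ρ).2).comp (continuous_const_mul _)))
  refine ⟨s, σ, ev ∘ₗ e.symm.toLinearMap, h1, h2, h3, hevs.comp e.symm.surjective, ?_, ?_⟩
  · intro h v
    obtain ⟨w, rfl⟩ := e.surjective v
    rw [h4, LinearMap.comp_apply, LinearMap.comp_apply, LinearEquiv.coe_coe,
      LinearEquiv.symm_apply_apply, LinearEquiv.symm_apply_apply, hev]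
  · intro g hg
    apply h5
    ext w : 1
    apply Subtype.ext
    apply Subtype.ext
    funext x
    rw [hAval]
    obtain ⟨h, hh⟩ := hg x
    have := (w : Ind H ρ).2 ⟨_, h⟩ x
    rw [hh, Units.val_one, Matrix.one_mulVec] at this
    simpa using this

end Pool.Agent.Y135
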