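import Pool.Agent.Y135.AlgC
import Pool.Agent.Y135.Defs

set_option autoImplicit false
set_option maxHeartbeats 400000
namespace Pool.Agent.Y135

section
variable {K Ω : Type*} [Field K] [Field Ω] [Algebra K Ω]

/-- An automorphism fixing a subring preserves integrality over it. -/
theorem isIntegral_map {A : Subring Ω} (σ : Ω →+* Ω) (h : ∀ a ∈ A, σ a = a) {x : Ω}
    (hx : IsIntegral A x) : IsIntegral A (σ x) := by
  obtain ⟨P, hP, hPx⟩ := hx
  refine ⟨P, hP, ?_⟩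
  have h1 := congrArg σ hPx
  rw [Polynomial.hom_eval₂, map_zero] at h1
  have h2 : σ.comp (algebraMap A Ω) = algebraMap A Ω := by
    ext a
    exact h a a.2
  rwa [h2] at h1

/-- Smaller integral closures. -/
theorem InInertia.mono {K' : Type*} [Field K'] [Algebra K' Ω] {A A' : Subring Ω}
    (hA : ∀ x : Ω, IsIntegral A' x → IsIntegral A x) {σ : Gal(Ω/K)} {σ' : Gal(Ω/K')}
    (hσ : ∀ x, σ' x = σ x) (hf : ∀ a ∈ A', σ a = a) (h : InInertia A σ) : InInertia A' σ' := by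
  obtain ⟨Q, hQ, hQσ⟩ := h
  let j : intCl A' →+* intCl A :=
    (algebraMap (intCl A') Ω).codRestrict (intCl A) (fun x => hA x x.2)
  refine ⟨Q.comap j, hQ.comap j, fun a => ?_⟩
  obtain ⟨b, hb, hba⟩ := hQσ (j a)
  have h1 : IsIntegral A' (σ (a : Ω) - a) :=
    (isIntegral_map (σ : Ω →+* Ω) hf a.2).sub a.2
  refine ⟨⟨_, h1⟩, ?_, by rw [hσ]⟩
  have h2 : j ⟨_, h1⟩ = b := Subtype.ext hba.symm
  rw [Ideal.mem_comap, h2]
  exact hb

/-- Conjugate inertia groups. -/
theorem InInertia.conj {A : Subring Ω} {σ : Gal(Ω/K)} (τ : Gal(Ω/K))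
    (hτ : ∀ a ∈ A, τ a = a) (h : InInertia A σ) : InInertia A (τ * σ * τ⁻¹) := by
  obtain ⟨Q, hQ, hQσ⟩ := h
  have hτ' : ∀ a ∈ A, τ⁻¹ a = a := by
    intro a ha
    rw [AlgEquiv.aut_inv, AlgEquiv.symm_apply_eq, hτ a ha]
  let j : intCl A →+* intCl A :=
    (((τ⁻¹ : Gal(Ω/K)) : Ω →+* Ω).comp (algebraMap (intCl A) Ω)).codRestrict
      (intCl A) (fun x => isIntegral_map ((τ⁻¹ : Gal(Ω/K)) : Ω →+* Ω) hτ' x.2)
  refine ⟨Q.comap j, hQ.comap j, fun a => ?_⟩
  obtain ⟨b, hb, hba⟩ := hQσ (j a)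
  have h1 : IsIntegral A (τ (b : Ω)) := isIntegral_map (τ : Ω →+* Ω) hτ b.2
  refine ⟨⟨_, h1⟩, ?_, ?_⟩
  · have h2 : j ⟨_, h1⟩ = b := by
      apply Subtype.ext
      change τ⁻¹ (τ (b : Ω)) = b
      rw [AlgEquiv.aut_inv, AlgEquiv.symm_apply_apply]
    rw [Ideal.mem_comap, h2]
    exact hb
  · change τ (b : Ω) = (τ * σ * τ⁻¹) (a : Ω) - a
    rw [hba, map_sub]
    change τ (σ (τ⁻¹ (a : Ω))) - τ (τ⁻¹ (a : Ω)) = _
    rw [AlgEquiv.aut_inv, AlgEquiv.apply_symm_apply]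
    rfl

end

/-- Inertia groups over an affine space act trivially on an unramified covering. -/
theorem inertia_fix (p : ℕ) [Fact p.Prime] {n : ℕ} {B : Type} [CommRing B]
    [Algebra (ZMod p) B] [Algebra.FiniteType (ZMod p) B] {Ω : Type} [Field Ω] (ι : B →+* Ω)
    (t : Fin n → B)
    (hunr : (MvPolynomial.aeval t : MvPolynomial (Fin n) (ZMod p) →ₐ[ZMod p] B).toRingHom.FormallyUnramified)
    (hint : (MvPolynomial.aeval t : MvPolynomial (Fin n) (ZMod p) →ₐ[ZMod p] B).toRingHom.IsIntegral)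
    (A : Subring Ω) (hA : A = (ι.comp
      (MvPolynomial.aeval t : MvPolynomial (Fin n) (ZMod p) →ₐ[ZMod p] B).toRingHom).range)
    (σ : Ω →+* Ω) (hσ : ∀ a ∈ A, σ a = a) (Q : Ideal (intCl A)) (hQ : Q ≠ ⊤)
    (h : ∀ a : intCl A, ∃ b ∈ Q, (b : Ω) = σ a - a) (b : B) : σ (ι b) = ι b := by
  let φ := (MvPolynomial.aeval t : MvPolynomial (Fin n) (ZMod p) →ₐ[ZMod p] B).toRingHom
  let := φ.toAlgebra
  have : IsScalarTower (ZMod p) (MvPolynomial (Fin n) (ZMod p)) B :=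
    IsScalarTower.of_algebraMap_eq' (MvPolynomial.aeval t).comp_algebraMap.symm
  have : Algebra.FormallyUnramified (MvPolynomial (Fin n) (ZMod p)) B := hunr
  have : Algebra.FiniteType (MvPolynomial (Fin n) (ZMod p)) B :=
    Algebra.FiniteType.of_restrictScalars_finiteType (ZMod p) _ _
  have hB : ∀ b, IsIntegral A (ι b) := by
    intro b
    obtain ⟨P, hP, hPb⟩ := hint b
    let χ : MvPolynomial (Fin n) (ZMod p) →+* A := (ι.comp φ).codRestrict A (fun c => by
      rw [hA]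
      exact ⟨c, rfl⟩)
    refine ⟨P.map χ, hP.map χ, ?_⟩
    rw [Polynomial.eval₂_map]
    have h2 : (algebraMap A Ω).comp χ = ι.comp φ := rfl
    rw [h2, ← Polynomial.hom_eval₂]
    have h3 : Polynomial.eval₂ φ b P = 0 := hPb
    rw [h3, map_zero]
  have hσB : ∀ b, IsIntegral A (σ (ι b)) := fun b => isIntegral_map σ hσ (hB b)
  let u : B →+* intCl A := ι.codRestrict (intCl A) hB
  let v : B →+* intCl A := (σ.comp ι).codRestrict (intCl A) hσB
  let := (u.comp φ).toAlgebra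
  let u' : B →ₐ[MvPolynomial (Fin n) (ZMod p)] intCl A :=
    { u with commutes' := fun c => rfl }
  let v' : B →ₐ[MvPolynomial (Fin n) (ZMod p)] intCl A :=
    { v with commutes' := fun c => Subtype.ext (by
        change σ (ι (φ c)) = ι (φ c)
        apply hσ
        rw [hA]
        exact ⟨c, rfl⟩) }
  have key : u' = v' := by
    refine unram_eq u' v' Q hQ (fun b => ?_)
    obtain ⟨c, hc, hcb⟩ := h (u b)
    have : u' b - v' b = -c := by
      apply Subtype.ext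
      change ι b - σ (ι b) = -(c : Ω)
      rw [hcb]
      change _ = -(σ (ι b) - ι b)
      ring
    rw [this]
    exact Q.neg_mem hc
  have := congrArg Subtype.val (AlgHom.congr_fun key b)
  exact this.symm

end Pool.Agent.Y135
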