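import Pool.Agent.Y135.Geo
import Pool.Agent.Y135.Defs

set_option autoImplicit false
set_option maxHeartbeats 400000
open CategoryTheory Limits AlgebraicGeometry
namespace Pool.Agent.Y135

/-- Let `S` be a set of subrings of `K`. The representation `ρ` of the Galois group of `K` is
trivial on the inertia groups over the rings in `S`. -/
def IsLisse {K Ω F : Type*} [Field K] [Field Ω] [Algebra K Ω] [Field F] (S : Set (Subring K))
    {r : ℕ} (ρ : Gal(Ω/K) →* GL (Fin r) F) : Prop :=
  ∀ A ∈ S, ∀ σ : Gal(Ω/K), InInertia (A.map (algebraMap K Ω)) σ → ρ σ = 1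

/-- The irreducible continuous representations of the Galois group of `K` over `ℚ̄_ℓ` that are
trivial on the inertia groups over the rings in `S` and have a determinant of finite order are of
geometric origin. -/
def FieldGeometric (ℓ : ℕ) [Fact ℓ.Prime] (K : Type) [Field K] (S : Set (Subring K)) : Prop :=
  ∀ (Ω : Type) [Field Ω] [Algebra K Ω] [IsAlgClosure K Ω] (r : ℕ)
    (ρ : Gal(Ω/K) →* GL (Fin r) (PadicAlgCl ℓ)), IsCont ρ → IsLisse S ρ →
    IsIrred ρ → HasFiniteDet ρ → GeometricOrigin ρ

/-- The images in the function field of the rings of functions on the non-empty affine open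
subschemes of `X`. -/
def affineRings (X : Scheme.{0}) [IsIntegral X] : Set (Subring X.functionField) :=
  {A | ∃ (U : X.Opens) (_ : Nonempty U), IsAffineOpen U ∧ A = (X.germToFunctionField U).hom.range}

/-- The irreducible lisse sheaves on `X` with determinant of finite order are of geometric
origin. -/
def AllGeometric (ℓ : ℕ) [Fact ℓ.Prime] (X : Scheme.{0}) [IsIntegral X] : Prop :=
  FieldGeometric ℓ X.functionField (affineRings X)

end Pool.Agent.Y135
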