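import Mathlib

set_option autoImplicit false
set_option maxHeartbeats 400000
open CategoryTheory Limits AlgebraicGeometry
namespace Pool.Agent.Y135

/-- Étale coordinates near the generic point. -/
theorem exists_etale_coords (p : ℕ) [Fact p.Prime] (n : ℕ) (k : Type) [Field k] [Finite k]
    [CharP k p] (X : Scheme.{0}) [IsIntegral X] (f : X ⟶ Spec (.of k))
    [SmoothOfRelativeDimension n f] :
    ∃ V : X.Opens, IsAffineOpen V ∧ Nonempty V ∧
      ∃ g : MvPolynomial (Fin n) (ZMod p) →+* Γ(X, V), g.Etale := by
  obtain ⟨U, hU, V, hV, hx, e, hf⟩ :=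
    SmoothOfRelativeDimension.exists_isStandardSmoothOfRelativeDimension (n := n) (f := f)
      (genericPoint X)
  have hUtop : U = ⊤ := by
    have : Subsingleton (Spec (.of k)) := inferInstanceAs (Subsingleton (PrimeSpectrum k))
    ext y
    simp only [TopologicalSpace.Opens.coe_top, Set.mem_univ, iff_true]
    have h1 : f (genericPoint X) ∈ U := e hx
    rw [Subsingleton.elim y (f (genericPoint X))]
    exact h1
  subst hUtop
  refine ⟨V, hV, ⟨⟨_, hx⟩⟩, ?_⟩
  let c : k ≃+* Γ(Spec (.of k), ⊤) :=
    (Scheme.ΓSpecIso (.of k)).symm.commRingCatIsoToRingEquiv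
  let := ZMod.algebra k p
  have h1 : Algebra.Etale (ZMod p) k := by
    have : Algebra.FormallyEtale (ZMod p) k := Algebra.FormallyEtale.of_isSeparable _ _
    have : Algebra.FiniteType (ZMod p) k := inferInstance
    exact { formallyEtale := inferInstance
            finitePresentation := Algebra.FinitePresentation.of_finiteType.mp inferInstance }
  have h2 : (algebraMap (ZMod p) k).IsStandardSmoothOfRelativeDimension 0 := by
    rw [RingHom.isStandardSmoothOfRelativeDimension_algebraMap]
    exact Algebra.Etale.iff_isStandardSmoothOfRelativeDimension_zero.mp h1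
  have h3 := (hf.comp (RingHom.IsStandardSmoothOfRelativeDimension.equiv c)).comp h2
  rw [add_zero, add_zero] at h3
  obtain ⟨g, -, hg⟩ := h3.exists_etale_mvPolynomial
  exact ⟨g, hg⟩

/-- Affine space is smooth. -/
theorem smooth_affineSpace (n : ℕ) (k : Type) [Field k] :
    SmoothOfRelativeDimension n (Spec.map (CommRingCat.ofHom
      (MvPolynomial.C : k →+* MvPolynomial (Fin n) k))) := by
  rw [HasRingHomProperty.Spec_iff (P := @SmoothOfRelativeDimension n)]
  apply RingHom.locally_of
  · exact RingHom.isStandardSmoothOfRelativeDimension_respectsIso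
  change (algebraMap k (MvPolynomial (Fin n) k)).IsStandardSmoothOfRelativeDimension n
  rw [RingHom.isStandardSmoothOfRelativeDimension_algebraMap]
  have : Algebra.IsStandardSmooth k (MvPolynomial (Fin n) k) := by
    refine Algebra.IsStandardSmooth.of_basis_kaehlerDifferential
      (KaehlerDifferential.mvPolynomialBasis k (Fin n)) ?_
    rintro _ ⟨i, rfl⟩
    exact ⟨MvPolynomial.X i, (KaehlerDifferential.mvPolynomialBasis_apply k (Fin n) i).symm⟩
  rw [Algebra.IsStandardSmoothOfRelativeDimension.iff_of_isStandardSmooth]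
  rw [rank_eq_card_basis (KaehlerDifferential.mvPolynomialBasis k (Fin n))]
  simp

end Pool.Agent.Y135
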