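import Pool.Agent.Y135.MainA
import Pool.Agent.Y135.Sch
import Pool.Agent.Y135.SchA

set_option autoImplicit false
set_option maxHeartbeats 400000
open CategoryTheory Limits AlgebraicGeometry
namespace Pool.Agent.Y135

/-- The affine space over the field with `p` elements. -/
noncomputable abbrev affineSpace (p n : ℕ) : Scheme.{0} :=
  Spec (.of (MvPolynomial (Fin n) (ZMod p)))

instance topNonempty (X : Scheme.{0}) [IsIntegral X] : Nonempty (⊤ : X.Opens) :=
  ⟨⟨genericPoint X, trivial⟩⟩

/-- The embedding of a domain into the function field of its spectrum. -/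
noncomputable def toFun (A : Type) [CommRing A] [IsDomain A] :
    A →+* (Spec (.of A)).functionField :=
  ((Spec (.of A)).germToFunctionField ⊤).hom.comp (Scheme.ΓSpecIso (.of A)).inv.hom

theorem toFun_isFractionRing (A : Type) [CommRing A] [IsDomain A] :
    @IsFractionRing A _ (Spec (.of A)).functionField _ (toFun A).toAlgebra := by
  have h1 : IsFractionRing Γ(Spec (.of A), ⊤) (Spec (.of A)).functionField :=
    functionField_isFractionRing_of_isAffineOpen (Spec (.of A)) ⊤ (isAffineOpen_top _)
  let e : Γ(Spec (.of A), ⊤) ≃+* A := (Scheme.ΓSpecIso (.of A)).commRingCatIsoToRingEquiv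
  have h2 := IsLocalization.isLocalization_of_base_ringEquiv
    (nonZeroDivisors Γ(Spec (.of A), ⊤)) (Spec (.of A)).functionField e
  have h3 : (nonZeroDivisors Γ(Spec (.of A), ⊤)).map e = nonZeroDivisors A :=
    MulEquivClass.map_nonZeroDivisors e
  rw [h3] at h2
  exact h2

theorem toFun_eq (A : Type) [CommRing A] [IsDomain A] (U : (Spec (.of A)).Opens)
    [Nonempty U] (a : A) :
    ∃ b : Γ(Spec (.of A), U), (Spec (.of A)).germToFunctionField U b = toFun A a := by
  refine ⟨(Spec (.of A)).presheaf.map (homOfLE le_top).op ((Scheme.ΓSpecIso (.of A)).inv a), ?_⟩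
  have := (Spec (.of A)).presheaf.germ_res (homOfLE (le_top : U ≤ ⊤)) (genericPoint _)
    (((genericPoint_spec (Spec (.of A))).mem_open_set_iff U.isOpen).mpr
      (by simpa using (inferInstance : Nonempty U)))
  exact congrArg (fun φ => φ.hom ((Scheme.ΓSpecIso (.of A)).inv a)) this

theorem reduction (p ℓ : ℕ) [Fact p.Prime] [Fact ℓ.Prime] (n : ℕ)
    (hA : AllGeometric ℓ (affineSpace p n)) (k : Type) [Field k] [Finite k] [CharP k p]
    (X : Scheme.{0}) [IsIntegral X] (f : X ⟶ Spec (.of k)) [SmoothOfRelativeDimension n f] :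
    AllGeometric ℓ X := by
  intro Ω _ _ _ r ρ hc hl hi hd
  obtain ⟨V, hV, hVn, g, hg⟩ := exists_etale_coords p n k X f
  let a1 : Algebra (ZMod p) Γ(X, V) := (g.comp MvPolynomial.C).toAlgebra
  have hgx : g = (MvPolynomial.aeval (fun i => g (MvPolynomial.X i)) :
      MvPolynomial (Fin n) (ZMod p) →ₐ[ZMod p] Γ(X, V)).toRingHom := by
    apply MvPolynomial.ringHom_ext
    · intro i
      simp
      rfl
    · simp
  rw [hgx] at hg
  obtain ⟨t, hunr, hint, ht, hft⟩ := exists_coords p _ hg
  have hfr : IsFractionRing Γ(X, V) X.functionField :=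
    functionField_isFractionRing_of_isAffineOpen X V hV
  let aK : Algebra (MvPolynomial (Fin n) (ZMod p)) (affineSpace p n).functionField :=
    (toFun (MvPolynomial (Fin n) (ZMod p))).toAlgebra
  have hfr' : IsFractionRing (MvPolynomial (Fin n) (ZMod p)) (affineSpace p n).functionField :=
    toFun_isFractionRing _
  obtain ⟨a2, a3, htow, hac, s, σ, ψ, h1, h2, h3, h4, h5, h6⟩ :=
    main_alg (K₀ := (affineSpace p n).functionField) (K := X.functionField) p t hunr hint ht ρ
      hc hi hd (fun σ hσ => hl _ ⟨V, hVn, hV, rfl⟩ σ (by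
        rw [RingHom.map_range]
        exact hσ))
  refine (hA Ω s σ h1 ?_ h2 h3).transfer ψ h4 h5
  rintro _ ⟨U, _, hU, rfl⟩ τ hτ
  rw [RingHom.map_range] at hτ
  apply h6
  refine hτ.mono (fun y hy => ?_) (fun y => rfl) ?_
  · refine isIntegral_trans_subring ?_ hy
    rintro _ ⟨a, rfl⟩
    obtain ⟨b, hb⟩ := toFun_eq (MvPolynomial (Fin n) (ZMod p)) U a
    have : ((algebraMap (affineSpace p n).functionField Ω).comp
        (algebraMap (MvPolynomial (Fin n) (ZMod p)) (affineSpace p n).functionField)) a =
        ((algebraMap (affineSpace p n).functionField Ω).comp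
          ((affineSpace p n).germToFunctionField U).hom) b := by
      change algebraMap _ Ω _ = algebraMap _ Ω _
      congr 1
      exact hb.symm
    rw [this]
    exact isIntegral_algebraMap (x := (⟨_, b, rfl⟩ : ((algebraMap _ Ω).comp
          ((affineSpace p n).germToFunctionField U).hom).range))
  · rintro _ ⟨a, rfl⟩
    exact τ.commutes _

theorem reduction_iff (p ℓ : ℕ) [Fact p.Prime] [Fact ℓ.Prime] (n : ℕ) :
    (∀ (k : Type) [Field k] [Finite k] [CharP k p] (X : Scheme.{0}) [IsIntegral X]
      (f : X ⟶ Spec (.of k)) [SmoothOfRelativeDimension n f] [IsSeparated f] [QuasiCompact f],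
      AllGeometric ℓ X) ↔
    AllGeometric ℓ (affineSpace p n) := by
  refine ⟨fun h => ?_, fun h k _ _ _ X _ f _ _ _ => reduction p ℓ n h k X f⟩
  have := smooth_affineSpace n (ZMod p)
  exact h (ZMod p) (affineSpace p n) (Spec.map (CommRingCat.ofHom MvPolynomial.C))

end Pool.Agent.Y135
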