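import Pool.Agent.Y135.Top
import Pool.Agent.Y135.Inert
import Pool.Agent.Y135.FinF

set_option autoImplicit false
set_option maxHeartbeats 400000
namespace Pool.Agent.Y135

theorem isIntegral_trans_subring {Ω : Type*} [Field Ω] {A A' : Subring Ω}
    (h : ∀ a ∈ A', IsIntegral A a) {y : Ω} (hy : IsIntegral A' y) : IsIntegral A y := by
  let R : Subring Ω := (integralClosure A Ω).toSubring
  have hR : A' ≤ R := h
  have h1 : IsIntegral R y := by
    obtain ⟨P, hP, hPy⟩ := hy
    refine ⟨P.map (Subring.inclusion hR), hP.map _, ?_⟩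
    rw [Polynomial.eval₂_map]
    exact hPy
  exact (Subring.isIntegrallyClosedIn_iff).mp inferInstance h1

theorem main_alg (p : ℕ) [Fact p.Prime] {n : ℕ} {B K K₀ Ω : Type} [CommRing B]
    [Algebra (ZMod p) B] [Algebra.FiniteType (ZMod p) B] [Field K] [Field K₀] [Field Ω]
    [Algebra B K] [IsFractionRing B K] [Algebra (MvPolynomial (Fin n) (ZMod p)) K₀]
    [IsFractionRing (MvPolynomial (Fin n) (ZMod p)) K₀] [Algebra K Ω] [IsAlgClosure K Ω]
    (t : Fin n → B)
    (hunr : (MvPolynomial.aeval t :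
      MvPolynomial (Fin n) (ZMod p) →ₐ[ZMod p] B).toRingHom.FormallyUnramified)
    (hint : (MvPolynomial.aeval t : MvPolynomial (Fin n) (ZMod p) →ₐ[ZMod p] B).toRingHom.IsIntegral)
    (ht : AlgebraicIndependent (ZMod p) t)
    {F : Type*} [Field F] [TopologicalSpace F] [IsTopologicalRing F] {r : ℕ}
    (ρ : Gal(Ω/K) →* GL (Fin r) F) (hρ : IsCont ρ) (hirr : IsIrred ρ) (hdet : HasFiniteDet ρ)
    (hlisse : ∀ σ : Gal(Ω/K), InInertia ((algebraMap K Ω).comp (algebraMap B K)).range σ →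
      ρ σ = 1) :
    ∃ (_ : Algebra K₀ K) (_ : Algebra K₀ Ω) (_ : IsScalarTower K₀ K Ω) (_ : IsAlgClosure K₀ Ω)
      (s : ℕ) (σ : Gal(Ω/K₀) →* GL (Fin s) F) (ψ : (Fin s → F) →ₗ[F] (Fin r → F)),
      IsCont σ ∧ IsIrred σ ∧ HasFiniteDet σ ∧ Function.Surjective ψ ∧
      (∀ (h : Gal(Ω/K)) v, ψ ((σ (h.restrictScalars K₀) : Matrix (Fin s) (Fin s) F).mulVec v) =
        (ρ h : Matrix (Fin r) (Fin r) F).mulVec (ψ v)) ∧
      ∀ g : Gal(Ω/K₀), InInertia
        ((algebraMap K₀ Ω).comp (algebraMap (MvPolynomial (Fin n) (ZMod p)) K₀)).range g →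
        σ g = 1 := by
  let φ := (MvPolynomial.aeval t : MvPolynomial (Fin n) (ZMod p) →ₐ[ZMod p] B).toRingHom
  have hφ : Function.Injective φ := ht
  have hχ : Function.Injective ((algebraMap B K).comp φ) :=
    (IsFractionRing.injective B K).comp hφ
  let a1 : Algebra K₀ K := (IsFractionRing.lift hχ : K₀ →+* K).toAlgebra
  have ha1 : ∀ c, algebraMap K₀ K (algebraMap (MvPolynomial (Fin n) (ZMod p)) K₀ c) =
      algebraMap B K (φ c) := fun c => IsFractionRing.lift_algebraMap hχ c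
  let a2 : Algebra K₀ Ω := ((algebraMap K Ω).comp (algebraMap K₀ K)).toAlgebra
  have htower : IsScalarTower K₀ K Ω := IsScalarTower.of_algebraMap_eq' rfl
  have hfin : FiniteDimensional K₀ K := by
    let := φ.toAlgebra
    let := ((algebraMap B K).comp φ).toAlgebra
    have : IsScalarTower (ZMod p) (MvPolynomial (Fin n) (ZMod p)) B :=
      IsScalarTower.of_algebraMap_eq' (MvPolynomial.aeval t).comp_algebraMap.symm
    have : Algebra.FormallyUnramified (MvPolynomial (Fin n) (ZMod p)) B := hunr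
    have : Algebra.FiniteType (MvPolynomial (Fin n) (ZMod p)) B :=
      Algebra.FiniteType.of_restrictScalars_finiteType (ZMod p) _ _
    have : IsScalarTower (MvPolynomial (Fin n) (ZMod p)) B K :=
      IsScalarTower.of_algebraMap_eq' rfl
    have : IsScalarTower (MvPolynomial (Fin n) (ZMod p)) K₀ K :=
      IsScalarTower.of_algebraMap_eq (fun c => (ha1 c).symm)
    exact finite_fraction (MvPolynomial (Fin n) (ZMod p)) B K₀ K
  have hac : IsAlgClosure K₀ Ω := by
    have h1 : IsAlgClosed Ω := IsAlgClosure.isAlgClosed K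
    have h2 : Algebra.IsAlgebraic K Ω := IsAlgClosure.isAlgebraic
    exact ⟨h1, Algebra.IsAlgebraic.trans K₀ K Ω⟩
  obtain ⟨s, σ, ψ, h1, h2, h3, h4, h5, h6⟩ := exists_extension_gal K₀ K Ω ρ hρ hirr hdet
  refine ⟨a1, a2, htower, hac, s, σ, ψ, h1, h2, h3, h4, h5, fun g hg => h6 g fun x => ?_⟩
  let ι : B →+* Ω := (algebraMap K Ω).comp (algebraMap B K)
  have hA : ((algebraMap K₀ Ω).comp (algebraMap (MvPolynomial (Fin n) (ZMod p)) K₀)).range =
      (ι.comp φ).range := by
    congr 1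
    ext c
    · change algebraMap K Ω (algebraMap K₀ K _) = _
      rw [ha1]
      rfl
    · change algebraMap K Ω (algebraMap K₀ K _) = _
      rw [ha1]
      rfl
  have hfix : ∀ (y : Gal(Ω/K₀)), ∀ a ∈ ((algebraMap K₀ Ω).comp
      (algebraMap (MvPolynomial (Fin n) (ZMod p)) K₀)).range, y a = a := by
    rintro y _ ⟨c, rfl⟩
    exact y.commutes _
  have hconj := hg.conj x (hfix x)
  obtain ⟨Q, hQ, hQσ⟩ := id hconj
  have hB : ∀ b, (x * g * x⁻¹) (ι b) = ι b := by
    intro b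
    exact inertia_fix p ι t hunr hint _ hA ((x * g * x⁻¹ : Gal(Ω/K₀)) : Ω →+* Ω)
      (hfix (x * g * x⁻¹)) Q hQ.ne_top hQσ b
  have hK : ∀ y : K, (x * g * x⁻¹) (algebraMap K Ω y) = algebraMap K Ω y := by
    intro y
    obtain ⟨b, c, hc, rfl⟩ := IsFractionRing.div_surjective (A := B) y
    rw [map_div₀, map_div₀]
    congr 1
    · exact hB b
    · exact hB c
  let h : Gal(Ω/K) := AlgEquiv.ofRingEquiv (f := (x * g * x⁻¹ : Gal(Ω/K₀)).toRingEquiv) hK
  refine ⟨h, by ext y; rfl, hlisse h ?_⟩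
  refine hconj.mono (fun y hy => ?_) (fun y => rfl) ?_
  · -- integrality
    rw [hA]
    have hBint : ∀ b, IsIntegral (ι.comp φ).range (ι b) := by
      intro b
      obtain ⟨P, hP, hPb⟩ := hint b
      let χ : MvPolynomial (Fin n) (ZMod p) →+* (ι.comp φ).range := (ι.comp φ).rangeRestrict
      refine ⟨P.map χ, hP.map χ, ?_⟩
      rw [Polynomial.eval₂_map]
      have h2 : (algebraMap (ι.comp φ).range Ω).comp χ = ι.comp φ := rfl
      rw [h2, ← Polynomial.hom_eval₂]
      have h3 : Polynomial.eval₂ φ b P = 0 := hPb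
      rw [h3, map_zero]
    refine isIntegral_trans_subring ?_ hy
    rintro _ ⟨b, rfl⟩
    exact hBint b
  · rintro _ ⟨b, rfl⟩
    exact hB b

end Pool.Agent.Y135
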