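import Pool.Agent.Y135.ModA

set_option autoImplicit false
set_option maxHeartbeats 400000
open CategoryTheory Limits AlgebraicGeometry Opposite Abelian
universe u
namespace Pool.Agent.Y135

variable {X X' X'' : Scheme.{u}} (ℓ : ℕ) [Fact ℓ.Prime]

/-- `H^n(X, ℤ_ℓ)` is a module over `ℤ_ℓ`: multiplication by `a` is the map induced by the
multiplication by `a` on the sheaf `ℤ_ℓ`. -/
noncomputable instance module (X : Scheme.{u}) (n : ℕ) : Module ℤ_[ℓ] (X.EllAdicCohomology ℓ n) :=
  haveI := hasExt_shv X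
  extModule (constZ X) (ell X ℓ) (smulEll ℓ X) (smulEll_one ℓ) (smulEll_mul ℓ) (smulEll_add ℓ)
    (smulEll_zero ℓ) n

theorem pull_smul (f : X ⟶ X') [WeaklyEtale f] (n : ℕ) (a : ℤ_[ℓ])
    (x : X'.EllAdicCohomology ℓ n) : pull f ℓ n (a • x) = a • pull f ℓ n x := by
  have key : ∀ x : Ext (constZ X') (ell X' ℓ) n,
      tw (res f) (resConst f) (resEll f ℓ).hom n (x.comp (Ext.mk₀ (smulEll ℓ X' a)) (add_zero n)) =
      (tw (res f) (resConst f) (resEll f ℓ).hom n x).comp (Ext.mk₀ (smulEll ℓ X a))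
        (add_zero n) := by
    intro x
    rw [tw_pre, tw_post, smulEll_res]
  exact key x

end Pool.Agent.Y135
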