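import Pool.Agent.Y135.Coh

set_option autoImplicit false
set_option maxHeartbeats 400000
open CategoryTheory Limits AlgebraicGeometry Opposite Abelian
universe u
namespace Pool.Agent.Y135

variable {X X' X'' : Scheme.{u}} (ℓ : ℕ) [Fact ℓ.Prime]

/-- Multiplication by `a` on the group of continuous maps from `U` to `ℤ_ℓ`. -/
noncomputable def smulHom (a : ℤ_[ℓ]) (U : Scheme.{u}ᵒᵖ) :
    (continuousMapPresheafAb ℤ_[ℓ]).obj U ⟶ (continuousMapPresheafAb ℤ_[ℓ]).obj U :=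
  AddCommGrpCat.ofHom (DistribSMul.toAddMonoidHom C(U.unop, ℤ_[ℓ]) a)

theorem smulHom_natural (a : ℤ_[ℓ]) {U V : Scheme.{u}ᵒᵖ} (f : U ⟶ V) :
    (continuousMapPresheafAb ℤ_[ℓ]).map f ≫ smulHom ℓ a V =
      smulHom ℓ a U ≫ (continuousMapPresheafAb ℤ_[ℓ]).map f := rfl

/-- Multiplication by `a` on the presheaf of continuous maps to `ℤ_ℓ`. -/
noncomputable def smulPresheaf (a : ℤ_[ℓ]) :
    (continuousMapPresheafAb ℤ_[ℓ] : Scheme.{u}ᵒᵖ ⥤ Ab.{u}) ⟶ continuousMapPresheafAb ℤ_[ℓ] where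
  app U := smulHom ℓ a U
  naturality _ _ f := smulHom_natural ℓ a f

/-- Multiplication by `a` on the sheaf `ℤ_ℓ`. -/
noncomputable def smulEll (X : Scheme.{u}) (a : ℤ_[ℓ]) : ell X ℓ ⟶ ell X ℓ :=
  (sheafCompose _ AddCommGrpCat.uliftFunctor.{u + 1}).map
    (((Scheme.ProEt.forget X ⋙ Over.forget _).sheafPushforwardContinuous _ _
      Scheme.proetaleTopology).map ⟨smulPresheaf ℓ a⟩)

theorem smulEll_one : smulEll ℓ X 1 = 𝟙 _ := by
  apply ObjectProperty.hom_ext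
  ext U x
  exact congrArg ULift.up (one_smul ℤ_[ℓ] (show C(U.unop.left, ℤ_[ℓ]) from x.down))

theorem smulEll_mul (a b : ℤ_[ℓ]) : smulEll ℓ X (a * b) = smulEll ℓ X b ≫ smulEll ℓ X a := by
  apply ObjectProperty.hom_ext
  ext U x
  exact congrArg ULift.up (mul_smul a b (show C(U.unop.left, ℤ_[ℓ]) from x.down))

theorem smulEll_add (a b : ℤ_[ℓ]) : smulEll ℓ X (a + b) = smulEll ℓ X a + smulEll ℓ X b := by
  apply ObjectProperty.hom_ext
  ext U x
  exact congrArg ULift.up (add_smul a b (show C(U.unop.left, ℤ_[ℓ]) from x.down))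

theorem smulEll_zero : smulEll ℓ X 0 = 0 := by
  apply ObjectProperty.hom_ext
  ext U x
  exact congrArg ULift.up (zero_smul ℤ_[ℓ] (show C(U.unop.left, ℤ_[ℓ]) from x.down))

theorem smulEll_res (f : X ⟶ X') [WeaklyEtale f] (a : ℤ_[ℓ]) :
    (res f).map (smulEll ℓ X' a) ≫ (resEll f ℓ).hom = (resEll f ℓ).hom ≫ smulEll ℓ X a := by
  apply ObjectProperty.hom_ext
  ext U x
  rfl


end Pool.Agent.Y135
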