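import Pool.Agent.Y135.Main

set_option autoImplicit false
set_option maxHeartbeats 400000
open CategoryTheory Limits AlgebraicGeometry
namespace Pool.Agent.Y135

section
variable {U A : Scheme.{0}} [IsIntegral U] [IsIntegral A] (j : U ⟶ A) [IsOpenImmersion j]

/-- The isomorphism of function fields. -/
noncomputable def funMap : U.functionField ⟶ A.functionField :=
  inv (j.stalkMap (genericPoint U)) ≫ A.presheaf.stalkSpecializes
    (specializes_of_eq (genericPoint_eq_of_isOpenImmersion j).symm)

theorem funMap_surjective : Function.Surjective (funMap j) := by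
  have e := genericPoint_eq_of_isOpenImmersion j
  have h : IsIso (A.presheaf.stalkSpecializes (specializes_of_eq e.symm)) :=
    ⟨A.presheaf.stalkSpecializes (specializes_of_eq e), by
      rw [A.presheaf.stalkSpecializes_comp, A.presheaf.stalkSpecializes_refl], by
      rw [A.presheaf.stalkSpecializes_comp, A.presheaf.stalkSpecializes_refl]⟩
  have : IsIso (funMap j) := by
    unfold funMap
    infer_instance
  exact (ConcreteCategory.bijective_of_isIso (funMap j)).2

theorem funMap_germ (V : U.Opens) [Nonempty V] [Nonempty (j ''ᵁ V)] :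
    (j.appIso V).hom ≫ U.germToFunctionField V ≫ funMap j = A.germToFunctionField (j ''ᵁ V) := by
  have hη : genericPoint U ∈ V :=
    ((genericPoint_spec U).mem_open_set_iff V.isOpen).mpr
      (by simpa using (inferInstance : Nonempty V))
  have h1 := j.germ_stalkMap (j ''ᵁ V) (genericPoint U) ⟨_, hη, rfl⟩
  have h2 : (j.appIso V).hom ≫ U.germToFunctionField V =
      A.presheaf.germ (j ''ᵁ V) (j (genericPoint U)) ⟨_, hη, rfl⟩ ≫
        j.stalkMap (genericPoint U) := by
    rw [h1, Scheme.Hom.appIso_hom, Category.assoc]
    congr 1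
    exact U.presheaf.germ_res _ _ _
  rw [← Category.assoc, h2, funMap, Category.assoc, IsIso.hom_inv_id_assoc]
  exact A.presheaf.germ_stalkSpecializes _ _

include j in
/-- A positive answer for an open subscheme gives one for the whole scheme. -/
theorem AllGeometric.of_open {ℓ : ℕ} [Fact ℓ.Prime] (hU : AllGeometric ℓ U) :
    AllGeometric ℓ A := by
  intro Ω _ _ _ r ρ hc hl hi hd
  let a1 : Algebra U.functionField A.functionField := (funMap j).hom.toAlgebra
  let a2 : Algebra U.functionField Ω :=
    ((algebraMap A.functionField Ω).comp (algebraMap U.functionField A.functionField)).toAlgebra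
  have htow : IsScalarTower U.functionField A.functionField Ω := IsScalarTower.of_algebraMap_eq' rfl
  have hsurj : Function.Surjective (algebraMap U.functionField A.functionField) :=
    funMap_surjective j
  have hfin : FiniteDimensional U.functionField A.functionField :=
    Module.Finite.of_surjective (Algebra.linearMap U.functionField A.functionField) hsurj
  have hac : IsAlgClosure U.functionField Ω := by
    have h1 : IsAlgClosed Ω := IsAlgClosure.isAlgClosed A.functionField
    have h2 : Algebra.IsAlgebraic A.functionField Ω := IsAlgClosure.isAlgebraic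
    exact ⟨h1, Algebra.IsAlgebraic.trans U.functionField A.functionField Ω⟩
  obtain ⟨s, σ, ψ, h1, h2, h3, h4, h5, h6⟩ :=
    exists_extension_gal U.functionField A.functionField Ω ρ hc hi hd
  refine (hU Ω s σ h1 ?_ h2 h3).transfer ψ h4 h5
  rintro _ ⟨V, _, hV, rfl⟩ τ hτ
  rw [RingHom.map_range] at hτ
  apply h6
  intro x
  have : Nonempty (j ''ᵁ V) := by
    obtain ⟨⟨v, hv⟩⟩ := (inferInstance : Nonempty V)
    exact ⟨⟨_, v, hv, rfl⟩⟩
  have hK : ∀ y : A.functionField, (x * τ * x⁻¹) (algebraMap A.functionField Ω y) =
      algebraMap A.functionField Ω y := by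
    intro y
    obtain ⟨z, rfl⟩ := hsurj y
    exact (x * τ * x⁻¹).commutes z
  let h : Gal(Ω/A.functionField) := AlgEquiv.ofRingEquiv (f := (x * τ * x⁻¹).toRingEquiv) hK
  refine ⟨h, by ext y; rfl, hl _ ⟨j ''ᵁ V, this, hV.image_of_isOpenImmersion j, rfl⟩ h ?_⟩
  rw [RingHom.map_range]
  have hconj : InInertia ((algebraMap U.functionField Ω).comp
      (U.germToFunctionField V).hom).range (x * τ * x⁻¹) := by
    refine hτ.conj x ?_
    rintro _ ⟨c, rfl⟩
    exact x.commutes _
  refine hconj.mono (fun y hy => ?_) (fun y => rfl) ?_
  · refine isIntegral_trans_subring ?_ hy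
    rintro _ ⟨a, rfl⟩
    have h7 := congrArg (fun φ => φ.hom a) (funMap_germ j V)
    have h8 : ((algebraMap A.functionField Ω).comp (A.germToFunctionField (j ''ᵁ V)).hom) a =
        ((algebraMap U.functionField Ω).comp (U.germToFunctionField V).hom)
          ((j.appIso V).hom a) := by
      change algebraMap _ Ω _ = algebraMap _ Ω _
      congr 1
      exact h7.symm
    rw [h8]
    exact isIntegral_algebraMap (x := (⟨_, (j.appIso V).hom a, rfl⟩ :
      ((algebraMap U.functionField Ω).comp (U.germToFunctionField V).hom).range))
  · rintro _ ⟨a, rfl⟩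
    exact hK _

end

end Pool.Agent.Y135
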