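import Mathlib

set_option autoImplicit false
open CategoryTheory Limits AlgebraicGeometry Opposite
universe u
namespace Pool.Agent.Y135

variable {X X' X'' : Scheme.{u}}

theorem weaklyEtale_comp : MorphismProperty.IsStableUnderComposition @WeaklyEtale.{u} :=
  inferInstance

/-- The functor `(U → X) ↦ (U → X → X')` on pro-étale sites, for weakly étale `f`. -/
noncomputable def siteMap (f : X ⟶ X') [hf : WeaklyEtale f] : X.ProEt ⥤ X'.ProEt :=
  haveI := weaklyEtale_comp.{u}
  MorphismProperty.Over.map (P := @WeaklyEtale) (f := f) ⊤ hf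

/-- Base change along `f`. -/
noncomputable def sitePull (f : X ⟶ X') : X'.ProEt ⥤ X.ProEt :=
  MorphismProperty.Over.pullback @WeaklyEtale ⊤ f

noncomputable def siteAdj (f : X ⟶ X') [hf : WeaklyEtale f] : siteMap f ⊣ sitePull f :=
  MorphismProperty.Over.mapPullbackAdj @WeaklyEtale ⊤ f hf trivial

instance (f : X ⟶ X') [WeaklyEtale f] : PreservesLimitsOfShape WalkingCospan (siteMap f) := by
  have : PreservesLimitsOfShape WalkingCospan
      (siteMap f ⋙ (Scheme.ProEt.forget X' ⋙ Over.forget X')) :=
    inferInstanceAs <| PreservesLimitsOfShape WalkingCospan (Scheme.ProEt.forget X ⋙ Over.forget X)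
  have : ReflectsLimitsOfShape WalkingCospan (Scheme.ProEt.forget X' ⋙ Over.forget X') :=
    reflectsLimitsOfShape_of_reflectsIsomorphisms
  exact preservesLimitsOfShape_of_reflects_of_preserves (siteMap f)
    (Scheme.ProEt.forget X' ⋙ Over.forget X')

instance (X : Scheme.{u}) : (Scheme.ProEt.precoverage X).IsStableUnderBaseChange :=
  inferInstanceAs ((Scheme.proetalePrecoverage.comap
    (Scheme.ProEt.forget X ⋙ Over.forget X)).IsStableUnderBaseChange)

instance (f : X ⟶ X') [WeaklyEtale f] :
    (siteMap f).IsContinuous (Scheme.ProEt.topology X) (Scheme.ProEt.topology X') := by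
  apply Functor.isContinuous_toGrothendieck_of_pullbacksPreservedBy
  change _ ≤ Precoverage.comap (siteMap f) (Precoverage.comap _ _)
  rw [← Precoverage.comap_comp]
  exact le_rfl

instance (f : X ⟶ X') [WeaklyEtale f] : (sitePull f).IsContinuous (Scheme.ProEt.topology X')
    (Scheme.ProEt.topology X) := by
  have : PreservesLimitsOfShape WalkingCospan (sitePull f) :=
    (siteAdj f).rightAdjoint_preservesLimits.preservesLimitsOfShape
  apply Functor.isContinuous_toGrothendieck_of_pullbacksPreservedBy
  intro U R hR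
  obtain ⟨ι, Y, g, rfl⟩ := R.exists_eq_ofArrows
  have hR' : Presieve.ofArrows (fun i => (Y i).left) (fun i => (g i).left) ∈
      Scheme.proetalePrecoverage U.left := by
    have h : (Presieve.ofArrows Y g).map (Scheme.ProEt.forget X' ⋙ Over.forget X') ∈
      Scheme.proetalePrecoverage _ := hR
    rw [Presieve.map_ofArrows] at h
    exact h
  change ((Presieve.ofArrows Y g).map (sitePull f)).map
    (Scheme.ProEt.forget X ⋙ Over.forget X) ∈ Scheme.proetalePrecoverage _
  rw [Presieve.map_ofArrows, Presieve.map_ofArrows]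
  refine Precoverage.mem_coverings_of_isPullback (fun i => (g i).left) hR'
    (pullback.fst U.hom f) _ (fun i => pullback.fst (Y i).hom f) ?_
  intro i
  have hw : (g i).left ≫ U.hom = (Y i).hom := MorphismProperty.Over.w (g i)
  have hm : (Scheme.ProEt.forget X ⋙ Over.forget X).map ((sitePull f).map (g i)) =
      pullback.lift (pullback.fst (Y i).hom f ≫ (g i).left) (pullback.snd (Y i).hom f)
        (by rw [Category.assoc, hw, pullback.condition]) := rfl
  rw [hm]
  apply IsPullback.flip
  refine IsPullback.of_bot (v₂₁ := pullback.snd U.hom f) (v₂₂ := U.hom) (h₃₁ := f) ?_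
    (pullback.lift_fst _ _ _).symm (IsPullback.of_hasPullback U.hom f)
  have h := IsPullback.of_hasPullback (Y i).hom f
  convert! h using 1
  exact pullback.lift_snd _ _ _

/-- Abelian sheaves on the pro-étale site. -/
abbrev Shv (X : Scheme.{u}) := Sheaf (Scheme.ProEt.topology X) Ab.{u + 1}

theorem hasExt_shv (X : Scheme.{u}) : HasExt.{u + 1} (Shv X) := inferInstance

/-- Restriction of sheaves along a weakly étale morphism. -/
noncomputable def res (f : X ⟶ X') [WeaklyEtale f] : Shv X' ⥤ Shv X :=
  (siteMap f).sheafPushforwardContinuous Ab.{u + 1} (Scheme.ProEt.topology X)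
    (Scheme.ProEt.topology X')

/-- Direct image. -/
noncomputable def dir (f : X ⟶ X') [WeaklyEtale f] : Shv X ⥤ Shv X' :=
  (sitePull f).sheafPushforwardContinuous Ab.{u + 1} (Scheme.ProEt.topology X')
    (Scheme.ProEt.topology X)

noncomputable def resDirAdj (f : X ⟶ X') [WeaklyEtale f] : res f ⊣ dir f :=
  (siteAdj f).sheafPushforwardContinuous _ _

instance (f : X ⟶ X') [WeaklyEtale f] : (res f).IsLeftAdjoint := (resDirAdj f).isLeftAdjoint

instance (f : X ⟶ X') [WeaklyEtale f] : PreservesFiniteColimits (res f) := inferInstance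

instance (f : X ⟶ X') [WeaklyEtale f] : PreservesFiniteLimits (res f) := by
  have : PreservesFiniteLimits (res f ⋙ sheafToPresheaf _ _) :=
    inferInstanceAs (PreservesFiniteLimits (sheafToPresheaf _ _ ⋙
      (Functor.whiskeringLeft _ _ _).obj (siteMap f).op))
  exact preservesFiniteLimits_of_reflects_of_preserves (res f) (sheafToPresheaf _ _)

instance (f : X ⟶ X') [WeaklyEtale f] : (res f).Additive where

/-- The constant sheaf `ℤ`. -/
noncomputable abbrev constZ (X : Scheme.{u}) : Shv X :=
  (constantSheaf (Scheme.ProEt.topology X) Ab.{u + 1}).obj (AddCommGrpCat.of (ULift ℤ))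

/-- The sheaf `ℤ_ℓ`. -/
noncomputable abbrev ell (X : Scheme.{u}) (ℓ : ℕ) [Fact ℓ.Prime] : Shv X :=
  (sheafCompose _ AddCommGrpCat.uliftFunctor.{u + 1}).obj (X.ellAdicSheaf ℓ)

example (X : Scheme.{u}) (ℓ : ℕ) [Fact ℓ.Prime] (n : ℕ) :
    X.EllAdicCohomology ℓ n = Abelian.Ext (constZ X) (ell X ℓ) n := rfl

noncomputable def resEll (f : X ⟶ X') [WeaklyEtale f] (ℓ : ℕ) [Fact ℓ.Prime] :
    (res f).obj (ell X' ℓ) ≅ ell X ℓ := Iso.refl _

end Pool.Agent.Y135
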