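import Pool.Agent.Y135.Ind

set_option autoImplicit false
set_option maxHeartbeats 400000
namespace Pool.Agent.Y135

variable (K₀ K Ω : Type) [Field K₀] [Field K] [Field Ω] [Algebra K₀ K] [Algebra K Ω]
  [Algebra K₀ Ω] [IsScalarTower K₀ K Ω]

/-- The subgroup `Gal(Ω/K)` of `Gal(Ω/K₀)`. -/
def sub : Subgroup Gal(Ω/K₀) :=
  (AlgEquiv.restrictScalarsHom K₀ : Gal(Ω/K) →* Gal(Ω/K₀)).range

variable {K₀ K Ω}

theorem mem_sub {g : Gal(Ω/K₀)} :
    g ∈ sub K₀ K Ω ↔ ∀ x : K, g (algebraMap K Ω x) = algebraMap K Ω x := by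
  constructor
  · rintro ⟨h, rfl⟩ x
    exact h.commutes x
  · intro h
    exact ⟨AlgEquiv.ofRingEquiv (f := g.toRingEquiv) h, by ext x; rfl⟩

variable (K₀ K Ω)

/-- `Gal(Ω/K)` is isomorphic to the subgroup. -/
noncomputable def subEquiv : Gal(Ω/K) ≃* sub K₀ K Ω :=
  MonoidHom.ofInjective (f := (AlgEquiv.restrictScalarsHom K₀ : Gal(Ω/K) →* Gal(Ω/K₀)))
    (AlgEquiv.restrictScalarsHom_injective K₀)

theorem subEquiv_symm_apply (h : sub K₀ K Ω) (x : Ω) :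
    (subEquiv K₀ K Ω).symm h x = (h : Gal(Ω/K₀)) x := by
  obtain ⟨g, rfl⟩ := (subEquiv K₀ K Ω).surjective h
  rw [MulEquiv.symm_apply_apply]
  rfl

theorem sub_isOpen [FiniteDimensional K₀ K] : IsOpen (sub K₀ K Ω : Set Gal(Ω/K₀)) := by
  let E : IntermediateField K₀ Ω := (IsScalarTower.toAlgHom K₀ K Ω).fieldRange
  have : FiniteDimensional K₀ E :=
    LinearMap.finiteDimensional_range (IsScalarTower.toAlgHom K₀ K Ω).toLinearMap
  refine Subgroup.isOpen_mono (H₁ := E.fixingSubgroup) (fun g hg => ?_) E.fixingSubgroup_isOpen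
  rw [mem_sub]
  intro x
  exact (IntermediateField.mem_fixingSubgroup_iff E g).mp hg _ ⟨x, rfl⟩

instance sub_finiteIndex [FiniteDimensional K₀ K] : (sub K₀ K Ω).FiniteIndex := by
  let f : Gal(Ω/K₀) → (K →ₐ[K₀] Ω) := fun g =>
    (g : Ω →ₐ[K₀] Ω).comp (IsScalarTower.toAlgHom K₀ K Ω)
  have : Finite (Gal(Ω/K₀) ⧸ sub K₀ K Ω) := by
    refine Finite.of_injective (fun q => f q.out) (fun q q' h => ?_)
    rw [← q.out_eq', ← q'.out_eq', QuotientGroup.eq, mem_sub]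
    intro x
    have h1 : q.out (algebraMap K Ω x) = q'.out (algebraMap K Ω x) := AlgHom.congr_fun h x
    rw [AlgEquiv.mul_apply, ← h1, AlgEquiv.aut_inv, AlgEquiv.symm_apply_apply]
  exact Subgroup.finiteIndex_of_finite_quotient

theorem subEquiv_symm_continuous [FiniteDimensional K₀ K] :
    Continuous (subEquiv K₀ K Ω).symm := by
  have h1 : ContinuousAt (subEquiv K₀ K Ω).symm.toMonoidHom 1 := by
    rw [ContinuousAt, map_one, Filter.tendsto_def]
    intro s hs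
    obtain ⟨E, hE, hEs⟩ := (krullTopology_mem_nhds_one_iff K Ω s).mp hs
    let E' : IntermediateField K₀ Ω := E.restrictScalars K₀
    have : FiniteDimensional K₀ E' := FiniteDimensional.trans K₀ K E
    have h2 : (E'.fixingSubgroup : Set Gal(Ω/K₀)) ∈ nhds (1 : Gal(Ω/K₀)) :=
      E'.fixingSubgroup_isOpen.mem_nhds (one_mem _)
    have h3 : ((↑) : sub K₀ K Ω → Gal(Ω/K₀)) ⁻¹' (E'.fixingSubgroup : Set Gal(Ω/K₀)) ∈
        nhds (1 : sub K₀ K Ω) := continuous_subtype_val.continuousAt.preimage_mem_nhds h2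
    filter_upwards [h3] with h hh
    apply hEs
    change (subEquiv K₀ K Ω).symm h ∈ E.fixingSubgroup
    rw [IntermediateField.mem_fixingSubgroup_iff]
    intro x hx
    rw [subEquiv_symm_apply]
    exact (IntermediateField.mem_fixingSubgroup_iff E' _).mp hh x hx
  exact continuous_of_continuousAt_one _ h1

theorem exists_extension_gal [FiniteDimensional K₀ K] {F : Type*} [Field F] [TopologicalSpace F]
    [IsTopologicalRing F] {r : ℕ} (ρ : Gal(Ω/K) →* GL (Fin r) F)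
    (hρ : IsCont ρ) (hirr : IsIrred ρ) (hdet : HasFiniteDet ρ) :
    ∃ (s : ℕ) (σ : Gal(Ω/K₀) →* GL (Fin s) F) (ψ : (Fin s → F) →ₗ[F] (Fin r → F)),
      IsCont σ ∧ IsIrred σ ∧ HasFiniteDet σ ∧ Function.Surjective ψ ∧
      (∀ (h : Gal(Ω/K)) v, ψ ((σ (h.restrictScalars K₀) : Matrix (Fin s) (Fin s) F).mulVec v) =
        (ρ h : Matrix (Fin r) (Fin r) F).mulVec (ψ v)) ∧
      ∀ g : Gal(Ω/K₀), (∀ x : Gal(Ω/K₀), ∃ h : Gal(Ω/K), h.restrictScalars K₀ = x * g * x⁻¹ ∧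
        ρ h = 1) → σ g = 1 := by
  obtain ⟨s, σ, ψ, h1, h2, h3, h4, h5, h6⟩ := exists_extension (sub K₀ K Ω)
    (ρ.comp (subEquiv K₀ K Ω).symm.toMonoidHom) (sub_isOpen K₀ K Ω)
    (hρ.comp (subEquiv_symm_continuous K₀ K Ω)) (by
      refine ⟨hirr.1, fun W hW => hirr.2 W fun g w hw => ?_⟩
      have := hW (subEquiv K₀ K Ω g) w hw
      rw [MonoidHom.comp_apply] at this
      change (ρ ((subEquiv K₀ K Ω).symm (subEquiv K₀ K Ω g)) : Matrix _ _ F).mulVec w ∈ W at this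
      rwa [MulEquiv.symm_apply_apply] at this) (by
      obtain ⟨m, hm, h⟩ := hdet
      exact ⟨m, hm, fun g => h _⟩)
  refine ⟨s, σ, ψ, h1, h2, h3, h4, fun h v => ?_, fun g hg => ?_⟩
  · have := h5 (subEquiv K₀ K Ω h) v
    rw [MonoidHom.comp_apply] at this
    change ψ ((σ (h.restrictScalars K₀) : Matrix _ _ F).mulVec v) =
      (ρ ((subEquiv K₀ K Ω).symm (subEquiv K₀ K Ω h)) : Matrix _ _ F).mulVec (ψ v) at this
    rwa [MulEquiv.symm_apply_apply] at this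
  · refine h6 g (fun x => ?_)
    obtain ⟨h, hh, hρh⟩ := hg x
    have h7 : x * g * x⁻¹ ∈ sub K₀ K Ω := by
      rw [← hh]
      exact ⟨h, rfl⟩
    refine ⟨h7, ?_⟩
    have h8 : (⟨x * g * x⁻¹, h7⟩ : sub K₀ K Ω) = subEquiv K₀ K Ω h := Subtype.ext hh.symm
    rw [h8]
    change ρ ((subEquiv K₀ K Ω).symm (subEquiv K₀ K Ω h)) = 1
    rw [MulEquiv.symm_apply_apply, hρh]

end Pool.Agent.Y135
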